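import Mathlib

/-! One-dimensional Hausdorff measure of circular arcs of radius one. -/

open MeasureTheory Set Complex Filter
open scoped ENNReal NNReal MeasureTheory Topology

namespace Pool.Agent.Helper42.Arc

/-- The point of the unit circle around `c` in direction `θ`. -/
noncomputable def cis (c : ℂ) (θ : ℝ) : ℂ := c + Complex.exp (θ * I)

lemma cis_re (c : ℂ) (θ : ℝ) : (cis c θ).re = c.re + Real.cos θ := by
  simp [cis, Complex.exp_ofReal_mul_I_re]

lemma cis_im (c : ℂ) (θ : ℝ) : (cis c θ).im = c.im + Real.sin θ := by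
  simp [cis, Complex.exp_ofReal_mul_I_im]

lemma lipschitz_cis (c : ℂ) : LipschitzWith 1 (cis c) := by
  refine LipschitzWith.of_dist_le_mul fun x y => ?_
  have h : cis c x - cis c y = Complex.exp (y * I) * (Complex.exp (I * ((x - y : ℝ) : ℂ)) - 1) := by
    unfold cis
    rw [mul_sub, ← Complex.exp_add]
    push_cast
    ring_nf
  rw [dist_eq_norm, h, norm_mul, Complex.norm_exp_ofReal_mul_I, one_mul]
  simpa [Real.dist_eq] using Real.norm_exp_I_mul_ofReal_sub_one_le (x := x - y)

lemma continuous_cis (c : ℂ) : Continuous (cis c) := (lipschitz_cis c).continuous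

/-- Upper bound for the length of an arc. -/
lemma arc_le (c : ℂ) (α β : ℝ) : μH[1] (cis c '' Icc α β) ≤ ENNReal.ofReal (β - α) := by
  have h := (lipschitz_cis c).hausdorffMeasure_image_le (d := 1) zero_le_one (Icc α β)
  rw [hausdorffMeasure_real, Real.volume_Icc] at h
  simpa using h

/-- Projection onto the tangent direction at `m`. -/
noncomputable def tproj (c : ℂ) (m : ℝ) (z : ℂ) : ℝ :=
  -Real.sin m * (z - c).re + Real.cos m * (z - c).im

lemma tproj_cis (c : ℂ) (m θ : ℝ) : tproj c m (cis c θ) = Real.sin (θ - m) := by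
  simp only [tproj, cis, add_sub_cancel_left, Complex.exp_ofReal_mul_I_re,
    Complex.exp_ofReal_mul_I_im]
  rw [Real.sin_sub]; ring

lemma lipschitz_tproj (c : ℂ) (m : ℝ) : LipschitzWith 1 (tproj c m) := by
  refine LipschitzWith.of_dist_le_mul fun x y => ?_
  rw [Real.dist_eq, dist_eq_norm, NNReal.coe_one, one_mul]
  have h : tproj c m x - tproj c m y = (exp (-(m : ℂ) * I) * (x - y)).im := by
    simp only [tproj]
    rw [show -(m : ℂ) * I = ((-m : ℝ) : ℂ) * I by push_cast; ring, Complex.mul_im,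
      Complex.exp_ofReal_mul_I_re, Complex.exp_ofReal_mul_I_im, Real.cos_neg, Real.sin_neg]
    simp only [Complex.sub_re, Complex.sub_im]
    ring
  rw [h]
  calc |(exp (-(m : ℂ) * I) * (x - y)).im| ≤ ‖exp (-(m : ℂ) * I) * (x - y)‖ := Complex.abs_im_le_norm _
    _ = ‖x - y‖ := by
      rw [norm_mul, show -(m : ℂ) * I = ((-m : ℝ) : ℂ) * I by push_cast; ring,
        Complex.norm_exp_ofReal_mul_I, one_mul]

/-- chord lower bound for a short arc -/
lemma arc_ge_chord (c : ℂ) (m δ : ℝ) (h0 : 0 ≤ δ) (h1 : δ ≤ Real.pi / 2) :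
    ENNReal.ofReal (2 * Real.sin δ) ≤ μH[1] (cis c '' Ioo (m - δ) (m + δ)) := by
  have h := (lipschitz_tproj c m).hausdorffMeasure_image_le (d := 1) zero_le_one
    (cis c '' Ioo (m - δ) (m + δ))
  rw [hausdorffMeasure_real] at h
  simp only [ENNReal.coe_one, ENNReal.one_rpow, one_mul] at h
  refine le_trans ?_ h
  have : Ioo (-Real.sin δ) (Real.sin δ) ⊆ tproj c m '' (cis c '' Ioo (m - δ) (m + δ)) := by
    intro y hy
    have hs1 : Real.sin δ ≤ 1 := Real.sin_le_one δ
    refine ⟨cis c (m + Real.arcsin y), ⟨m + Real.arcsin y, ?_, rfl⟩, ?_⟩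
    · have e1 : Real.arcsin y < δ := by
        rw [Real.arcsin_lt_iff_lt_sin' ⟨by linarith [Real.pi_pos], h1⟩]; exact hy.2
      have e2 : -δ < Real.arcsin y := by
        rw [Real.lt_arcsin_iff_sin_lt' ⟨by linarith, by linarith [Real.pi_pos]⟩, Real.sin_neg]
        exact hy.1
      constructor <;> linarith
    · rw [tproj_cis, add_sub_cancel_left, Real.sin_arcsin (by linarith [hy.1]) (by linarith [hy.2])]
  calc ENNReal.ofReal (2 * Real.sin δ) = volume (Ioo (-Real.sin δ) (Real.sin δ)) := by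
        rw [Real.volume_Ioo]; ring_nf
    _ ≤ _ := measure_mono this

lemma cis_injOn (c : ℂ) (α : ℝ) : InjOn (cis c) (Ico α (α + 2 * Real.pi)) := by
  intro x hx y hy hxy
  have h : Complex.exp (x * I) = Complex.exp (y * I) := by
    unfold cis at hxy; exact add_left_cancel hxy
  rw [Complex.exp_eq_exp_iff_exists_int] at h
  obtain ⟨n, hn⟩ := h
  have h2 : x = y + n * (2 * Real.pi) := by
    have := congrArg Complex.im hn
    simpa using this
  have hn0 : n = 0 := by
    by_contra hne
    rcases lt_or_gt_of_ne hne with h' | h'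
    · have : (n : ℝ) ≤ -1 := by exact_mod_cast Int.le_sub_one_of_lt h'
      nlinarith [Real.pi_pos, hx.1, hy.2]
    · have : (1 : ℝ) ≤ n := by exact_mod_cast h'
      nlinarith [Real.pi_pos, hx.2, hy.1]
  simpa [hn0] using h2

/-- Lower bound with `N` chords. -/
lemma arc_ge_N (c : ℂ) (α L : ℝ) (h0 : 0 ≤ L) (h1 : L ≤ 2 * Real.pi) (N : ℕ) (hN : 2 ≤ N) :
    ENNReal.ofReal (N * (2 * Real.sin (L / (2 * N)))) ≤ μH[1] (cis c '' Ioo α (α + L)) := by
  have hNr : (2 : ℝ) ≤ N := by exact_mod_cast hN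
  have hNpos : (0 : ℝ) < N := by linarith
  set δ := L / (2 * N) with hδ
  have hδ0 : 0 ≤ δ := by positivity
  have hδ1 : δ ≤ Real.pi / 2 := by
    rw [hδ, div_le_iff₀ (by positivity)]; nlinarith [Real.pi_pos]
  have hLδ : L = N * (2 * δ) := by rw [hδ]; field_simp
  let I' : ℕ → Set ℝ := fun k => Ioo (α + (2 * k + 1) * δ - δ) (α + (2 * k + 1) * δ + δ)
  have hsub : ∀ k ∈ Finset.range N, I' k ⊆ Ico α (α + 2 * Real.pi) ∩ Ioo α (α + L) := by
    intro k hk x hx
    have hk' : (k : ℝ) + 1 ≤ N := by exact_mod_cast Finset.mem_range.1 hk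
    have hk0 : (0 : ℝ) ≤ k := Nat.cast_nonneg k
    have a1 : α < x := by nlinarith [hx.1]
    have a2 : x < α + L := by rw [hLδ]; nlinarith [hx.2]
    exact ⟨⟨a1.le, by linarith⟩, ⟨a1, a2⟩⟩
  have hdisj : ∀ k l : ℕ, k < l → Disjoint (I' k) (I' l) := by
    intro k l hkl
    rw [Set.disjoint_left]
    intro x hx hy
    have : (k : ℝ) + 1 ≤ l := by exact_mod_cast hkl
    nlinarith [hx.2, hy.1]
  have hmeas : ∀ k ∈ Finset.range N, MeasurableSet (cis c '' I' k) := by
    intro k hk
    refine measurableSet_Ioo.image_of_continuousOn_injOn (continuous_cis c).continuousOn ?_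
    exact (cis_injOn c α).mono fun x hx => (hsub k hk hx).1
  have hpd : Set.PairwiseDisjoint (↑(Finset.range N)) (fun k => cis c '' I' k) := by
    have key : ∀ k ∈ Finset.range N, ∀ l ∈ Finset.range N, k < l →
        Disjoint (cis c '' I' k) (cis c '' I' l) := by
      intro k hk l hl hkl
      rw [Set.disjoint_left]
      rintro z ⟨x, hx, rfl⟩ ⟨y, hy, hxy⟩
      have := cis_injOn c α (hsub l hl hy).1 (hsub k hk hx).1 hxy
      subst this
      exact Set.disjoint_left.1 (hdisj k l hkl) hx hy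
    intro k hk l hl hkl
    rcases lt_or_gt_of_ne hkl with h | h
    · exact key k (by simpa using hk) l (by simpa using hl) h
    · exact (key l (by simpa using hl) k (by simpa using hk) h).symm
  calc ENNReal.ofReal (N * (2 * Real.sin δ)) = ∑ k ∈ Finset.range N, ENNReal.ofReal (2 * Real.sin δ) := by
        rw [Finset.sum_const, Finset.card_range, nsmul_eq_mul,
          ENNReal.ofReal_mul (by positivity), ENNReal.ofReal_natCast]
    _ ≤ ∑ k ∈ Finset.range N, μH[1] (cis c '' I' k) := by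
        refine Finset.sum_le_sum fun k _ => arc_ge_chord c _ δ hδ0 hδ1
    _ = μH[1] (⋃ k ∈ Finset.range N, cis c '' I' k) := by
        rw [measure_biUnion_finset hpd hmeas]
    _ ≤ μH[1] (cis c '' Ioo α (α + L)) := by
        refine measure_mono ?_
        refine Set.iUnion₂_subset fun k hk => ?_
        exact Set.image_mono fun x hx => (hsub k hk hx).2

/-- Lower bound for the length of an arc. -/
lemma arc_ge (c : ℂ) (α β : ℝ) (h1 : β - α ≤ 2 * Real.pi) :
    ENNReal.ofReal (β - α) ≤ μH[1] (cis c '' Ioo α β) := by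
  rcases le_or_gt (β - α) 0 with h | h0
  · rw [ENNReal.ofReal_of_nonpos h]; exact zero_le
  set L := β - α with hL
  have hβ : β = α + L := by rw [hL]; ring
  have key : ∀ N : ℕ, 2 ≤ N → ENNReal.ofReal (L - L ^ 3 / (24 * N ^ 2)) ≤ μH[1] (cis c '' Ioo α β) := by
    intro N hN
    rw [hβ]
    refine le_trans (ENNReal.ofReal_le_ofReal ?_) (arc_ge_N c α L h0.le h1 N hN)
    have hNr : (2 : ℝ) ≤ N := by exact_mod_cast hN
    have hNpos : (0 : ℝ) < N := by linarith
    have hs := Real.sin_gt_sub_cube (x := L / (2 * N)) (by positivity)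
    have : (N : ℝ) * (2 * (L / (2 * N) - (L / (2 * N)) ^ 3 / 6)) = L - L ^ 3 / (24 * N ^ 2) := by
      field_simp
      ring
    rw [← this]
    gcongr
  have hlim : Tendsto (fun N : ℕ => ENNReal.ofReal (L - L ^ 3 / (24 * (N : ℝ) ^ 2))) atTop
      (𝓝 (ENNReal.ofReal L)) := by
    refine ENNReal.tendsto_ofReal ?_
    have : Tendsto (fun N : ℕ => L ^ 3 / (24 * (N : ℝ) ^ 2)) atTop (𝓝 0) := by
      refine Tendsto.div_atTop tendsto_const_nhds ?_
      refine Tendsto.const_mul_atTop (by norm_num) ?_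
      exact (tendsto_pow_atTop (by norm_num)).comp tendsto_natCast_atTop_atTop
    simpa using tendsto_const_nhds.sub this
  exact le_of_tendsto hlim (eventually_atTop.2 ⟨2, fun N hN => key N hN⟩)

/-- Length of an open arc. -/
lemma arc_Ioo (c : ℂ) (α β : ℝ) (h1 : β - α ≤ 2 * Real.pi) :
    μH[1] (cis c '' Ioo α β) = ENNReal.ofReal (β - α) :=
  le_antisymm ((measure_mono (Set.image_mono Ioo_subset_Icc_self)).trans (arc_le c α β))
    (arc_ge c α β h1)

end Pool.Agent.Helper42.Arc
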