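import Mathlib
import Pool.Agent.Helper42.ArcLength

/-! Five unit disks whose union gains perimeter under a contraction of the centres. -/

open MeasureTheory Set Complex Filter Metric
open scoped ENNReal NNReal MeasureTheory Topology

namespace Pool.Agent.Helper42.Arc

/-- A frontier point of a finite union of closed unit disks lies on one of the circles and in none
of the open disks. -/
lemma frontier_union_subset {ι : Type*} [Finite ι] (c : ι → ℂ) {z : ℂ}
    (hz : z ∈ frontier (⋃ i, closedBall (c i) 1)) :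
    (∃ i, dist z (c i) = 1) ∧ ∀ j, 1 ≤ dist z (c j) := by
  have hcl : IsClosed (⋃ i, closedBall (c i) (1:ℝ)) := isClosed_iUnion_of_finite fun i => isClosed_closedBall
  have h1 : z ∈ ⋃ i, closedBall (c i) (1:ℝ) := hcl.frontier_subset hz
  have h2 : ∀ j, 1 ≤ dist z (c j) := by
    intro j
    by_contra hlt
    push Not at hlt
    refine hz.2 ?_
    refine mem_interior.2 ⟨ball (c j) 1, ?_, isOpen_ball, mem_ball.2 hlt⟩
    exact (ball_subset_closedBall).trans (Set.subset_iUnion (fun i => closedBall (c i) (1:ℝ)) j)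
  refine ⟨?_, h2⟩
  obtain ⟨i, hi⟩ := Set.mem_iUnion.1 h1
  exact ⟨i, le_antisymm (mem_closedBall.1 hi) (h2 i)⟩

/-- A point on one circle which lies strictly outside all the other closed disks is a frontier
point of the union. -/
lemma mem_frontier_union {ι : Type*} [Finite ι] (c : ι → ℂ) {z : ℂ} (i : ι)
    (hi : dist z (c i) = 1) (hj : ∀ j, c j = c i ∨ 1 < dist z (c j)) :
    z ∈ frontier (⋃ i, closedBall (c i) 1) := by
  have hcl : IsClosed (⋃ i, closedBall (c i) (1:ℝ)) := isClosed_iUnion_of_finite fun i => isClosed_closedBall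
  rw [hcl.frontier_eq]
  refine ⟨Set.mem_iUnion.2 ⟨i, mem_closedBall.2 hi.le⟩, ?_⟩
  intro hint
  -- the path `z + t (z - c i)`
  let f : ℝ → ℂ := fun t => z + (t : ℂ) * (z - c i)
  have hf : Continuous f := by fun_prop
  have hf0 : f 0 = z := by simp [f]
  have e1 : ∀ᶠ t in 𝓝 (0 : ℝ), f t ∈ interior (⋃ i, closedBall (c i) (1:ℝ)) := by
    apply hf.continuousAt.eventually_mem
    rw [hf0]; exact isOpen_interior.mem_nhds hint
  have e2 : ∀ᶠ t in 𝓝 (0 : ℝ), ∀ j, c j = c i ∨ 1 < dist (f t) (c j) := by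
    rw [eventually_all]
    intro j
    rcases hj j with h | h
    · exact Eventually.of_forall fun t => Or.inl h
    · have hc : ContinuousAt (fun t => dist (f t) (c j)) 0 := by fun_prop
      have : ∀ᶠ t in 𝓝 (0:ℝ), 1 < dist (f t) (c j) := by
        refine hc.eventually (lt_mem_nhds ?_)
        show 1 < dist (f 0) (c j)
        rw [hf0]; exact h
      exact this.mono fun t ht => Or.inr ht
  have e3 : ∀ᶠ t in 𝓝[>] (0 : ℝ), 0 < t := eventually_mem_nhdsWithin
  obtain ⟨t, ⟨h1, h2⟩, h3⟩ := (((e1.and e2).filter_mono nhdsWithin_le_nhds).and e3).exists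
  obtain ⟨j, hj'⟩ := Set.mem_iUnion.1 (interior_subset h1)
  have hj'' := mem_closedBall.1 hj'
  rcases h2 j with h | h
  · rw [h] at hj''
    have : f t - c i = ((1 + t : ℝ) : ℂ) * (z - c i) := by
      simp only [f]; push_cast; ring
    rw [dist_eq_norm, this, norm_mul, ← dist_eq_norm, hi, mul_one, Complex.norm_real,
      Real.norm_eq_abs, abs_of_pos (by linarith)] at hj''
    linarith
  · linarith

lemma dist_eq_one_iff (z c : ℂ) : dist z c = 1 ↔ (z.re - c.re) ^ 2 + (z.im - c.im) ^ 2 = 1 := by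
  rw [Complex.dist_eq_re_im, Real.sqrt_eq_one]

lemma one_le_dist_iff (z c : ℂ) : 1 ≤ dist z c ↔ 1 ≤ (z.re - c.re) ^ 2 + (z.im - c.im) ^ 2 := by
  rw [Complex.dist_eq_re_im, Real.one_le_sqrt]

lemma one_lt_dist_iff (z c : ℂ) : 1 < dist z c ↔ 1 < (z.re - c.re) ^ 2 + (z.im - c.im) ^ 2 := by
  rw [Complex.dist_eq_re_im]
  constructor
  · intro h
    by_contra h'
    push Not at h'
    have := Real.sqrt_le_one.2 h'
    linarith
  · intro h
    rw [Real.lt_sqrt (by norm_num)]; simpa using h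

lemma eq_cis_up {z c : ℂ} (h : (z.re - c.re) ^ 2 + (z.im - c.im) ^ 2 = 1) (hy : 0 ≤ z.im - c.im) :
    z = cis c (Real.arccos (z.re - c.re)) := by
  have h1 : -1 ≤ z.re - c.re := by nlinarith
  have h2 : z.re - c.re ≤ 1 := by nlinarith
  apply Complex.ext
  · rw [cis_re, Real.cos_arccos h1 h2]; ring
  · rw [cis_im, Real.sin_arccos]
    have : 1 - (z.re - c.re) ^ 2 = (z.im - c.im) ^ 2 := by linarith
    rw [this, Real.sqrt_sq hy]; ring

lemma eq_cis_down {z c : ℂ} (h : (z.re - c.re) ^ 2 + (z.im - c.im) ^ 2 = 1) (hy : z.im - c.im ≤ 0) :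
    z = cis c (-Real.arccos (z.re - c.re)) := by
  have h1 : -1 ≤ z.re - c.re := by nlinarith
  have h2 : z.re - c.re ≤ 1 := by nlinarith
  apply Complex.ext
  · rw [cis_re, Real.cos_neg, Real.cos_arccos h1 h2]; ring
  · rw [cis_im, Real.sin_neg, Real.sin_arccos]
    have : 1 - (z.re - c.re) ^ 2 = (-(z.im - c.im)) ^ 2 := by linarith
    rw [this, Real.sqrt_sq (by linarith)]; ring

lemma eq_cis_down' {z c : ℂ} (h : (z.re - c.re) ^ 2 + (z.im - c.im) ^ 2 = 1) (hy : z.im - c.im ≤ 0) :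
    z = cis c (2 * Real.pi - Real.arccos (z.re - c.re)) := by
  have := eq_cis_down h hy
  apply Complex.ext
  · rw [cis_re, Real.cos_two_pi_sub]
    have h' := congrArg Complex.re this
    rwa [cis_re, Real.cos_neg] at h'
  · rw [cis_im, Real.sin_two_pi_sub]
    have h' := congrArg Complex.im this
    rwa [cis_im, Real.sin_neg] at h'

/-! ### The example -/

noncomputable def cA : ℂ := ⟨-6/5, 0⟩
noncomputable def cO : ℂ := ⟨0, 0⟩
noncomputable def cD : ℂ := ⟨2, 0⟩
noncomputable def cB : ℂ := ⟨1/13, 5/13⟩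
noncomputable def cB' : ℂ := ⟨1/13, -5/13⟩

noncomputable def exP : Fin 5 → ℂ := ![cA, cO, cD, cB, cB']
noncomputable def exQ : Fin 5 → ℂ := ![cA, cO, cD, cB, cB]

noncomputable def ω : ℝ := Real.arccos (-943/1105)
noncomputable def θA : ℝ := Real.arccos (36/85)
noncomputable def δ : ℝ := Real.arccos (12/13)
noncomputable def γ : ℝ := Real.arccos (3/5)

lemma keyA {u v : ℝ} (h : u ^ 2 + v ^ 2 = 1) (hv : 0 ≤ v) (hu : u ≤ 3/5)
    (h1 : 83 * u + 25 * v ≤ 289/5) : u ≤ 36/85 := by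
  by_contra hc
  push Not at hc
  have h2 : 0 ≤ 25 * v := by positivity
  have h3 : 25 * v ≤ 289/5 - 83 * u := by linarith
  have h4 : (25 * v) ^ 2 ≤ (289/5 - 83 * u) ^ 2 := pow_le_pow_left₀ h2 h3 2
  have h5 : 0 < (u - 36/85) * (943/1105 - u) := mul_pos (by linarith) (by linarith)
  nlinarith

lemma keyA' {u v : ℝ} (h : u ^ 2 + v ^ 2 = 1) (hu : u < 36/85) :
    83 * u + 25 * v < 289/5 := by
  by_contra hc
  push Not at hc
  have h3 : 289/5 - 83 * u ≤ 25 * v := by linarith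
  have h4 : (289/5 - 83 * u) ^ 2 ≤ (25 * v) ^ 2 := pow_le_pow_left₀ (by linarith) h3 2
  have h5 : 0 < (36/85 - u) * (943/1105 - u) := mul_pos (by linarith) (by linarith)
  nlinarith

lemma keyB {u v : ℝ} (h : u ^ 2 + v ^ 2 = 1) (hv : 0 ≤ v)
    (h1 : -289/5 ≤ 83 * u + 25 * v) : -943/1105 ≤ u := by
  by_contra hc
  push Not at hc
  have h2 : v ^ 2 < (576/1105) ^ 2 := by nlinarith
  have h3 : v < 576/1105 := lt_of_pow_lt_pow_left₀ 2 (by norm_num) h2
  linarith

lemma keyB' {u v : ℝ} (h : u ^ 2 + v ^ 2 = 1) (hv : 0 ≤ v) (hu : -943/1105 < u) :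
    -289/5 < 83 * u + 25 * v := by
  by_contra hc
  push Not at hc
  have h3 : 25 * v ≤ -289/5 - 83 * u := by linarith
  have h4 : (25 * v) ^ 2 ≤ (-289/5 - 83 * u) ^ 2 := pow_le_pow_left₀ (by positivity) h3 2
  have h6 : u < -36/85 := by linarith
  have h5 : 0 < (u + 943/1105) * (-36/85 - u) := mul_pos (by linarith) (by linarith)
  nlinarith

/-- the exposed part of a circle with two overlapping neighbours meeting at one point -/
lemma keyB2 {u v : ℝ} (h : u ^ 2 + v ^ 2 = 1) (hv : v < 0)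
    (h1 : -1 ≤ u + 5 * v) (h2 : 5 * u - 5 ≤ v) (_ : -5/13 ≤ v) : u = 12/13 ∧ v = -5/13 := by
  have hu2 : (12/13 : ℝ) ^ 2 ≤ u ^ 2 := by nlinarith
  rcases le_or_gt 0 u with hu | hu
  · have hu' : 12/13 ≤ u := by
      by_contra hc
      push Not at hc
      nlinarith
    have hlt : u < 1 := by nlinarith
    have : (-v) ^ 2 ≤ (5 * (1 - u)) ^ 2 := pow_le_pow_left₀ (by linarith) (by linarith) 2
    have h7 : (1 - u) * (1 + u) ≤ (1 - u) * (25 * (1 - u)) := by nlinarith
    have h8 : 1 + u ≤ 25 * (1 - u) := le_of_mul_le_mul_left h7 (by linarith)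
    have h9 : u = 12/13 := by linarith
    refine ⟨h9, ?_⟩
    rw [h9] at h
    have h10 : (v - 5/13) * (v + 5/13) = 0 := by nlinarith
    rcases mul_eq_zero.1 h10 with h11 | h11 <;> linarith
  · exfalso
    have hlt : -1 < u := by nlinarith
    have : (-(5 * v)) ^ 2 ≤ (1 + u) ^ 2 := pow_le_pow_left₀ (by linarith) (by linarith) 2
    have h7 : (1 + u) * (25 * (1 - u)) ≤ (1 + u) * (1 + u) := by nlinarith
    have h8 : 25 * (1 - u) ≤ 1 + u := le_of_mul_le_mul_left h7 (by linarith)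
    linarith

lemma keyD {u v : ℝ} (h : u ^ 2 + v ^ 2 = 1) (h1 : v ≤ 5 * u + 5) (h2 : -v ≤ 5 * u + 5) :
    (u = -1 ∧ v = 0) ∨ -12/13 ≤ u := by
  have hu : -1 ≤ u := by nlinarith
  rcases eq_or_lt_of_le hu with he | hlt
  · left
    rw [← he] at h
    exact ⟨he.symm, by nlinarith⟩
  · right
    have : v ^ 2 ≤ (5 * u + 5) ^ 2 := sq_le_sq' (by linarith) h1
    have h7 : (1 + u) * (1 - u) ≤ (1 + u) * (25 * (1 + u)) := by nlinarith
    have h8 : 1 - u ≤ 25 * (1 + u) := le_of_mul_le_mul_left h7 (by linarith)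
    linarith

lemma keyD' {u v : ℝ} (h : u ^ 2 + v ^ 2 = 1) (h1 : -12/13 < u) : v < 5 * u + 5 := by
  by_contra hc
  push Not at hc
  have : (5 * u + 5) ^ 2 ≤ v ^ 2 := pow_le_pow_left₀ (by linarith) hc 2
  nlinarith

lemma keyO {u v : ℝ} (h : u ^ 2 + v ^ 2 = 1) (h0 : -3/5 ≤ u) (h1 : u + 5 * v ≤ 1)
    (h2 : u - 5 * v ≤ 1) : u = 1 ∧ v = 0 := by
  have hu : u ≤ 1 := by nlinarith
  rcases eq_or_lt_of_le hu with he | hlt
  · rw [he] at h
    exact ⟨he, by nlinarith⟩
  · exfalso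
    have : (5 * v) ^ 2 ≤ (1 - u) ^ 2 := sq_le_sq' (by linarith) (by linarith)
    have h7 : (1 - u) * (25 * (1 + u)) ≤ (1 - u) * (1 - u) := by nlinarith
    have h8 : 25 * (1 + u) ≤ 1 - u := le_of_mul_le_mul_left h7 (by linarith)
    linarith

lemma ω_mem : 0 ≤ ω ∧ ω ≤ Real.pi := ⟨Real.arccos_nonneg _, Real.arccos_le_pi _⟩
lemma θA_mem : 0 ≤ θA ∧ θA ≤ Real.pi := ⟨Real.arccos_nonneg _, Real.arccos_le_pi _⟩
lemma δ_mem : 0 ≤ δ ∧ δ ≤ Real.pi := ⟨Real.arccos_nonneg _, Real.arccos_le_pi _⟩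
lemma γ_mem : 0 ≤ γ ∧ γ ≤ Real.pi / 2 :=
  ⟨Real.arccos_nonneg _, Real.arccos_le_pi_div_two.2 (by norm_num)⟩

lemma pi_sub_δ : Real.pi - δ = Real.arccos (-12/13) := by
  rw [δ, ← Real.arccos_neg]; norm_num

lemma exP_frontier {z : ℂ} (hz : z ∈ frontier (⋃ i, closedBall (exP i) 1)) :
    z = 1 ∨ z ∈ cis cB '' Icc 0 ω ∨ z ∈ cis cB' '' Icc (-ω) 0 ∨
      z ∈ cis cA '' Icc θA (2 * Real.pi - θA) ∨ z ∈ cis cD '' Icc (-(Real.pi - δ)) (Real.pi - δ) := by
  obtain ⟨⟨i, hi⟩, hj⟩ := frontier_union_subset exP hz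
  have hA := (one_le_dist_iff _ _).1 (hj 0)
  have hO := (one_le_dist_iff _ _).1 (hj 1)
  have hD := (one_le_dist_iff _ _).1 (hj 2)
  have hB := (one_le_dist_iff _ _).1 (hj 3)
  have hB' := (one_le_dist_iff _ _).1 (hj 4)
  simp only [exP, cA, cO, cD, cB, cB', Matrix.cons_val_zero, Matrix.cons_val_one,
    Matrix.cons_val] at hA hO hD hB hB'
  rw [dist_eq_one_iff] at hi
  have hz1 : z.re = 1 → z.im = 0 → z = 1 := by
    intro h1 h2
    apply Complex.ext <;> simp [h1, h2]
  fin_cases i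
  · -- circle A
    have hi' : (z.re - cA.re) ^ 2 + (z.im - cA.im) ^ 2 = 1 := hi
    simp only [exP, cA, Matrix.cons_val_zero, Fin.zero_eta] at hi
    have hu : z.re - cA.re ≤ 36/85 := by
      rcases le_total 0 (z.im - cA.im) with hv | hv
      · refine keyA hi' hv ?_ ?_ <;> simp only [cA] <;> nlinarith
      · refine keyA (v := -(z.im - cA.im)) (by linarith [hi', neg_sq (z.im - cA.im)]) (by linarith) ?_ ?_ <;>
          simp only [cA] <;> nlinarith
    right; right; right; left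
    have hθ : θA ≤ Real.arccos (z.re - cA.re) := Real.arccos_le_arccos hu
    have hπ := Real.arccos_le_pi (z.re - cA.re)
    rcases le_total 0 (z.im - cA.im) with hv | hv
    · refine ⟨_, ⟨hθ, ?_⟩, (eq_cis_up hi' hv).symm⟩
      linarith [θA_mem.2]
    · refine ⟨_, ⟨?_, ?_⟩, (eq_cis_down' hi' hv).symm⟩ <;> linarith [θA_mem.2]
  · simp only [exP, cO, Matrix.cons_val_one, Fin.mk_one, Matrix.cons_val_zero] at hi
    left
    have := keyO (u := z.re) (v := z.im) (by linarith) (by nlinarith) (by nlinarith) (by nlinarith)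
    exact hz1 this.1 this.2
  · have hi' : (z.re - cD.re) ^ 2 + (z.im - cD.im) ^ 2 = 1 := hi
    simp only [exP, cD, Fin.reduceFinMk, Matrix.cons_val] at hi
    have := keyD (u := z.re - cD.re) (v := z.im - cD.im) hi' (by simp only [cD]; nlinarith)
      (by simp only [cD]; nlinarith)
    rcases this with ⟨h1, h2⟩ | h
    · left
      simp only [cD] at h1 h2
      exact hz1 (by linarith) (by linarith)
    · right; right; right; right
      have hθ : Real.arccos (z.re - cD.re) ≤ Real.pi - δ := by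
        rw [pi_sub_δ]; exact Real.arccos_le_arccos h
      have h0 := Real.arccos_nonneg (z.re - cD.re)
      rcases le_total 0 (z.im - cD.im) with hv | hv
      · refine ⟨_, ⟨?_, hθ⟩, (eq_cis_up hi' hv).symm⟩
        linarith
      · refine ⟨_, ⟨?_, ?_⟩, (eq_cis_down hi' hv).symm⟩ <;> linarith
  · have hi' : (z.re - cB.re) ^ 2 + (z.im - cB.im) ^ 2 = 1 := hi
    simp only [exP, cB, Fin.reduceFinMk, Matrix.cons_val] at hi
    rcases lt_or_ge (z.im - cB.im) 0 with hv | hv
    · left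
      have := keyB2 hi' hv (by simp only [cB]; nlinarith) (by simp only [cB]; nlinarith)
        (by simp only [cB]; nlinarith)
      simp only [cB] at this
      exact hz1 (by linarith [this.1]) (by linarith [this.2])
    · right; left
      have hu := keyB hi' hv (by simp only [cB]; nlinarith)
      refine ⟨_, ⟨Real.arccos_nonneg _, ?_⟩, (eq_cis_up hi' hv).symm⟩
      exact Real.arccos_le_arccos hu
  · have hi' : (z.re - cB'.re) ^ 2 + (z.im - cB'.im) ^ 2 = 1 := hi
    have hi'' : (z.re - cB'.re) ^ 2 + (-(z.im - cB'.im)) ^ 2 = 1 := by rw [neg_sq]; exact hi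
    simp only [exP, cB', Fin.reduceFinMk, Matrix.cons_val] at hi
    rcases lt_or_ge 0 (z.im - cB'.im) with hv | hv
    · left
      have := keyB2 hi'' (by linarith) (by simp only [cB']; nlinarith) (by simp only [cB']; nlinarith)
        (by simp only [cB']; nlinarith)
      simp only [cB'] at this
      exact hz1 (by linarith [this.1]) (by linarith [this.2])
    · right; right; left
      have hu := keyB hi'' (by linarith) (by simp only [cB']; nlinarith)
      refine ⟨_, ⟨?_, ?_⟩, (eq_cis_down hi' hv).symm⟩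
      · have := Real.arccos_le_arccos hu
        unfold ω; linarith
      · linarith [Real.arccos_nonneg (z.re - cB'.re)]

lemma exP_le : μH[1] (frontier (⋃ i, closedBall (exP i) 1)) ≤
    ENNReal.ofReal (2 * ω + (2 * Real.pi - 2 * θA) + 2 * (Real.pi - δ)) := by
  have hsub : frontier (⋃ i, closedBall (exP i) 1) ⊆
      {1} ∪ (cis cB '' Icc 0 ω ∪ (cis cB' '' Icc (-ω) 0 ∪
        (cis cA '' Icc θA (2 * Real.pi - θA) ∪ cis cD '' Icc (-(Real.pi - δ)) (Real.pi - δ)))) := by
    intro z hz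
    simpa [Set.mem_union] using exP_frontier hz
  have h1 : μH[1] ({1} : Set ℂ) = 0 := by
    have := Measure.nullSingletonClass_hausdorff ℂ (d := 1) (by norm_num)
    exact measure_singleton _
  refine (measure_mono hsub).trans ?_
  refine (measure_union_le _ _).trans ?_
  rw [h1, zero_add]
  refine (measure_union_le _ _).trans ?_
  have a1 := arc_le cB 0 ω
  have a2 := arc_le cB' (-ω) 0
  have a3 := arc_le cA θA (2 * Real.pi - θA)
  have a4 := arc_le cD (-(Real.pi - δ)) (Real.pi - δ)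
  have b2 : μH[1] (cis cB' '' Icc (-ω) 0 ∪
        (cis cA '' Icc θA (2 * Real.pi - θA) ∪ cis cD '' Icc (-(Real.pi - δ)) (Real.pi - δ))) ≤
        ENNReal.ofReal (0 - -ω) + (ENNReal.ofReal (2 * Real.pi - θA - θA) +
          ENNReal.ofReal (Real.pi - δ - -(Real.pi - δ))) :=
    (measure_union_le _ _).trans (add_le_add a2 ((measure_union_le _ _).trans (add_le_add a3 a4)))
  refine (add_le_add a1 b2).trans ?_
  have := ω_mem; have := θA_mem; have := δ_mem
  rw [← ENNReal.ofReal_add (by linarith) (by linarith), ← ENNReal.ofReal_add (by linarith) (by linarith),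
    ← ENNReal.ofReal_add (by linarith) (by linarith)]
  exact ENNReal.ofReal_le_ofReal (by linarith)

/-! Lower bound for `exQ`. -/

/-- strictly exposed points of the circle around `c i` -/
def Exposed {ι : Type*} (c : ι → ℂ) (i : ι) : Set ℂ :=
  {z | dist z (c i) = 1 ∧ ∀ j, c j = c i ∨ 1 < dist z (c j)}

lemma exposed_disjoint {ι : Type*} (c : ι → ℂ) {i j : ι} (h : c i ≠ c j) :
    Disjoint (Exposed c i) (Exposed c j) := by
  rw [Set.disjoint_left]
  rintro z ⟨h1, h2⟩ ⟨h3, h4⟩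
  rcases h4 i with h5 | h5
  · exact h h5
  · linarith

lemma cis_dist (c : ℂ) (θ : ℝ) : dist (cis c θ) c = 1 := by
  rw [dist_eq_one_iff, cis_re, cis_im]
  linarith [Real.cos_sq_add_sin_sq θ, show (c.re + Real.cos θ - c.re) ^ 2 +
    (c.im + Real.sin θ - c.im) ^ 2 = Real.cos θ ^ 2 + Real.sin θ ^ 2 by ring]

lemma one_lt_cis_iff (c d : ℂ) (θ : ℝ) : 1 < dist (cis c θ) d ↔
    1 < (c.re - d.re + Real.cos θ) ^ 2 + (c.im - d.im + Real.sin θ) ^ 2 := by
  rw [one_lt_dist_iff, cis_re, cis_im]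
  constructor <;> intro h <;> ring_nf at h ⊢ <;> exact h

lemma forall_fin5 {P : Fin 5 → Prop} (h0 : P 0) (h1 : P 1) (h2 : P 2) (h3 : P 3) (h4 : P 4) :
    ∀ j, P j := by
  intro j; fin_cases j <;> assumption

lemma exQ_B : cis cB '' Ioo 0 ω ⊆ Exposed exQ 3 := by
  rintro _ ⟨θ, hθ, rfl⟩
  refine ⟨cis_dist cB θ, ?_⟩
  have hs : 0 < Real.sin θ := Real.sin_pos_of_pos_of_lt_pi hθ.1 (by linarith [hθ.2, ω_mem.2])
  have hc : -943/1105 < Real.cos θ := by
    have := Real.cos_lt_cos_of_nonneg_of_le_pi hθ.1.le ω_mem.2 hθ.2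
    rwa [ω, Real.cos_arccos (by norm_num) (by norm_num)] at this
  have h1 := Real.cos_sq_add_sin_sq θ
  have hc1 : Real.cos θ < 1 := by nlinarith
  refine forall_fin5 (Or.inr ?_) (Or.inr ?_) (Or.inr ?_) (Or.inl rfl) (Or.inl rfl)
  · rw [one_lt_cis_iff]
    have := keyB' h1 hs.le hc
    simp only [exQ, cA, cB, Matrix.cons_val_zero]
    nlinarith
  · rw [one_lt_cis_iff]
    simp only [exQ, cO, cB, Matrix.cons_val_one, Matrix.cons_val_zero]
    nlinarith
  · rw [one_lt_cis_iff]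
    simp only [exQ, cD, cB, Matrix.cons_val]
    nlinarith

lemma exQ_A : cis cA '' Ioo θA (2 * Real.pi - γ) ⊆ Exposed exQ 0 := by
  rintro _ ⟨θ, hθ, rfl⟩
  refine ⟨cis_dist cA θ, ?_⟩
  have h1 := Real.cos_sq_add_sin_sq θ
  have key : Real.cos θ < 3/5 ∧ 83 * Real.cos θ + 25 * Real.sin θ < 289/5 := by
    rcases le_or_gt θ Real.pi with hπ | hπ
    · have : Real.cos θ < 36/85 := by
        have := Real.cos_lt_cos_of_nonneg_of_le_pi θA_mem.1 hπ hθ.1
        rwa [θA, Real.cos_arccos (by norm_num) (by norm_num)] at this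
      exact ⟨by linarith, keyA' h1 this⟩
    · have h3 : Real.cos θ < 3/5 := by
        have := Real.cos_lt_cos_of_nonneg_of_le_pi (x := γ) (y := 2 * Real.pi - θ) γ_mem.1
          (by linarith) (by linarith [hθ.2])
        rwa [Real.cos_two_pi_sub, γ, Real.cos_arccos (by norm_num) (by norm_num)] at this
      have h4 : Real.sin θ ≤ 0 := by
        have := Real.sin_nonneg_of_nonneg_of_le_pi (x := 2 * Real.pi - θ)
          (by linarith [hθ.2, γ_mem.1]) (by linarith)
        rw [Real.sin_two_pi_sub] at this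
        linarith
      exact ⟨h3, by linarith⟩
  obtain ⟨k1, k2⟩ := key
  refine forall_fin5 (Or.inl rfl) (Or.inr ?_) (Or.inr ?_) (Or.inr ?_) (Or.inr ?_)
  · rw [one_lt_cis_iff]
    simp only [exQ, cA, cO, Matrix.cons_val_one, Matrix.cons_val_zero]
    nlinarith
  · rw [one_lt_cis_iff]
    simp only [exQ, cA, cD, Matrix.cons_val]
    nlinarith
  · rw [one_lt_cis_iff]
    simp only [exQ, cA, cB, Matrix.cons_val]
    nlinarith
  · rw [one_lt_cis_iff]
    simp only [exQ, cA, cB, Matrix.cons_val]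
    nlinarith

lemma exQ_D : cis cD '' Ioo (-Real.pi) (Real.pi - δ) ⊆ Exposed exQ 2 := by
  rintro _ ⟨θ, hθ, rfl⟩
  refine ⟨cis_dist cD θ, ?_⟩
  have h1 := Real.cos_sq_add_sin_sq θ
  have key : -1 < Real.cos θ ∧ Real.sin θ < 5 * Real.cos θ + 5 := by
    rcases lt_or_ge θ 0 with h0 | h0
    · have hs : Real.sin θ < 0 := Real.sin_neg_of_neg_of_neg_pi_lt h0 hθ.1
      have hc : -1 < Real.cos θ := by nlinarith
      exact ⟨hc, by linarith⟩
    · have hc : -12/13 < Real.cos θ := by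
        have h2 : θ < Real.arccos (-12/13) := by rw [← pi_sub_δ]; exact hθ.2
        have := Real.cos_lt_cos_of_nonneg_of_le_pi h0 (Real.arccos_le_pi _) h2
        rwa [Real.cos_arccos (by norm_num) (by norm_num)] at this
      exact ⟨by linarith, keyD' h1 hc⟩
  obtain ⟨k1, k2⟩ := key
  refine forall_fin5 (Or.inr ?_) (Or.inr ?_) (Or.inl rfl) (Or.inr ?_) (Or.inr ?_)
  · rw [one_lt_cis_iff]
    simp only [exQ, cA, cD, Matrix.cons_val]
    nlinarith
  · rw [one_lt_cis_iff]
    simp only [exQ, cO, cD, Matrix.cons_val]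
    nlinarith
  · rw [one_lt_cis_iff]
    simp only [exQ, cD, cB, Matrix.cons_val]
    nlinarith
  · rw [one_lt_cis_iff]
    simp only [exQ, cD, cB, Matrix.cons_val]
    nlinarith

lemma exQ_O : cis cO '' Ioo (-(Real.pi - γ)) 0 ⊆ Exposed exQ 1 := by
  rintro _ ⟨θ, hθ, rfl⟩
  refine ⟨cis_dist cO θ, ?_⟩
  have h1 := Real.cos_sq_add_sin_sq θ
  have hs : Real.sin θ < 0 := Real.sin_neg_of_neg_of_neg_pi_lt hθ.2 (by linarith [hθ.1, γ_mem.1])
  have hc : -3/5 < Real.cos θ := by
    have h2 : -θ < Real.arccos (-3/5) := by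
      have : Real.arccos (-3/5) = Real.pi - γ := by rw [γ, ← Real.arccos_neg]; norm_num
      rw [this]; linarith [hθ.1]
    have := Real.cos_lt_cos_of_nonneg_of_le_pi (by linarith [hθ.2]) (Real.arccos_le_pi _) h2
    rwa [Real.cos_neg, Real.cos_arccos (by norm_num) (by norm_num)] at this
  have hc1 : Real.cos θ < 1 := by nlinarith
  refine forall_fin5 (Or.inr ?_) (Or.inl rfl) (Or.inr ?_) (Or.inr ?_) (Or.inr ?_)
  · rw [one_lt_cis_iff]
    simp only [exQ, cA, cO, Matrix.cons_val]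
    nlinarith
  · rw [one_lt_cis_iff]
    simp only [exQ, cO, cD, Matrix.cons_val]
    nlinarith
  · rw [one_lt_cis_iff]
    simp only [exQ, cO, cB, Matrix.cons_val]
    nlinarith
  · rw [one_lt_cis_iff]
    simp only [exQ, cO, cB, Matrix.cons_val]
    nlinarith

lemma arc_meas (c : ℂ) (α β : ℝ) (h : β - α ≤ 2 * Real.pi) : MeasurableSet (cis c '' Ioo α β) := by
  refine measurableSet_Ioo.image_of_continuousOn_injOn (continuous_cis c).continuousOn ?_
  intro x hx y hy hxy
  have hx' : x ∈ Ico α (α + 2 * Real.pi) := ⟨hx.1.le, by linarith [hx.2]⟩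
  have hy' : y ∈ Ico α (α + 2 * Real.pi) := ⟨hy.1.le, by linarith [hy.2]⟩
  exact cis_injOn c α hx' hy' hxy

lemma exQ_ge : ENNReal.ofReal (ω + (2 * Real.pi - γ - θA) + (2 * Real.pi - δ) + (Real.pi - γ)) ≤
    μH[1] (frontier (⋃ i, closedBall (exQ i) 1)) := by
  have := ω_mem; have := θA_mem; have := δ_mem; have := γ_mem
  have hsub : cis cB '' Ioo 0 ω ∪ (cis cA '' Ioo θA (2 * Real.pi - γ) ∪
      (cis cD '' Ioo (-Real.pi) (Real.pi - δ) ∪ cis cO '' Ioo (-(Real.pi - γ)) 0)) ⊆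
      frontier (⋃ i, closedBall (exQ i) 1) := by
    have hE : ∀ i, Exposed exQ i ⊆ frontier (⋃ i, closedBall (exQ i) 1) :=
      fun i z hz => mem_frontier_union exQ i hz.1 hz.2
    refine Set.union_subset (exQ_B.trans (hE _)) (Set.union_subset (exQ_A.trans (hE _))
      (Set.union_subset (exQ_D.trans (hE _)) (exQ_O.trans (hE _))))
  refine le_trans ?_ (measure_mono hsub)
  have d01 : exQ 3 ≠ exQ 0 := by simp [exQ, cA, cB, Complex.ext_iff]
  have d02 : exQ 3 ≠ exQ 2 := by simp [exQ, cD, cB, Complex.ext_iff]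
  have d03 : exQ 3 ≠ exQ 1 := by simp [exQ, cO, cB, Complex.ext_iff]
  have d12 : exQ 0 ≠ exQ 2 := by simp [exQ, cD, cA, Complex.ext_iff]; norm_num
  have d13 : exQ 0 ≠ exQ 1 := by simp [exQ, cO, cA, Complex.ext_iff]
  have d23 : exQ 2 ≠ exQ 1 := by simp [exQ, cO, cD, Complex.ext_iff]
  have D1 : Disjoint (cis cB '' Ioo 0 ω) (cis cA '' Ioo θA (2 * Real.pi - γ) ∪
      (cis cD '' Ioo (-Real.pi) (Real.pi - δ) ∪ cis cO '' Ioo (-(Real.pi - γ)) 0)) := by
    rw [Set.disjoint_union_right, Set.disjoint_union_right]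
    exact ⟨(exposed_disjoint exQ d01).mono exQ_B exQ_A, (exposed_disjoint exQ d02).mono exQ_B exQ_D,
      (exposed_disjoint exQ d03).mono exQ_B exQ_O⟩
  have D2 : Disjoint (cis cA '' Ioo θA (2 * Real.pi - γ))
      (cis cD '' Ioo (-Real.pi) (Real.pi - δ) ∪ cis cO '' Ioo (-(Real.pi - γ)) 0) := by
    rw [Set.disjoint_union_right]
    exact ⟨(exposed_disjoint exQ d12).mono exQ_A exQ_D, (exposed_disjoint exQ d13).mono exQ_A exQ_O⟩
  have D3 : Disjoint (cis cD '' Ioo (-Real.pi) (Real.pi - δ)) (cis cO '' Ioo (-(Real.pi - γ)) 0) :=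
    (exposed_disjoint exQ d23).mono exQ_D exQ_O
  have mO := arc_meas cO (-(Real.pi - γ)) 0 (by linarith)
  have mD := arc_meas cD (-Real.pi) (Real.pi - δ) (by linarith)
  have mA := arc_meas cA θA (2 * Real.pi - γ) (by linarith)
  rw [measure_union D1 (mA.union (mD.union mO)), measure_union D2 (mD.union mO), measure_union D3 mO]
  rw [arc_Ioo _ _ _ (by linarith), arc_Ioo _ _ _ (by linarith), arc_Ioo _ _ _ (by linarith),
    arc_Ioo _ _ _ (by linarith)]
  rw [← ENNReal.ofReal_add (by linarith) (by linarith), ← ENNReal.ofReal_add (by linarith) (by linarith),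
    ← ENNReal.ofReal_add (by linarith) (by linarith)]
  exact ENNReal.ofReal_le_ofReal (by linarith)

lemma final_ineq : ω - θA < Real.pi - 2 * γ + δ := by
  have := ω_mem; have := θA_mem; have := δ_mem; have := γ_mem
  by_contra hc
  push Not at hc
  have h1 := Real.cos_le_cos_of_nonneg_of_le_pi (x := Real.pi - 2 * γ + δ) (y := ω - θA)
    (by linarith) (by linarith) hc
  have sω : Real.sin ω = 576/1105 := by
    rw [ω, Real.sin_arccos, Real.sqrt_eq_iff_mul_self_eq_of_pos (by norm_num)]; norm_num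
  have sA : Real.sin θA = 77/85 := by
    rw [θA, Real.sin_arccos, Real.sqrt_eq_iff_mul_self_eq_of_pos (by norm_num)]; norm_num
  have sδ : Real.sin δ = 5/13 := by
    rw [δ, Real.sin_arccos, Real.sqrt_eq_iff_mul_self_eq_of_pos (by norm_num)]; norm_num
  have sγ : Real.sin γ = 4/5 := by
    rw [γ, Real.sin_arccos, Real.sqrt_eq_iff_mul_self_eq_of_pos (by norm_num)]; norm_num
  have cω : Real.cos ω = -943/1105 := by rw [ω, Real.cos_arccos (by norm_num) (by norm_num)]
  have cθ : Real.cos θA = 36/85 := by rw [θA, Real.cos_arccos (by norm_num) (by norm_num)]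
  have cδ : Real.cos δ = 12/13 := by rw [δ, Real.cos_arccos (by norm_num) (by norm_num)]
  have cγ : Real.cos γ = 3/5 := by rw [γ, Real.cos_arccos (by norm_num) (by norm_num)]
  rw [show Real.pi - 2 * γ + δ = Real.pi - (2 * γ - δ) by ring, Real.cos_pi_sub, Real.cos_sub,
    Real.cos_sub, Real.cos_two_mul, Real.sin_two_mul, sω, sA, sδ, sγ, cω, cθ, cδ, cγ] at h1
  norm_num at h1

theorem exP_lt_exQ : μH[1] (frontier (⋃ i, closedBall (exP i) 1)) <
    μH[1] (frontier (⋃ i, closedBall (exQ i) 1)) := by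
  refine lt_of_le_of_lt exP_le (lt_of_lt_of_le ?_ exQ_ge)
  have := ω_mem; have := θA_mem; have := δ_mem; have := γ_mem
  rw [ENNReal.ofReal_lt_ofReal_iff_of_nonneg (by linarith)]
  linarith [final_ineq]

lemma dist_le_of_sq {z w z' w' : ℂ} (h : (z.re - w.re) ^ 2 + (z.im - w.im) ^ 2 ≤
    (z'.re - w'.re) ^ 2 + (z'.im - w'.im) ^ 2) : dist z w ≤ dist z' w' := by
  rw [Complex.dist_eq_re_im, Complex.dist_eq_re_im]
  exact Real.sqrt_le_sqrt h

theorem exPQ_contraction (i j : Fin 5) : dist (exQ i) (exQ j) ≤ dist (exP i) (exP j) := by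
  apply dist_le_of_sq
  fin_cases i <;> fin_cases j <;> simp [exP, exQ, cA, cO, cD, cB, cB'] <;> norm_num

end Pool.Agent.Helper42.Arc
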