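import Mathlib

/-!
From a set of triples to a sequence.
-/

set_option autoImplicit false
set_option linter.unusedSectionVars false
set_option linter.unusedVariables false

namespace Pool.Agent.Helper42

/-- triples without successor -/
def ends (V : Finset (ℕ × ℕ × ℕ)) : Finset (ℕ × ℕ × ℕ) :=
  V.filter (fun x => ∀ z ∈ V, ¬ (z.1 = x.2.1 ∧ z.2.1 = x.2.2))

theorem mem_ends {V : Finset (ℕ × ℕ × ℕ)} {x : ℕ × ℕ × ℕ} :
    x ∈ ends V ↔ x ∈ V ∧ ∀ z ∈ V, ¬ (z.1 = x.2.1 ∧ z.2.1 = x.2.2) := by
  unfold ends; exact Finset.mem_filter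

theorem chains (V : Finset (ℕ × ℕ × ℕ)) :
    (∀ x ∈ V, x.2.1 < x.2.2) → (∀ x ∈ V, 0 < x.1 ∧ 0 < x.2.1 ∧ 0 < x.2.2) →
    (∀ x ∈ V, ∀ y ∈ V, x.1 = y.1 → x.2.1 = y.2.1 → x = y) →
    (∀ x ∈ V, ∀ y ∈ V, x.2.1 = y.2.1 → x.2.2 = y.2.2 → x = y) →
    ∃ L : ℕ × ℕ × ℕ → List ℕ,
      (∀ e ∈ ends V, [e.1, e.2.1, e.2.2] <:+ L e) ∧
      (∀ x ∈ V, ∃ e ∈ ends V, [x.1, x.2.1, x.2.2] <:+: L e) ∧
      (∀ e ∈ ends V, ∀ a ∈ L e, 0 < a) ∧
      ∑ e ∈ ends V, (L e).length = V.card + 2 * (ends V).card := by
  induction V using Finset.induction_on_max_value (fun x : ℕ × ℕ × ℕ => x.2.2) with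
  | empty =>
    intro _ _ _ _
    refine ⟨fun _ => [], ?_, ?_, ?_, ?_⟩
    · intro e he; simp [ends] at he
    · intro x hx; simp at hx
    · intro e he; simp [ends] at he
    · simp [ends]
  | insert x V hxV hmax ih =>
    intro hlt hpos hα hβ
    have hVsub : ∀ z ∈ V, z ∈ insert x V := fun z hz => Finset.mem_insert_of_mem hz
    have hxin : x ∈ insert x V := Finset.mem_insert_self _ _
    obtain ⟨L, hL1, hL2, hL3, hL4⟩ := ih (fun z hz => hlt z (hVsub z hz))
      (fun z hz => hpos z (hVsub z hz))
      (fun z hz y hy => hα z (hVsub z hz) y (hVsub y hy))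
      (fun z hz y hy => hβ z (hVsub z hz) y (hVsub y hy))
    have hmax' : ∀ z ∈ insert x V, z.2.2 ≤ x.2.2 := by
      intro z hz
      rw [Finset.mem_insert] at hz
      rcases hz with rfl | hz
      · exact le_refl _
      · exact hmax z hz
    have hxend : x ∈ ends (insert x V) := by
      rw [mem_ends]
      refine ⟨hxin, ?_⟩
      rintro z hz ⟨h1, h2⟩
      have h3 := hlt z hz
      have h4 := hmax' z hz
      omega
    have hxnotin : x ∉ ends V := fun h => hxV (mem_ends.mp h).1
    by_cases hy : ∃ y ∈ V, x.1 = y.2.1 ∧ x.2.1 = y.2.2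
    · obtain ⟨y, hyV, hy1, hy2⟩ := hy
      have hyx : y ≠ x := fun h => hxV (h ▸ hyV)
      have hyend : y ∈ ends V := by
        rw [mem_ends]
        refine ⟨hyV, ?_⟩
        rintro z hz ⟨h1, h2⟩
        have := hα z (hVsub z hz) x hxin (h1.trans hy1.symm) (h2.trans hy2.symm)
        exact hxV (this ▸ hz)
      have hends : ends (insert x V) = insert x ((ends V).erase y) := by
        ext e
        rw [mem_ends, Finset.mem_insert, Finset.mem_insert, Finset.mem_erase, mem_ends]
        constructor
        · rintro ⟨h1, h2⟩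
          rcases h1 with rfl | h1
          · left; rfl
          · right
            refine ⟨?_, h1, fun z hz => h2 z (hVsub z hz)⟩
            rintro rfl
            exact h2 x hxin ⟨hy1, hy2⟩
        · rintro (rfl | ⟨h1, h2, h3⟩)
          · exact ⟨Or.inl rfl, (mem_ends.mp hxend).2⟩
          · refine ⟨Or.inr h2, ?_⟩
            intro z hz
            rw [Finset.mem_insert] at hz
            rcases hz with rfl | hz
            · rintro ⟨h4, h5⟩
              apply h1
              exact hβ e (hVsub e h2) y (hVsub y hyV) (h4.symm.trans hy1) (h5.symm.trans hy2)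
            · exact h3 z hz
      have hxnotin' : x ∉ (ends V).erase y := fun h => hxnotin (Finset.mem_of_mem_erase h)
      refine ⟨Function.update L x (L y ++ [x.2.2]), ?_, ?_, ?_, ?_⟩
      · intro e he
        rw [hends, Finset.mem_insert] at he
        rcases he with rfl | he
        · rw [Function.update_self]
          obtain ⟨t, ht⟩ := hL1 y hyend
          refine ⟨t ++ [y.1], ?_⟩
          rw [← ht, hy1, hy2]
          simp
        · have hne : e ≠ x := fun h => hxnotin' (h ▸ he)
          rw [Function.update_of_ne hne]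
          exact hL1 e (Finset.mem_of_mem_erase he)
      · intro z hz
        rw [Finset.mem_insert] at hz
        rcases hz with rfl | hz
        · refine ⟨z, hxend, ?_⟩
          rw [Function.update_self]
          obtain ⟨t, ht⟩ := hL1 y hyend
          refine ⟨t ++ [y.1], [], ?_⟩
          rw [← ht, hy1, hy2]
          simp
        · obtain ⟨e, he, hez⟩ := hL2 z hz
          by_cases hey : e = y
          · subst hey
            refine ⟨x, hxend, ?_⟩
            rw [Function.update_self]
            exact hez.trans (List.prefix_append _ _).isInfix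
          · refine ⟨e, ?_, ?_⟩
            · rw [hends]
              exact Finset.mem_insert_of_mem (Finset.mem_erase.mpr ⟨hey, he⟩)
            · have hne : e ≠ x := fun h => hxnotin (h ▸ he)
              rw [Function.update_of_ne hne]
              exact hez
      · intro e he a ha
        rw [hends, Finset.mem_insert] at he
        rcases he with rfl | he
        · rw [Function.update_self, List.mem_append, List.mem_singleton] at ha
          rcases ha with ha | rfl
          · exact hL3 y hyend a ha
          · exact (hpos e hxin).2.2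
        · have hne : e ≠ x := fun h => hxnotin' (h ▸ he)
          rw [Function.update_of_ne hne] at ha
          exact hL3 e (Finset.mem_of_mem_erase he) a ha
      · rw [hends, Finset.sum_insert hxnotin', Finset.card_insert_of_notMem hxnotin',
          Finset.card_insert_of_notMem hxV, Function.update_self]
        have h1 : ∑ e ∈ (ends V).erase y, (Function.update L x (L y ++ [x.2.2]) e).length
            = ∑ e ∈ (ends V).erase y, (L e).length := by
          apply Finset.sum_congr rfl
          intro e he
          have hne : e ≠ x := fun h => hxnotin' (h ▸ he)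
          rw [Function.update_of_ne hne]
        rw [h1]
        have h2 := Finset.add_sum_erase (ends V) (fun e => (L e).length) hyend
        have h3 := Finset.card_erase_add_one hyend
        simp only [List.length_append, List.length_singleton]
        omega
    · have hends : ends (insert x V) = insert x (ends V) := by
        ext e
        rw [mem_ends, Finset.mem_insert, Finset.mem_insert, mem_ends]
        constructor
        · rintro ⟨h1, h2⟩
          rcases h1 with rfl | h1
          · left; rfl
          · right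
            exact ⟨h1, fun z hz => h2 z (hVsub z hz)⟩
        · rintro (rfl | ⟨h2, h3⟩)
          · exact ⟨Or.inl rfl, (mem_ends.mp hxend).2⟩
          · refine ⟨Or.inr h2, ?_⟩
            intro z hz
            rw [Finset.mem_insert] at hz
            rcases hz with rfl | hz
            · rintro ⟨h4, h5⟩
              exact hy ⟨e, h2, h4, h5⟩
            · exact h3 z hz
      refine ⟨Function.update L x [x.1, x.2.1, x.2.2], ?_, ?_, ?_, ?_⟩
      · intro e he
        rw [hends, Finset.mem_insert] at he
        rcases he with rfl | he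
        · rw [Function.update_self]
        · have hne : e ≠ x := fun h => hxnotin (h ▸ he)
          rw [Function.update_of_ne hne]
          exact hL1 e he
      · intro z hz
        rw [Finset.mem_insert] at hz
        rcases hz with rfl | hz
        · refine ⟨z, hxend, ?_⟩
          rw [Function.update_self]
        · obtain ⟨e, he, hez⟩ := hL2 z hz
          refine ⟨e, ?_, ?_⟩
          · rw [hends]
            exact Finset.mem_insert_of_mem he
          · have hne : e ≠ x := fun h => hxnotin (h ▸ he)
            rw [Function.update_of_ne hne]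
            exact hez
      · intro e he a ha
        rw [hends, Finset.mem_insert] at he
        rcases he with rfl | he
        · rw [Function.update_self] at ha
          have h1 := hpos e hxin
          simp only [List.mem_cons, List.not_mem_nil, or_false] at ha
          rcases ha with rfl | rfl | rfl
          · exact h1.1
          · exact h1.2.1
          · exact h1.2.2
        · have hne : e ≠ x := fun h => hxnotin (h ▸ he)
          rw [Function.update_of_ne hne] at ha
          exact hL3 e he a ha
      · rw [hends, Finset.sum_insert hxnotin, Finset.card_insert_of_notMem hxnotin,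
          Finset.card_insert_of_notMem hxV, Function.update_self]
        have h1 : ∑ e ∈ ends V, (Function.update L x [x.1, x.2.1, x.2.2] e).length
            = ∑ e ∈ ends V, (L e).length := by
          apply Finset.sum_congr rfl
          intro e he
          have hne : e ≠ x := fun h => hxnotin (h ▸ he)
          rw [Function.update_of_ne hne]
        rw [h1]
        simp only [List.length_cons, List.length_nil]
        omega

/-- a set of triples gives a sequence containing all of them as consecutive triples -/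
theorem exists_list (V : Finset (ℕ × ℕ × ℕ))
    (hlt : ∀ x ∈ V, x.2.1 < x.2.2) (hpos : ∀ x ∈ V, 0 < x.1 ∧ 0 < x.2.1 ∧ 0 < x.2.2)
    (hα : ∀ x ∈ V, ∀ y ∈ V, x.1 = y.1 → x.2.1 = y.2.1 → x = y)
    (hβ : ∀ x ∈ V, ∀ y ∈ V, x.2.1 = y.2.1 → x.2.2 = y.2.2 → x = y) :
    ∃ l : List ℕ, (∀ a ∈ l, 0 < a) ∧ (∀ x ∈ V, [x.1, x.2.1, x.2.2] <:+: l) ∧
      l.length = V.card + 2 * (ends V).card := by
  obtain ⟨L, hL1, hL2, hL3, hL4⟩ := chains V hlt hpos hα hβ
  refine ⟨(ends V).toList.flatMap L, ?_, ?_, ?_⟩
  · intro a ha
    rw [List.mem_flatMap] at ha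
    obtain ⟨e, he, ha⟩ := ha
    rw [Finset.mem_toList] at he
    exact hL3 e he a ha
  · intro x hx
    obtain ⟨e, he, hex⟩ := hL2 x hx
    refine hex.trans ?_
    rw [List.flatMap_def]
    exact List.infix_of_mem_flatten (List.mem_map_of_mem (Finset.mem_toList.mpr he))
  · rw [List.length_flatMap, ← hL4]
    exact Finset.sum_map_toList (ends V) (fun e => (L e).length)

/-- the counting statement for sequences, from a set of triples -/
theorem exists_seq (V : Finset (ℕ × ℕ × ℕ)) (hne : V.Nonempty)
    (hlt : ∀ x ∈ V, x.2.1 < x.2.2) (hpos : ∀ x ∈ V, 0 < x.1 ∧ 0 < x.2.1 ∧ 0 < x.2.2)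
    (hα : ∀ x ∈ V, ∀ y ∈ V, x.1 = y.1 → x.2.1 = y.2.1 → x = y)
    (hβ : ∀ x ∈ V, ∀ y ∈ V, x.2.1 = y.2.1 → x.2.2 = y.2.2 → x = y)
    (W : Finset (ℕ × ℕ)) (hW : ∀ w ∈ W, (∃ x ∈ V, (x.1, x.2.1) = w) ∧
      (∃ x ∈ V, (x.1 + x.2.1, x.2.2) = w) ∧ (∃ x ∈ V, (x.1, x.2.1 + x.2.2) = w)) :
    ∃ n : ℕ, 1 ≤ n ∧ n = V.card + 2 * (ends V).card ∧ ∃ a : ℕ → ℕ,
        (∀ i ∈ Finset.Icc 1 n, 0 < a i) ∧
        W ⊆
          ((((Finset.Icc 1 (n - 1)).image (fun i => (a i, a (i + 1)))) ∩
              ((Finset.Icc 1 (n - 2)).image (fun j => (a j + a (j + 1), a (j + 2))))) ∩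
              ((Finset.Icc 1 (n - 2)).image (fun k => (a k, a (k + 1) + a (k + 2))))) := by
  obtain ⟨l, hl1, hl2, hl3⟩ := exists_list V hlt hpos hα hβ
  have hcard : 0 < V.card := Finset.card_pos.mpr hne
  refine ⟨l.length, by omega, hl3, fun i => l.getD (i - 1) 0, ?_, ?_⟩
  · intro i hi
    rw [Finset.mem_Icc] at hi
    have h1 : i - 1 < l.length := by omega
    simp only
    rw [List.getD_eq_getElem _ _ h1]
    exact hl1 _ (List.getElem_mem h1)
  · have key : ∀ x ∈ V, ∃ j, j + 3 ≤ l.length ∧ l.getD j 0 = x.1 ∧ l.getD (j + 1) 0 = x.2.1 ∧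
        l.getD (j + 2) 0 = x.2.2 := by
      intro x hx
      obtain ⟨s, t, hst⟩ := hl2 x hx
      refine ⟨s.length, ?_, ?_, ?_, ?_⟩
      · rw [← hst]; simp
      · rw [← hst]; simp [List.getD_append_right, List.getD_append]
      · rw [← hst]; simp [List.getD_append_right, List.getD_append]
      · rw [← hst]; simp [List.getD_append_right, List.getD_append]
    intro w hw
    obtain ⟨⟨x, hx, hxw⟩, ⟨y, hy, hyw⟩, ⟨z, hz, hzw⟩⟩ := hW w hw
    rw [Finset.mem_inter, Finset.mem_inter, Finset.mem_image, Finset.mem_image, Finset.mem_image]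
    refine ⟨⟨?_, ?_⟩, ?_⟩
    · obtain ⟨j, hj, h1, h2, h3⟩ := key x hx
      refine ⟨j + 1, Finset.mem_Icc.mpr ⟨by omega, by omega⟩, ?_⟩
      rw [← hxw, ← h1, ← h2]
      simp
    · obtain ⟨j, hj, h1, h2, h3⟩ := key y hy
      refine ⟨j + 1, Finset.mem_Icc.mpr ⟨by omega, by omega⟩, ?_⟩
      rw [← hyw, ← h1, ← h2, ← h3]
      simp
    · obtain ⟨j, hj, h1, h2, h3⟩ := key z hz
      refine ⟨j + 1, Finset.mem_Icc.mpr ⟨by omega, by omega⟩, ?_⟩
      rw [← hzw, ← h1, ← h2, ← h3]
      simp

end Pool.Agent.Helper42
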