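import Pool.Agent.Helper42.Levels3
import Pool.Agent.Helper42.Chains

/-!
Assembly of the proof.
-/

set_option autoImplicit false
set_option linter.unusedSectionVars false
set_option linter.unusedVariables false

namespace Pool.Agent.Helper42

theorem inj_of_matching {Mt : Finset (ℕ × ℕ × ℕ)}
    (h2 : ∀ e ∈ Mt, ∀ f ∈ Mt, e ≠ f → Disjoint (incT e) (incT f)) (i : Fin 4) :
    ∀ e ∈ Mt, ∀ f ∈ Mt, pr i e = pr i f → e = f := by
  intro e he f hf hef
  by_contra hne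
  have h3 := h2 e he f hf hne
  rw [Finset.disjoint_left] at h3
  exact h3 (mem_incT.mpr rfl) (mem_incT.mpr hef.symm)

theorem uncovered {a b c : ℕ} {S : Finset (ℕ × ℕ)} {Mt : Finset (ℕ × ℕ × ℕ)} {c' R : ℝ}
    (hc' : 0 ≤ c')
    (h1 : Mt ⊆ ES a b c S)
    (h2 : ∀ e ∈ Mt, ∀ f ∈ Mt, e ≠ f → Disjoint (incT e) (incT f))
    (h3 : ((XS a b c S).card : ℝ) - 4 * Mt.card ≤ c' * (XS a b c S).card)
    (h4 : ∀ i, (((reg a b c i).filter (fun w => w ∈ S)).card : ℝ) ≤ R) (i : Fin 4) :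
    ((((reg a b c i).filter (fun w => w ∈ S)) \ Mt.image (pr i)).card : ℝ) ≤ 4 * c' * R ∧
    Mt.image (pr i) ⊆ (reg a b c i).filter (fun w => w ∈ S) ∧
    (Mt.image (pr i)).card = Mt.card := by
  have hsub : ∀ j, Mt.image (pr j) ⊆ (reg a b c j).filter (fun w => w ∈ S) := by
    intro j w hw
    rw [Finset.mem_image] at hw
    obtain ⟨x, hx, rfl⟩ := hw
    have h5 := h1 hx
    unfold ES at h5
    rw [Finset.mem_filter] at h5
    rw [Finset.mem_filter]
    exact ⟨pr_mem_reg h5.1 j, h5.2 j⟩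
  have hcard : ∀ j, (Mt.image (pr j)).card = Mt.card := by
    intro j
    apply Finset.card_image_of_injOn
    intro x hx y hy hxy
    exact inj_of_matching h2 j x hx y hy hxy
  refine ⟨?_, hsub i, hcard i⟩
  have h6 : ∀ j, ((((reg a b c j).filter (fun w => w ∈ S)) \ Mt.image (pr j)).card : ℝ)
      = (((reg a b c j).filter (fun w => w ∈ S)).card : ℝ) - Mt.card := by
    intro j
    rw [Finset.card_sdiff_of_subset (hsub j), Nat.cast_sub (Finset.card_le_card (hsub j)), hcard j]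
  have h7 : ∑ j : Fin 4, ((((reg a b c j).filter (fun w => w ∈ S)) \ Mt.image (pr j)).card : ℝ)
      = ((XS a b c S).card : ℝ) - 4 * Mt.card := by
    rw [Finset.sum_congr rfl (fun j _ => h6 j), Finset.sum_sub_distrib, card_XS]
    simp
  have h8 : ((XS a b c S).card : ℝ) ≤ 4 * R := by
    rw [card_XS]
    calc _ ≤ ∑ i : Fin 4, R := Finset.sum_le_sum (fun i _ => h4 i)
      _ = 4 * R := by simp
  calc ((((reg a b c i).filter (fun w => w ∈ S)) \ Mt.image (pr i)).card : ℝ)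
      ≤ ∑ j : Fin 4, ((((reg a b c j).filter (fun w => w ∈ S)) \ Mt.image (pr j)).card : ℝ) :=
        Finset.single_le_sum
          (f := fun j => ((((reg a b c j).filter (fun w => w ∈ S)) \ Mt.image (pr j)).card : ℝ))
          (fun j _ => Nat.cast_nonneg _) (Finset.mem_univ i)
    _ = ((XS a b c S).card : ℝ) - 4 * Mt.card := h7
    _ ≤ c' * (XS a b c S).card := h3
    _ ≤ c' * (4 * R) := mul_le_mul_of_nonneg_left h8 hc'
    _ = 4 * c' * R := by ring

/-- the level triples -/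
def tr (b : ℕ × ℕ) : ℕ × ℕ × ℕ := (b.1, b.1 + 2 ^ b.2, b.1 + 2 * 2 ^ b.2)

theorem tr_inj {b b' : ℕ × ℕ} (h1 : b.1 = b'.1) (h2 : b.1 + 2 ^ b.2 = b'.1 + 2 ^ b'.2) : b = b' := by
  obtain ⟨y, a⟩ := b
  obtain ⟨y', a'⟩ := b'
  simp only at h1 h2
  subst h1
  have : 2 ^ a = 2 ^ a' := by omega
  rw [Nat.pow_right_injective (le_refl 2) this]

theorem main_small {ε : ℝ} (hε : 0 < ε) (hε1 : ε ≤ 1) :
      ∃ n : ℕ, 1 ≤ n ∧ ∃ a : ℕ → ℕ,
        (∀ i ∈ Finset.Icc 1 n, 0 < a i) ∧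
        (1 - ε) * (n : ℝ) ≤
          (((((Finset.Icc 1 (n - 1)).image (fun i => (a i, a (i + 1)))) ∩
              ((Finset.Icc 1 (n - 2)).image (fun j => (a j + a (j + 1), a (j + 2))))) ∩
              ((Finset.Icc 1 (n - 2)).image (fun k => (a k, a (k + 1) + a (k + 2))))).card : ℝ) := by
  -- parameters
  obtain ⟨A0, hA0⟩ := exists_nat_ge (100 / ε)
  set A : ℕ := A0 + 2 with hA
  have hA2 : 2 ≤ A := by omega
  have hAr : 100 / ε ≤ A := hA0.trans (by rw [hA]; push_cast; linarith)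
  set Y : ℕ := A * 2 ^ A with hY
  set c : ℝ := ε / 200 with hc
  have hc0 : 0 < c := by positivity
  set I : Finset (ℕ × ℕ) := Finset.range Y ×ˢ Finset.range A with hI
  obtain ⟨K, C, hK, hC, S, M, hM⟩ := exists_pairs (c := c) (η := c) hc0 hc0 (by rw [hc]; linarith)
    (I.image tr) (by
      intro t ht
      rw [Finset.mem_image] at ht
      obtain ⟨b, _, rfl⟩ := ht
      have : 0 < 2 ^ b.2 := by positivity
      simp only [tr]
      omega)
  set N : ℝ := (C : ℝ) ^ 2 with hN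
  have hNpos : 0 < N := by
    have : (0:ℝ) < C := by exact_mod_cast hC
    positivity
  -- notation
  set lv : ℕ → ℕ := fun y => C * K ^ y with hlv
  have hlvpos : ∀ y, 0 < lv y := by
    intro y
    simp only [hlv]
    positivity
  have hMb : ∀ b ∈ I, (∀ i, |(((reg (lv b.1) (lv (b.1 + 2 ^ b.2)) (lv (b.1 + 2 * 2 ^ b.2)) i).filter
          (fun w => w ∈ S)).card : ℝ) - N| ≤ c * N) ∧
        M (tr b) ⊆ ES (lv b.1) (lv (b.1 + 2 ^ b.2)) (lv (b.1 + 2 * 2 ^ b.2)) S ∧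
        (∀ e ∈ M (tr b), ∀ f ∈ M (tr b), e ≠ f → Disjoint (incT e) (incT f)) ∧
        ((XS (lv b.1) (lv (b.1 + 2 ^ b.2)) (lv (b.1 + 2 * 2 ^ b.2)) S).card : ℝ) - 4 * (M (tr b)).card
          ≤ c * (XS (lv b.1) (lv (b.1 + 2 ^ b.2)) (lv (b.1 + 2 * 2 ^ b.2)) S).card := by
    intro b hb
    exact hM (tr b) (Finset.mem_image_of_mem tr hb)
  -- regions with S
  set RS : ℕ → ℕ → Finset (ℕ × ℕ) := fun y z => (Ib (lv y) ×ˢ Ib (lv z)).filter (fun w => w ∈ S)
    with hRS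
  have hregRS : ∀ b : ℕ × ℕ, ∀ i, (reg (lv b.1) (lv (b.1 + 2 ^ b.2)) (lv (b.1 + 2 * 2 ^ b.2)) i).filter
      (fun w => w ∈ S) = match i with
        | 0 => RS b.1 (b.1 + 2 ^ b.2)
        | 1 => RS (b.1 + 2 ^ b.2) (b.1 + 2 * 2 ^ b.2)
        | 2 => RS (b.1 + 2 ^ b.2) (b.1 + 2 * 2 ^ b.2)
        | 3 => RS b.1 (b.1 + 2 * 2 ^ b.2) := by
    intro b i
    fin_cases i <;> rfl
  have hreg_le : ∀ b ∈ I, ∀ i, (((reg (lv b.1) (lv (b.1 + 2 ^ b.2)) (lv (b.1 + 2 * 2 ^ b.2)) i).filter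
          (fun w => w ∈ S)).card : ℝ) ≤ (1 + c) * N := by
    intro b hb i
    have h1 := (abs_le.mp ((hMb b hb).1 i)).2
    linarith
  have hreg_ge : ∀ b ∈ I, (1 - c) * N ≤ ((RS b.1 (b.1 + 2 ^ b.2)).card : ℝ) := by
    intro b hb
    have h1 := (abs_le.mp ((hMb b hb).1 0)).1
    have h2 := hregRS b 0
    simp only at h2
    rw [h2] at h1
    linarith
  have hunc : ∀ b ∈ I, ∀ i,
      ((((reg (lv b.1) (lv (b.1 + 2 ^ b.2)) (lv (b.1 + 2 * 2 ^ b.2)) i).filter (fun w => w ∈ S))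
        \ (M (tr b)).image (pr i)).card : ℝ) ≤ 8 * c * N ∧
      (M (tr b)).image (pr i) ⊆
        (reg (lv b.1) (lv (b.1 + 2 ^ b.2)) (lv (b.1 + 2 * 2 ^ b.2)) i).filter (fun w => w ∈ S) ∧
      ((M (tr b)).image (pr i)).card = (M (tr b)).card := by
    intro b hb i
    obtain ⟨h1, h2, h3, h4⟩ := hMb b hb
    obtain ⟨h5, h6, h7⟩ := uncovered hc0.le h2 h3 h4 (hreg_le b hb) i
    refine ⟨h5.trans ?_, h6, h7⟩
    have h8 : (1 + c) * N ≤ 2 * N := mul_le_mul_of_nonneg_right (by rw [hc]; linarith) hNpos.le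
    calc 4 * c * ((1 + c) * N) ≤ 4 * c * (2 * N) := mul_le_mul_of_nonneg_left h8 (by positivity)
      _ = 8 * c * N := by ring
  have hMcard : ∀ b ∈ I, ((M (tr b)).card : ℝ) ≤ (1 + c) * N := by
    intro b hb
    obtain ⟨_, h6, h7⟩ := hunc b hb 0
    rw [← h7]
    exact le_trans (by exact_mod_cast Finset.card_le_card h6) (hreg_le b hb 0)
  -- membership facts
  have hmemM : ∀ b ∈ I, ∀ x ∈ M (tr b), (x.1 ∈ Ib (lv b.1) ∧ x.2.1 ∈ Ib (lv (b.1 + 2 ^ b.2)) ∧
      x.2.2 ∈ Ib (lv (b.1 + 2 * 2 ^ b.2))) ∧ ∀ i, pr i x ∈ S := by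
    intro b hb x hx
    have h1 := (hMb b hb).2.1 hx
    unfold ES at h1
    rw [Finset.mem_filter, mem_VV] at h1
    rw [mem_Ib, mem_Ib, mem_Ib]
    exact ⟨h1.1.1, h1.2⟩
  have hlev : ∀ y y' u, u ∈ Ib (lv y) → u ∈ Ib (lv y') → y = y' := by
    intro y y' u h1 h2
    exact Ib_level_unique hK hC h1 h2
  have hlv_mono : ∀ y z, y < z → 2 * lv y ≤ lv z := by
    intro y z hyz
    simp only [hlv]
    calc 2 * (C * K ^ y) ≤ K * (C * K ^ y) := Nat.mul_le_mul_right _ hK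
      _ = C * K ^ (y + 1) := by ring
      _ ≤ C * K ^ z := Nat.mul_le_mul_left _ (Nat.pow_le_pow_right (by omega) hyz)
  -- the set of triples
  set V : Finset (ℕ × ℕ × ℕ) := I.biUnion (fun b => M (tr b)) with hV
  have hVlt : ∀ x ∈ V, x.2.1 < x.2.2 := by
    intro x hx
    rw [hV, Finset.mem_biUnion] at hx
    obtain ⟨b, hb, hx⟩ := hx
    obtain ⟨⟨h1, h2, h3⟩, h4⟩ := hmemM b hb x hx
    rw [mem_Ib] at h2 h3
    have h5 := hlv_mono (b.1 + 2 ^ b.2) (b.1 + 2 * 2 ^ b.2) (by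
      have : 0 < 2 ^ b.2 := by positivity
      omega)
    omega
  have hVpos : ∀ x ∈ V, 0 < x.1 ∧ 0 < x.2.1 ∧ 0 < x.2.2 := by
    intro x hx
    rw [hV, Finset.mem_biUnion] at hx
    obtain ⟨b, hb, hx⟩ := hx
    obtain ⟨⟨h1, h2, h3⟩, h4⟩ := hmemM b hb x hx
    rw [mem_Ib] at h1 h2 h3
    have := hlvpos b.1
    have := hlvpos (b.1 + 2 ^ b.2)
    have := hlvpos (b.1 + 2 * 2 ^ b.2)
    omega
  have hVα : ∀ x ∈ V, ∀ y ∈ V, x.1 = y.1 → x.2.1 = y.2.1 → x = y := by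
    intro x hx y hy h1 h2
    rw [hV, Finset.mem_biUnion] at hx hy
    obtain ⟨b, hb, hx⟩ := hx
    obtain ⟨b', hb', hy⟩ := hy
    obtain ⟨⟨h3, h4, h5⟩, h6⟩ := hmemM b hb x hx
    obtain ⟨⟨h7, h8, h9⟩, h10⟩ := hmemM b' hb' y hy
    rw [← h1] at h7
    rw [← h2] at h8
    have h11 := hlev _ _ _ h3 h7
    have h12 := hlev _ _ _ h4 h8
    have h13 := tr_inj h11 h12
    subst h13
    apply inj_of_matching (hMb b hb).2.2.1 0 x hx y hy
    simp only [pr, h1, h2]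
  have hVβ : ∀ x ∈ V, ∀ y ∈ V, x.2.1 = y.2.1 → x.2.2 = y.2.2 → x = y := by
    intro x hx y hy h1 h2
    rw [hV, Finset.mem_biUnion] at hx hy
    obtain ⟨b, hb, hx⟩ := hx
    obtain ⟨b', hb', hy⟩ := hy
    obtain ⟨⟨h3, h4, h5⟩, h6⟩ := hmemM b hb x hx
    obtain ⟨⟨h7, h8, h9⟩, h10⟩ := hmemM b' hb' y hy
    rw [← h1] at h8
    rw [← h2] at h9
    have h11 := hlev _ _ _ h4 h8
    have h12 := hlev _ _ _ h5 h9
    have h13 := tr_inj (b := b) (b' := b') (by omega) (by omega)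
    subst h13
    apply inj_of_matching (hMb b hb).2.2.1 1 x hx y hy
    simp only [pr, h1, h2]
  -- the covered pairs
  set G : Finset (ℕ × ℕ) := Finset.Ico (2 ^ A) Y ×ˢ Finset.Ico 1 A with hG
  have hGI : ∀ b ∈ G, b ∈ I ∧ (b.1 - 2 ^ b.2, b.2) ∈ I ∧ (b.1, b.2 - 1) ∈ I ∧ 2 ^ b.2 ≤ b.1 ∧ 1 ≤ b.2 := by
    intro b hb
    rw [hG, Finset.mem_product, Finset.mem_Ico, Finset.mem_Ico] at hb
    obtain ⟨⟨h1, h2⟩, h3, h4⟩ := hb
    have h5 : 2 ^ b.2 ≤ 2 ^ A := Nat.pow_le_pow_right (by norm_num) h4.le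
    have h6 : 0 < 2 ^ b.2 := by positivity
    simp only [hI, Finset.mem_product, Finset.mem_range]
    refine ⟨⟨h2, h4⟩, ⟨by omega, h4⟩, ⟨h2, by omega⟩, by omega, h3⟩
  set Wb : ℕ × ℕ → Finset (ℕ × ℕ) := fun b =>
    (RS b.1 (b.1 + 2 ^ b.2)).filter (fun w => w ∈ (M (tr b)).image (pr 0) ∧
      w ∈ (M (tr (b.1 - 2 ^ b.2, b.2))).image (pr 2) ∧ w ∈ (M (tr (b.1, b.2 - 1))).image (pr 3))
    with hWb
  have hWbcard : ∀ b ∈ G, (1 - 25 * c) * N ≤ ((Wb b).card : ℝ) := by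
    intro b hb
    obtain ⟨h1, h2, h3, h4, h5⟩ := hGI b hb
    have e0 := (hunc b h1 0).1
    have e2 := (hunc _ h2 2).1
    have e3 := (hunc _ h3 3).1
    have r0 := hregRS b 0
    have r2 := hregRS (b.1 - 2 ^ b.2, b.2) 2
    have r3 := hregRS (b.1, b.2 - 1) 3
    simp only at r0 r2 r3
    have l1 : b.1 - 2 ^ b.2 + 2 ^ b.2 = b.1 := by omega
    have l2 : b.1 - 2 ^ b.2 + 2 * 2 ^ b.2 = b.1 + 2 ^ b.2 := by omega
    have l3 : b.1 + 2 * 2 ^ (b.2 - 1) = b.1 + 2 ^ b.2 := by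
      have : 2 * 2 ^ (b.2 - 1) = 2 ^ b.2 := by
        rw [← pow_succ']
        congr 1
        omega
      omega
    rw [r0] at e0
    simp only at e2 e3
    rw [r2, l1, l2] at e2
    rw [r3, l3] at e3
    have hsub : RS b.1 (b.1 + 2 ^ b.2) ⊆ Wb b ∪
        ((RS b.1 (b.1 + 2 ^ b.2) \ (M (tr b)).image (pr 0)) ∪
        ((RS b.1 (b.1 + 2 ^ b.2) \ (M (tr (b.1 - 2 ^ b.2, b.2))).image (pr 2)) ∪
        (RS b.1 (b.1 + 2 ^ b.2) \ (M (tr (b.1, b.2 - 1))).image (pr 3)))) := by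
      intro w hw
      simp only [hWb, Finset.mem_union, Finset.mem_sdiff, Finset.mem_filter]
      tauto
    have hcard := (Finset.card_le_card hsub).trans ((Finset.card_union_le _ _).trans
      (Nat.add_le_add_left ((Finset.card_union_le _ _).trans
        (Nat.add_le_add_left (Finset.card_union_le _ _) _)) _))
    have hcard' : ((RS b.1 (b.1 + 2 ^ b.2)).card : ℝ) ≤ (Wb b).card +
        (((RS b.1 (b.1 + 2 ^ b.2) \ (M (tr b)).image (pr 0)).card : ℝ) +
        (((RS b.1 (b.1 + 2 ^ b.2) \ (M (tr (b.1 - 2 ^ b.2, b.2))).image (pr 2)).card : ℝ) +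
        ((RS b.1 (b.1 + 2 ^ b.2) \ (M (tr (b.1, b.2 - 1))).image (pr 3)).card : ℝ))) := by
      exact_mod_cast hcard
    have h6 := hreg_ge b h1
    linarith
  set W : Finset (ℕ × ℕ) := G.biUnion Wb with hW
  have hWcard : (G.card : ℝ) * ((1 - 25 * c) * N) ≤ W.card := by
    have h1 : W.card = ∑ b ∈ G, (Wb b).card := by
      rw [hW]
      apply Finset.card_biUnion
      intro b hb b' hb' hbb
      show Disjoint _ _
      rw [Finset.disjoint_left]
      intro w hw hw'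
      apply hbb
      simp only [hWb, hRS, Finset.mem_filter, Finset.mem_product] at hw hw'
      exact tr_inj (hlev _ _ _ hw.1.1.1 hw'.1.1.1) (hlev _ _ _ hw.1.1.2 hw'.1.1.2)
    rw [h1]
    push_cast
    calc (G.card : ℝ) * ((1 - 25 * c) * N) = ∑ b ∈ G, (1 - 25 * c) * N := by
          rw [Finset.sum_const, nsmul_eq_mul]
      _ ≤ _ := Finset.sum_le_sum (fun b hb => hWbcard b hb)
  have hWprop : ∀ w ∈ W, (∃ x ∈ V, (x.1, x.2.1) = w) ∧
      (∃ x ∈ V, (x.1 + x.2.1, x.2.2) = w) ∧ (∃ x ∈ V, (x.1, x.2.1 + x.2.2) = w) := by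
    intro w hw
    rw [hW, Finset.mem_biUnion] at hw
    obtain ⟨b, hb, hw⟩ := hw
    obtain ⟨h1, h2, h3, h4, h5⟩ := hGI b hb
    simp only [hWb, Finset.mem_filter, Finset.mem_image] at hw
    obtain ⟨_, ⟨x, hx, hxw⟩, ⟨y, hy, hyw⟩, ⟨z, hz, hzw⟩⟩ := hw
    refine ⟨⟨x, ?_, hxw⟩, ⟨y, ?_, hyw⟩, ⟨z, ?_, hzw⟩⟩
    · rw [hV, Finset.mem_biUnion]; exact ⟨b, h1, hx⟩
    · rw [hV, Finset.mem_biUnion]; exact ⟨_, h2, hy⟩
    · rw [hV, Finset.mem_biUnion]; exact ⟨_, h3, hz⟩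
  -- size of V
  have hVcard : (V.card : ℝ) ≤ (I.card : ℝ) * ((1 + c) * N) := by
    have h1 : V.card ≤ ∑ b ∈ I, (M (tr b)).card := Finset.card_biUnion_le
    have h2 : (V.card : ℝ) ≤ ∑ b ∈ I, ((M (tr b)).card : ℝ) := by exact_mod_cast h1
    refine h2.trans ?_
    calc ∑ b ∈ I, ((M (tr b)).card : ℝ) ≤ ∑ b ∈ I, (1 + c) * N :=
          Finset.sum_le_sum (fun b hb => hMcard b hb)
      _ = _ := by rw [Finset.sum_const, nsmul_eq_mul]
  -- size of the ends
  set J : Finset (ℕ × ℕ) := Finset.Ico (Y - 2 ^ A) Y ×ˢ Finset.range A with hJ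
  have hends : ((ends V).card : ℝ) ≤ (I.card : ℝ) * (8 * c * N) + (J.card : ℝ) * ((1 + c) * N) := by
    have h1 : ends V ⊆ (I.filter (fun b => b.1 + 2 ^ b.2 < Y)).biUnion
          (fun b => (M (tr b)).filter (fun x => pr 1 x ∈
            RS (b.1 + 2 ^ b.2) (b.1 + 2 * 2 ^ b.2) \ (M (tr (b.1 + 2 ^ b.2, b.2))).image (pr 0)))
        ∪ (I.filter (fun b => ¬ b.1 + 2 ^ b.2 < Y)).biUnion (fun b => M (tr b)) := by
      intro x hx
      rw [mem_ends] at hx
      obtain ⟨hxV, hxe⟩ := hx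
      have hxV' := hxV
      rw [hV, Finset.mem_biUnion] at hxV'
      obtain ⟨b, hb, hxb⟩ := hxV'
      rw [Finset.mem_union, Finset.mem_biUnion, Finset.mem_biUnion]
      by_cases hbY : b.1 + 2 ^ b.2 < Y
      · left
        refine ⟨b, Finset.mem_filter.mpr ⟨hb, hbY⟩, ?_⟩
        rw [Finset.mem_filter]
        refine ⟨hxb, ?_⟩
        rw [Finset.mem_sdiff]
        obtain ⟨⟨h2, h3, h4⟩, h5⟩ := hmemM b hb x hxb
        refine ⟨?_, ?_⟩
        · simp only [hRS, Finset.mem_filter, Finset.mem_product]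
          exact ⟨⟨h3, h4⟩, h5 1⟩
        · intro h6
          rw [Finset.mem_image] at h6
          obtain ⟨z, hz, hzx⟩ := h6
          simp only [pr, Prod.mk.injEq] at hzx
          refine hxe z ?_ hzx
          rw [hV, Finset.mem_biUnion]
          refine ⟨_, ?_, hz⟩
          rw [hI, Finset.mem_product, Finset.mem_range, Finset.mem_range] at hb ⊢
          exact ⟨hbY, hb.2⟩
      · right
        exact ⟨b, Finset.mem_filter.mpr ⟨hb, hbY⟩, hxb⟩
    have h2 := (Finset.card_le_card h1).trans ((Finset.card_union_le _ _).trans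
      (Nat.add_le_add Finset.card_biUnion_le Finset.card_biUnion_le))
    have h3 : ((ends V).card : ℝ) ≤ (∑ b ∈ I.filter (fun b => b.1 + 2 ^ b.2 < Y),
        (((M (tr b)).filter (fun x => pr 1 x ∈
            RS (b.1 + 2 ^ b.2) (b.1 + 2 * 2 ^ b.2) \ (M (tr (b.1 + 2 ^ b.2, b.2))).image (pr 0))).card : ℝ))
        + ∑ b ∈ I.filter (fun b => ¬ b.1 + 2 ^ b.2 < Y), ((M (tr b)).card : ℝ) := by
      exact_mod_cast h2
    refine h3.trans (add_le_add ?_ ?_)
    · calc _ ≤ ∑ b ∈ I.filter (fun b => b.1 + 2 ^ b.2 < Y), 8 * c * N := by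
            apply Finset.sum_le_sum
            intro b hb
            rw [Finset.mem_filter] at hb
            obtain ⟨hb, hbY⟩ := hb
            have hb' : (b.1 + 2 ^ b.2, b.2) ∈ I := by
              rw [hI, Finset.mem_product, Finset.mem_range, Finset.mem_range] at hb ⊢
              exact ⟨hbY, hb.2⟩
            have e0 := (hunc _ hb' 0).1
            have r0 := hregRS (b.1 + 2 ^ b.2, b.2) 0
            simp only at r0
            have l1 : b.1 + 2 ^ b.2 + 2 ^ b.2 = b.1 + 2 * 2 ^ b.2 := by ring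
            simp only at e0
            rw [r0, l1] at e0
            refine le_trans ?_ e0
            have h4 := Finset.card_le_card_of_injOn
              (s := (M (tr b)).filter (fun x => pr 1 x ∈
                RS (b.1 + 2 ^ b.2) (b.1 + 2 * 2 ^ b.2) \ (M (tr (b.1 + 2 ^ b.2, b.2))).image (pr 0)))
              (t := RS (b.1 + 2 ^ b.2) (b.1 + 2 * 2 ^ b.2) \ (M (tr (b.1 + 2 ^ b.2, b.2))).image (pr 0))
              (pr 1) (fun x hx => (Finset.mem_filter.mp hx).2)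
              (fun x hx y hy hxy => inj_of_matching (hMb b hb).2.2.1 1 x
                (Finset.mem_filter.mp hx).1 y (Finset.mem_filter.mp hy).1 hxy)
            exact_mod_cast h4
        _ ≤ ∑ b ∈ I, 8 * c * N := by
            apply Finset.sum_le_sum_of_subset_of_nonneg (Finset.filter_subset _ _)
            intro _ _ _
            positivity
        _ = _ := by rw [Finset.sum_const, nsmul_eq_mul]
    · calc _ ≤ ∑ b ∈ I.filter (fun b => ¬ b.1 + 2 ^ b.2 < Y), (1 + c) * N := by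
            apply Finset.sum_le_sum
            intro b hb
            exact hMcard b (Finset.mem_filter.mp hb).1
        _ ≤ ∑ b ∈ J, (1 + c) * N := by
            apply Finset.sum_le_sum_of_subset_of_nonneg
            · intro b hb
              rw [Finset.mem_filter, hI, Finset.mem_product, Finset.mem_range, Finset.mem_range] at hb
              rw [hJ, Finset.mem_product, Finset.mem_Ico, Finset.mem_range]
              have : 2 ^ b.2 ≤ 2 ^ A := Nat.pow_le_pow_right (by norm_num) hb.1.2.le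
              omega
            · intro _ _ _
              positivity
        _ = _ := by rw [Finset.sum_const, nsmul_eq_mul]
  -- cardinalities of index sets
  have hA1r : (1:ℝ) ≤ A := by
    have : 1 ≤ A := by omega
    exact_mod_cast this
  have hIcard : (I.card : ℝ) = A ^ 2 * 2 ^ A := by
    rw [hI, Finset.card_product, Finset.card_range, Finset.card_range, hY]
    push_cast
    ring
  have hJcard : (J.card : ℝ) = A * 2 ^ A := by
    have h1 : 2 ^ A ≤ Y := by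
      rw [hY]
      exact Nat.le_mul_of_pos_left _ (by omega)
    rw [hJ, Finset.card_product, Finset.card_range, Nat.card_Ico]
    have h3 : 0 < 2 ^ A := by positivity
    have h2 : Y - (Y - 2 ^ A) = 2 ^ A := by omega
    rw [h2]
    push_cast
    ring
  have hGcard : (G.card : ℝ) = (A - 1) ^ 2 * 2 ^ A := by
    have h1 : 2 ^ A ≤ Y := by
      rw [hY]
      exact Nat.le_mul_of_pos_left _ (by omega)
    have h2 : 1 ≤ A := by omega
    rw [hG, Finset.card_product, Nat.card_Ico, Nat.card_Ico, Nat.cast_mul, Nat.cast_sub h1,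
      Nat.cast_sub h2, hY]
    push_cast
    ring
  -- nonempty
  have hWpos : (0:ℝ) < W.card := by
    refine lt_of_lt_of_le ?_ hWcard
    have h1 : (0:ℝ) < G.card := by
      rw [hGcard]
      have : (2:ℝ) ≤ A := by exact_mod_cast hA2
      have : (0:ℝ) < A - 1 := by linarith
      positivity
    have h2 : 0 < 1 - 25 * c := by rw [hc]; linarith
    positivity
  have hWne : W.Nonempty := by
    rw [← Finset.card_pos]
    exact_mod_cast hWpos
  have hVne : V.Nonempty := by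
    obtain ⟨w, hw⟩ := hWne
    obtain ⟨⟨x, hx, _⟩, _⟩ := hWprop w hw
    exact ⟨x, hx⟩
  obtain ⟨n, hn1, hn2, a, ha1, ha2⟩ := exists_seq V hVne hVlt hVpos hVα hVβ W hWprop
  refine ⟨n, hn1, a, ha1, ?_⟩
  have hfin : (W.card : ℝ) ≤ (((((Finset.Icc 1 (n - 1)).image (fun i => (a i, a (i + 1)))) ∩
              ((Finset.Icc 1 (n - 2)).image (fun j => (a j + a (j + 1), a (j + 2))))) ∩
              ((Finset.Icc 1 (n - 2)).image (fun k => (a k, a (k + 1) + a (k + 2))))).card : ℝ) := by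
    exact_mod_cast Finset.card_le_card ha2
  refine le_trans ?_ hfin
  refine le_trans ?_ hWcard
  have hnr : (n : ℝ) = V.card + 2 * (ends V).card := by
    rw [hn2]; push_cast; ring
  rw [hnr]
  have hn3 : (V.card : ℝ) + 2 * (ends V).card ≤
      A ^ 2 * 2 ^ A * N * (1 + 17 * c) + 4 * (A * 2 ^ A * N) := by
    rw [hIcard] at hVcard hends
    rw [hJcard] at hends
    have h1 : (A : ℝ) * 2 ^ A * ((1 + c) * N) ≤ A * 2 ^ A * (2 * N) := by
      apply mul_le_mul_of_nonneg_left _ (by positivity)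
      exact mul_le_mul_of_nonneg_right (by rw [hc]; linarith) hNpos.le
    linarith
  have hεA : 100 * (A : ℝ) ≤ ε * A ^ 2 := by
    rw [div_le_iff₀ hε] at hAr
    nlinarith
  have h1 : (1 - ε) * ((V.card : ℝ) + 2 * (ends V).card) ≤
      (1 - ε) * (A ^ 2 * 2 ^ A * N * (1 + 17 * c) + 4 * (A * 2 ^ A * N)) :=
    mul_le_mul_of_nonneg_left hn3 (by linarith)
  refine h1.trans ?_
  rw [hGcard]
  set Z : ℝ := 2 ^ A * N with hZ
  have hZpos : 0 < Z := by positivity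
  have h2 : (1 - ε) * ((A : ℝ) ^ 2 * 2 ^ A * N * (1 + 17 * c) + 4 * (A * 2 ^ A * N))
      = Z * ((1 - ε) * (A ^ 2 * (1 + 17 * c) + 4 * A)) := by rw [hZ]; ring
  have h3 : ((A : ℝ) - 1) ^ 2 * 2 ^ A * ((1 - 25 * c) * N) = Z * ((A - 1) ^ 2 * (1 - 25 * c)) := by
    rw [hZ]; ring
  rw [h2, h3]
  apply mul_le_mul_of_nonneg_left _ hZpos.le
  have h4 : (1 - ε) * ((A : ℝ) ^ 2 * (1 + 17 * c) + 4 * A)
      ≤ (1 - ε) * (A ^ 2 * (1 + 17 * c) + ε / 25 * A ^ 2) := by
    apply mul_le_mul_of_nonneg_left _ (by linarith)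
    linarith
  refine h4.trans ?_
  have h5 : (A : ℝ) ^ 2 * (1 - ε / 50) * (1 - 25 * c) ≤ (A - 1) ^ 2 * (1 - 25 * c) := by
    apply mul_le_mul_of_nonneg_right _ (by rw [hc]; linarith)
    nlinarith
  refine le_trans ?_ h5
  have h6 : (1 - ε) * ((A : ℝ) ^ 2 * (1 + 17 * c) + ε / 25 * A ^ 2)
      = A ^ 2 * ((1 - ε) * (1 + 17 * c + ε / 25)) := by ring
  rw [h6, mul_assoc]
  apply mul_le_mul_of_nonneg_left _ (by positivity)
  rw [hc]
  nlinarith

end Pool.Agent.Helper42
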