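import Mathlib
import Pool.Agent.Helper42.PerimeterFive

/-!
Perimeter of unions of unit disks under contraction of the centres: property `(P_n)` fails for every
`n ≥ 5`, so that the number `N` of the question satisfies `N ≤ 4`.

The example: centres `(-6/5,0), (0,0), (2,0), (1/13,5/13), (1/13,-5/13)`; the contraction moves the
last centre onto the fourth one and keeps the other four.
-/

open MeasureTheory Set Metric
open scoped ENNReal MeasureTheory

namespace Pool.Agent.Results.MP_3836fe_co.AtMostFour

/-- The Euclidean plane. -/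
abbrev Plane : Type := EuclideanSpace ℝ (Fin 2)

/-- The perimeter of a set: the one-dimensional Hausdorff measure of its topological boundary. -/
noncomputable def perimeter (S : Set Plane) : ℝ≥0∞ := μH[1] (frontier S)

/-- Property `(P_n)`. -/
def PropP (n : ℕ) : Prop :=
  ∀ p q : Fin n → Plane, (∀ i j, dist (q i) (q j) ≤ dist (p i) (p j)) →
    perimeter (⋃ i, closedBall (q i) 1) ≤ perimeter (⋃ i, closedBall (p i) 1)

/-- the isometry between `ℂ` and the plane -/
noncomputable def e : ℂ ≃ₗᵢ[ℝ] Plane := Complex.orthonormalBasisOneI.repr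

lemma perimeter_e {ι : Type*} (c : ι → ℂ) :
    perimeter (⋃ i, closedBall (e (c i)) 1) = μH[1] (frontier (⋃ i, closedBall (c i) 1)) := by
  have h1 : (⋃ i, closedBall (e (c i)) 1) = e.toIsometryEquiv '' (⋃ i, closedBall (c i) 1) := by
    rw [Set.image_iUnion]
    refine Set.iUnion_congr fun i => ?_
    rw [IsometryEquiv.image_closedBall]
    rfl
  have h2 : frontier (e.toIsometryEquiv '' (⋃ i, closedBall (c i) 1)) =
      e.toIsometryEquiv '' frontier (⋃ i, closedBall (c i) 1) := by
    rw [← IsometryEquiv.coe_toHomeomorph, Homeomorph.image_frontier]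
  rw [perimeter, h1, h2, IsometryEquiv.hausdorffMeasure_image]

/-- `(P_n)` fails for every `n ≥ 5`; hence the largest `n` with `(P_n)` is at most `4`. -/
theorem result : ∀ n : ℕ, 5 ≤ n → ¬ PropP n := by
  intro n hn hP
  -- a surjection `Fin n → Fin 5`
  let f : Fin n → Fin 5 := fun i => if h : (i : ℕ) < 5 then ⟨i, h⟩ else 0
  have hf : Function.Surjective f := by
    intro j
    refine ⟨⟨j, lt_of_lt_of_le j.2 hn⟩, ?_⟩
    simp [f]
  have key : ∀ c : Fin 5 → ℂ, (⋃ i : Fin n, closedBall (e (c (f i))) (1:ℝ)) =
      ⋃ j : Fin 5, closedBall (e (c j)) (1:ℝ) := by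
    intro c
    exact hf.iUnion_comp (fun j => closedBall (e (c j)) (1:ℝ))
  have h := hP (fun i => e (Helper42.Arc.exP (f i))) (fun i => e (Helper42.Arc.exQ (f i))) ?_
  · rw [key, key, perimeter_e, perimeter_e] at h
    exact absurd h (not_le.2 Helper42.Arc.exP_lt_exQ)
  · intro i j
    rw [LinearIsometryEquiv.dist_map, LinearIsometryEquiv.dist_map]
    exact Helper42.Arc.exPQ_contraction (f i) (f j)

end Pool.Agent.Results.MP_3836fe_co.AtMostFour
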