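import Pool.Agent.Helper42.RandomSubset

/-!
Combinatorial and expectation facts used in one bite of the nibble.
-/

set_option autoImplicit false
set_option linter.unusedSectionVars false
set_option linter.unusedVariables false

namespace Pool.Agent.Helper42

variable {ι κ : Type*} [DecidableEq ι] [DecidableEq κ]

/-- edges of `E` at `x` -/
def star (inc : κ → Finset ι) (E : Finset κ) (x : ι) : Finset κ := E.filter (fun e => x ∈ inc e)

theorem mem_star {inc : κ → Finset ι} {E : Finset κ} {x : ι} {e : κ} :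
    e ∈ star inc E x ↔ e ∈ E ∧ x ∈ inc e := by
  unfold star; exact Finset.mem_filter

theorem star_subset (inc : κ → Finset ι) (E : Finset κ) (x : ι) : star inc E x ⊆ E :=
  Finset.filter_subset _ _

/-- double counting -/
theorem sum_star (inc : κ → Finset ι) {k : ℕ} (hk : ∀ e, (inc e).card = k)
    {X : Finset ι} {E : Finset κ} (hX : ∀ e ∈ E, inc e ⊆ X) :
    ∑ x ∈ X, ((star inc E x).card : ℝ) = k * E.card := by
  have h1 : ∀ x ∈ X, ((star inc E x).card : ℝ) = ∑ e ∈ E, if x ∈ inc e then 1 else 0 := by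
    intro x _
    unfold star
    rw [Finset.card_filter]
    push_cast
    rfl
  rw [Finset.sum_congr rfl h1, Finset.sum_comm]
  have h2 : ∀ e ∈ E, (∑ x ∈ X, if x ∈ inc e then (1:ℝ) else 0) = k := by
    intro e he
    rw [← Finset.sum_filter, Finset.filter_mem_eq_inter, Finset.inter_eq_right.mpr (hX e he)]
    simp [hk e]
  rw [Finset.sum_congr rfl h2]
  simp [mul_comm]

/-- intersecting pairs of distinct edges -/
def ipairs (inc : κ → Finset ι) (E : Finset κ) : Finset (κ × κ) :=
  (E ×ˢ E).filter (fun q => q.1 ≠ q.2 ∧ ¬ Disjoint (inc q.1) (inc q.2))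

theorem card_ipairs_le (inc : κ → Finset ι) {X : Finset ι} {E : Finset κ}
    (hX : ∀ e ∈ E, inc e ⊆ X) :
    ((ipairs inc E).card : ℝ) ≤ ∑ x ∈ X, ((star inc E x).card : ℝ) ^ 2 := by
  have h1 : ipairs inc E ⊆ X.biUnion (fun x => star inc E x ×ˢ star inc E x) := by
    intro q hq
    unfold ipairs at hq
    rw [Finset.mem_filter, Finset.mem_product] at hq
    obtain ⟨⟨h1, h2⟩, -, h3⟩ := hq
    rw [Finset.not_disjoint_iff] at h3
    obtain ⟨u, hu1, hu2⟩ := h3
    rw [Finset.mem_biUnion]
    exact ⟨u, hX _ h1 hu1, Finset.mem_product.mpr ⟨mem_star.mpr ⟨h1, hu1⟩, mem_star.mpr ⟨h2, hu2⟩⟩⟩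
  have h2 := (Finset.card_le_card h1).trans Finset.card_biUnion_le
  have h3 : ((ipairs inc E).card : ℝ) ≤ ((∑ x ∈ X, (star inc E x ×ˢ star inc E x).card : ℕ) : ℝ) := by
    exact_mod_cast h2
  refine h3.trans (le_of_eq ?_)
  push_cast
  apply Finset.sum_congr rfl
  intro x _
  rw [Finset.card_product]
  push_cast
  ring

/-- the isolated edges of `S` -/
def isol (inc : κ → Finset ι) (S : Finset κ) : Finset κ :=
  S.filter (fun e => ∀ f ∈ S, e ≠ f → Disjoint (inc e) (inc f))

theorem Ex_isol (inc : κ → Finset ι) (E : Finset κ) {p : ℝ} (hp0 : 0 ≤ p) (hp1 : p ≤ 1) :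
    p * E.card - p ^ 2 * (ipairs inc E).card ≤
      Ex E (fun _ => p) (fun S => ((isol inc S).card : ℝ)) := by
  have hpt : ∀ S, S ⊆ E → (∑ e ∈ E, if ({e} : Finset κ) ⊆ S then (1:ℝ) else 0)
      - (∑ q ∈ ipairs inc E, if ({q.1, q.2} : Finset κ) ⊆ S then (1:ℝ) else 0)
      ≤ ((isol inc S).card : ℝ) := by
    intro S hS
    have h1 : (∑ e ∈ E, if ({e} : Finset κ) ⊆ S then (1:ℝ) else 0) = S.card := by
      simp only [Finset.singleton_subset_iff]
      rw [← Finset.sum_filter, Finset.filter_mem_eq_inter, Finset.inter_eq_right.mpr hS]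
      simp
    have h2 : (∑ q ∈ ipairs inc E, if ({q.1, q.2} : Finset κ) ⊆ S then (1:ℝ) else 0)
        = ((ipairs inc E).filter (fun q => q.1 ∈ S ∧ q.2 ∈ S)).card := by
      rw [Finset.card_filter]
      push_cast
      apply Finset.sum_congr rfl
      intro q _
      simp only [Finset.insert_subset_iff, Finset.singleton_subset_iff]
    rw [h1, h2]
    have h3 : S.card ≤ (isol inc S).card
        + ((ipairs inc E).filter (fun q => q.1 ∈ S ∧ q.2 ∈ S)).card := by
      have h4 : S \ isol inc S ⊆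
          ((ipairs inc E).filter (fun q => q.1 ∈ S ∧ q.2 ∈ S)).image (fun q => q.1) := by
        intro e he
        rw [Finset.mem_sdiff] at he
        obtain ⟨he1, he2⟩ := he
        unfold isol at he2
        rw [Finset.mem_filter] at he2
        push Not at he2
        obtain ⟨f, hf1, hf2, hf3⟩ := he2 he1
        rw [Finset.mem_image]
        refine ⟨(e, f), ?_, rfl⟩
        rw [Finset.mem_filter]
        refine ⟨?_, he1, hf1⟩
        unfold ipairs
        rw [Finset.mem_filter, Finset.mem_product]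
        exact ⟨⟨hS he1, hS hf1⟩, hf2, hf3⟩
      have h5 := (Finset.card_le_card h4).trans Finset.card_image_le
      have h6 : (S \ isol inc S).card + (isol inc S).card = S.card :=
        Finset.card_sdiff_add_card_eq_card (Finset.filter_subset _ _)
      omega
    have h3' : (S.card : ℝ) ≤ (isol inc S).card
        + ((ipairs inc E).filter (fun q => q.1 ∈ S ∧ q.2 ∈ S)).card := by exact_mod_cast h3
    linarith
  have h := Ex_mono (U := E) (p := fun _ => p) (fun _ _ => hp0) (fun _ _ => hp1) hpt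
  refine le_trans (le_of_eq ?_) h
  rw [Ex_sub, Ex_sum, Ex_sum]
  have h7 : ∀ e ∈ E, Ex E (fun _ => p) (fun S => if ({e} : Finset κ) ⊆ S then (1:ℝ) else 0) = p := by
    intro e he
    rw [Ex_contain _ (Finset.singleton_subset_iff.mpr he)]
    simp
  have h8 : ∀ q ∈ ipairs inc E,
      Ex E (fun _ => p) (fun S => if ({q.1, q.2} : Finset κ) ⊆ S then (1:ℝ) else 0) = p ^ 2 := by
    intro q hq
    unfold ipairs at hq
    rw [Finset.mem_filter, Finset.mem_product] at hq
    rw [Ex_contain _ (by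
      rw [Finset.insert_subset_iff, Finset.singleton_subset_iff]; exact hq.1)]
    rw [Finset.prod_pair hq.2.1]
    ring
  rw [Finset.sum_congr rfl h7, Finset.sum_congr rfl h8]
  simp
  ring

/-- the surviving vertices -/
def surv (inc : κ → Finset ι) (X : Finset ι) (E S : Finset κ) : Finset ι :=
  X.filter (fun x => Disjoint (star inc E x) S)

/-- the surviving edges -/
def esurv (inc : κ → Finset ι) (X : Finset ι) (E S : Finset κ) : Finset κ :=
  E.filter (fun e => inc e ⊆ surv inc X E S)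

theorem Ex_surv (inc : κ → Finset ι) {k : ℕ} (hk : ∀ e, (inc e).card = k)
    {X : Finset ι} {E : Finset κ} (hX : ∀ e ∈ E, inc e ⊆ X) {p : ℝ} (hp0 : 0 ≤ p) (hp1 : p ≤ 1) :
    X.card - p * (k * E.card) ≤ Ex E (fun _ => p) (fun S => ((surv inc X E S).card : ℝ)) := by
  have h1 : ∀ S, S ⊆ E → ((surv inc X E S).card : ℝ)
      = ∑ x ∈ X, if Disjoint (star inc E x) S then 1 else 0 := by
    intro S _
    unfold surv
    rw [Finset.card_filter]
    push_cast
    rfl
  rw [Ex_congr h1, Ex_sum]
  have h2 : ∀ x ∈ X, 1 - p * (star inc E x).card ≤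
      Ex E (fun _ => p) (fun S => if Disjoint (star inc E x) S then (1:ℝ) else 0) := by
    intro x _
    rw [Ex_avoid _ (star_subset inc E x), Finset.prod_const]
    have := one_add_mul_le_pow (a := -p) (by linarith) (star inc E x).card
    calc 1 - p * (star inc E x).card = 1 + (star inc E x).card * (-p) := by ring
      _ ≤ (1 + -p) ^ (star inc E x).card := this
      _ = (1 - p) ^ (star inc E x).card := by ring
  refine le_trans (le_of_eq ?_) (Finset.sum_le_sum h2)
  rw [Finset.sum_sub_distrib, ← Finset.mul_sum, sum_star inc hk hX]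
  simp

/-- edges of `E` missing `x` but meeting `e` -/
def nb (inc : κ → Finset ι) (E : Finset κ) (x : ι) (e : κ) : Finset κ :=
  E.filter (fun f => x ∉ inc f ∧ ¬ Disjoint (inc f) (inc e))

theorem nb_subset (inc : κ → Finset ι) (E : Finset κ) (x : ι) (e : κ) : nb inc E x e ⊆ E :=
  Finset.filter_subset _ _

theorem nb_eq (inc : κ → Finset ι) (hlin : ∀ e f, e ≠ f → (inc e ∩ inc f).card ≤ 1)
    (E : Finset κ) {x : ι} {e : κ} (hx : x ∈ inc e) :
    nb inc E x e = ((inc e).erase x).biUnion (fun u => (star inc E u).erase e) := by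
  ext f
  unfold nb
  rw [Finset.mem_filter, Finset.mem_biUnion]
  constructor
  · rintro ⟨hf, hxf, hd⟩
    rw [Finset.not_disjoint_iff] at hd
    obtain ⟨u, hu1, hu2⟩ := hd
    refine ⟨u, ?_, ?_⟩
    · rw [Finset.mem_erase]
      refine ⟨?_, hu2⟩
      rintro rfl
      exact hxf hu1
    · rw [Finset.mem_erase]
      refine ⟨?_, mem_star.mpr ⟨hf, hu1⟩⟩
      rintro rfl
      exact hxf hx
  · rintro ⟨u, hu, hf⟩
    rw [Finset.mem_erase] at hu hf
    obtain ⟨hux, hue⟩ := hu
    obtain ⟨hfe, hfs⟩ := hf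
    rw [mem_star] at hfs
    refine ⟨hfs.1, ?_, ?_⟩
    · intro hxf
      have h1 := hlin f e hfe
      have h2 : ({u, x} : Finset ι) ⊆ inc f ∩ inc e := by
        intro z hz
        rw [Finset.mem_insert, Finset.mem_singleton] at hz
        rw [Finset.mem_inter]
        rcases hz with rfl | rfl
        · exact ⟨hfs.2, hue⟩
        · exact ⟨hxf, hx⟩
      have h3 := Finset.card_le_card h2
      rw [Finset.card_pair hux] at h3
      omega
    · rw [Finset.not_disjoint_iff]
      exact ⟨u, hfs.2, hue⟩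

theorem card_nb (inc : κ → Finset ι) (hlin : ∀ e f, e ≠ f → (inc e ∩ inc f).card ≤ 1)
    {E : Finset κ} {x : ι} {e : κ} (he : e ∈ E) (hx : x ∈ inc e) :
    ((nb inc E x e).card : ℝ) = ∑ u ∈ (inc e).erase x, (((star inc E u).card : ℝ) - 1) := by
  rw [nb_eq inc hlin E hx, Finset.card_biUnion]
  · push_cast
    apply Finset.sum_congr rfl
    intro u hu
    have h1 : e ∈ star inc E u := mem_star.mpr ⟨he, (Finset.mem_erase.mp hu).2⟩
    rw [Finset.card_erase_of_mem h1, Nat.cast_sub]
    · simp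
    · exact Finset.card_pos.mpr ⟨e, h1⟩
  · intro u hu v hv huv
    rw [Finset.mem_coe] at hu hv
    show Disjoint ((star inc E u).erase e) ((star inc E v).erase e)
    rw [Finset.disjoint_left]
    intro f hf1 hf2
    rw [Finset.mem_erase, mem_star] at hf1 hf2
    have h1 := hlin f e hf1.1
    have h2 : ({u, v} : Finset ι) ⊆ inc f ∩ inc e := by
      intro z hz
      rw [Finset.mem_insert, Finset.mem_singleton] at hz
      rw [Finset.mem_inter]
      rcases hz with rfl | rfl
      · exact ⟨hf1.2.2, (Finset.mem_erase.mp hu).2⟩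
      · exact ⟨hf2.2.2, (Finset.mem_erase.mp hv).2⟩
    have h3 := Finset.card_le_card h2
    rw [Finset.card_pair huv] at h3
    omega

theorem card_nb_inter (inc : κ → Finset ι) (hlin : ∀ e f, e ≠ f → (inc e ∩ inc f).card ≤ 1)
    {k : ℕ} (hk : ∀ e, (inc e).card = k)
    {E : Finset κ} {x : ι} {e e' : κ} (hx : x ∈ inc e) (hx' : x ∈ inc e') (hee : e ≠ e') :
    (nb inc E x e ∩ nb inc E x e').card ≤ k ^ 2 := by
  have h1 : nb inc E x e ∩ nb inc E x e' ⊆
      (((inc e).erase x) ×ˢ ((inc e').erase x)).biUnion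
        (fun q => E.filter (fun f => q.1 ∈ inc f ∧ q.2 ∈ inc f)) := by
    intro f hf
    rw [Finset.mem_inter, nb_eq inc hlin E hx, nb_eq inc hlin E hx', Finset.mem_biUnion,
      Finset.mem_biUnion] at hf
    obtain ⟨⟨u, hu, hf1⟩, ⟨v, hv, hf2⟩⟩ := hf
    rw [Finset.mem_erase, mem_star] at hf1 hf2
    rw [Finset.mem_biUnion]
    refine ⟨(u, v), Finset.mem_product.mpr ⟨hu, hv⟩, ?_⟩
    rw [Finset.mem_filter]
    exact ⟨hf1.2.1, hf1.2.2, hf2.2.2⟩
  refine (Finset.card_le_card h1).trans (Finset.card_biUnion_le.trans ?_)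
  have h2 : ∀ q ∈ (((inc e).erase x) ×ˢ ((inc e').erase x)),
      (E.filter (fun f => q.1 ∈ inc f ∧ q.2 ∈ inc f)).card ≤ 1 := by
    intro q hq
    rw [Finset.mem_product, Finset.mem_erase, Finset.mem_erase] at hq
    obtain ⟨⟨hu1, hu2⟩, hv1, hv2⟩ := hq
    have huv : q.1 ≠ q.2 := by
      intro h
      rw [← h] at hv2
      have h3 : ({q.1, x} : Finset ι) ⊆ inc e ∩ inc e' := by
        intro z hz
        rw [Finset.mem_insert, Finset.mem_singleton] at hz
        rw [Finset.mem_inter]
        rcases hz with rfl | rfl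
        · exact ⟨hu2, hv2⟩
        · exact ⟨hx, hx'⟩
      have h4 := Finset.card_le_card h3
      rw [Finset.card_pair hu1] at h4
      have := hlin e e' hee
      omega
    rw [Finset.card_le_one]
    intro f hf g hg
    rw [Finset.mem_filter] at hf hg
    by_contra hfg
    have h3 : ({q.1, q.2} : Finset ι) ⊆ inc f ∩ inc g := by
      intro z hz
      rw [Finset.mem_insert, Finset.mem_singleton] at hz
      rw [Finset.mem_inter]
      rcases hz with rfl | rfl
      · exact ⟨hf.2.1, hg.2.1⟩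
      · exact ⟨hf.2.2, hg.2.2⟩
    have h4 := Finset.card_le_card h3
    rw [Finset.card_pair huv] at h4
    have := hlin f g hfg
    omega
  refine (Finset.sum_le_sum h2).trans ?_
  rw [Finset.sum_const, smul_eq_mul, mul_one, Finset.card_product, Finset.card_erase_of_mem hx,
    Finset.card_erase_of_mem hx', hk, hk]
  calc (k - 1) * (k - 1) ≤ k * k := Nat.mul_le_mul (Nat.sub_le _ _) (Nat.sub_le _ _)
    _ = k ^ 2 := (sq k).symm

/-- the surviving degree, written with the sets `nb` -/
theorem star_esurv (inc : κ → Finset ι) {X : Finset ι} {E S : Finset κ}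
    (hX : ∀ e ∈ E, inc e ⊆ X) (hS : S ⊆ E) {x : ι} (hx : x ∈ surv inc X E S) :
    star inc (esurv inc X E S) x = (star inc E x).filter (fun e => Disjoint (nb inc E x e) S) := by
  ext e
  rw [mem_star, Finset.mem_filter, mem_star]
  unfold esurv
  rw [Finset.mem_filter]
  unfold surv at hx
  rw [Finset.mem_filter] at hx
  obtain ⟨hxX, hxS⟩ := hx
  constructor
  · rintro ⟨⟨he, hsub⟩, hxe⟩
    refine ⟨⟨he, hxe⟩, ?_⟩
    rw [Finset.disjoint_left]
    intro f hf hfS
    unfold nb at hf
    rw [Finset.mem_filter] at hf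
    obtain ⟨hfE, hxf, hd⟩ := hf
    rw [Finset.not_disjoint_iff] at hd
    obtain ⟨u, hu1, hu2⟩ := hd
    have h1 := hsub hu2
    unfold surv at h1
    rw [Finset.mem_filter] at h1
    exact Finset.disjoint_left.mp h1.2 (mem_star.mpr ⟨hfE, hu1⟩) hfS
  · rintro ⟨⟨he, hxe⟩, hd⟩
    refine ⟨⟨he, ?_⟩, hxe⟩
    intro u hu
    unfold surv
    rw [Finset.mem_filter]
    refine ⟨hX e he hu, ?_⟩
    rw [Finset.disjoint_left]
    intro f hf hfS
    rw [mem_star] at hf
    have hxf : x ∉ inc f := by
      intro h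
      exact Finset.disjoint_left.mp hxS (mem_star.mpr ⟨hf.1, h⟩) hfS
    apply Finset.disjoint_left.mp hd _ hfS
    unfold nb
    rw [Finset.mem_filter]
    refine ⟨hf.1, hxf, ?_⟩
    rw [Finset.not_disjoint_iff]
    exact ⟨u, hf.2, hu⟩

/-- first moment of the number of surviving edges at `x` -/
theorem Ex_first (U T : Finset κ) (N : κ → Finset κ) (hN : ∀ e ∈ T, N e ⊆ U) (p : ℝ) :
    Ex U (fun _ => p) (fun S => ((T.filter (fun e => Disjoint (N e) S)).card : ℝ))
      = ∑ e ∈ T, (1 - p) ^ (N e).card := by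
  have h1 : ∀ S, S ⊆ U → (((T.filter (fun e => Disjoint (N e) S)).card : ℝ))
      = ∑ e ∈ T, if Disjoint (N e) S then 1 else 0 := by
    intro S _
    rw [Finset.card_filter]
    push_cast
    rfl
  rw [Ex_congr h1, Ex_sum]
  apply Finset.sum_congr rfl
  intro e he
  rw [Ex_avoid _ (hN e he), Finset.prod_const]

theorem Ex_second (U T : Finset κ) (N : κ → Finset κ) (hN : ∀ e ∈ T, N e ⊆ U) (p : ℝ) :
    Ex U (fun _ => p) (fun S => ((T.filter (fun e => Disjoint (N e) S)).card : ℝ) ^ 2)
      = ∑ e ∈ T, ∑ e' ∈ T, (1 - p) ^ (N e ∪ N e').card := by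
  have h1 : ∀ S, S ⊆ U → (((T.filter (fun e => Disjoint (N e) S)).card : ℝ)) ^ 2
      = ∑ e ∈ T, ∑ e' ∈ T, if Disjoint (N e ∪ N e') S then 1 else 0 := by
    intro S _
    rw [Finset.card_filter]
    push_cast
    rw [sq, Finset.sum_mul_sum]
    apply Finset.sum_congr rfl
    intro e _
    apply Finset.sum_congr rfl
    intro e' _
    by_cases h2 : Disjoint (N e) S
    · by_cases h3 : Disjoint (N e') S
      · rw [if_pos h2, if_pos h3, if_pos (Finset.disjoint_union_left.mpr ⟨h2, h3⟩), mul_one]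
      · rw [if_neg h3, if_neg (fun h => h3 (Finset.disjoint_union_left.mp h).2), mul_zero]
    · rw [if_neg h2, if_neg (fun h => h2 (Finset.disjoint_union_left.mp h).1), zero_mul]
  rw [Ex_congr h1, Ex_sum]
  apply Finset.sum_congr rfl
  intro e he
  rw [Ex_sum]
  apply Finset.sum_congr rfl
  intro e' he'
  rw [Ex_avoid _ (Finset.union_subset (hN e he) (hN e' he')), Finset.prod_const]

end Pool.Agent.Helper42
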