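import Pool.Agent.Helper42.Moment
import Pool.Agent.Helper42.Nibble1

/-!
The four-partite hypergraph of triples, and the expected `L²` deviation of its degrees when the
pairs are chosen at random.
-/

set_option autoImplicit false
set_option linter.unusedSectionVars false
set_option linter.unusedVariables false

namespace Pool.Agent.Helper42

/-- the four pairs attached to a triple -/
def pr : Fin 4 → ℕ × ℕ × ℕ → ℕ × ℕ
  | 0, x => (x.1, x.2.1)
  | 1, x => (x.2.1, x.2.2)
  | 2, x => (x.1 + x.2.1, x.2.2)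
  | 3, x => (x.1, x.2.1 + x.2.2)

theorem pr_inj2 {x y : ℕ × ℕ × ℕ} {i j : Fin 4} (hij : i ≠ j) (h1 : pr i x = pr i y)
    (h2 : pr j x = pr j y) : x = y := by
  obtain ⟨x1, x2, x3⟩ := x
  obtain ⟨y1, y2, y3⟩ := y
  fin_cases i <;> fin_cases j <;> simp_all [pr]

/-- the four vertices of the edge given by a triple -/
def incT (x : ℕ × ℕ × ℕ) : Finset ((ℕ × ℕ) × Fin 4) := Finset.univ.image (fun i => (pr i x, i))

theorem mem_incT {x : ℕ × ℕ × ℕ} {w : ℕ × ℕ} {i : Fin 4} : (w, i) ∈ incT x ↔ pr i x = w := by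
  unfold incT
  rw [Finset.mem_image]
  constructor
  · rintro ⟨j, _, h⟩
    rw [Prod.mk.injEq] at h
    rw [← h.2]
    exact h.1
  · intro h
    exact ⟨i, Finset.mem_univ _, by rw [h]⟩

theorem card_incT (x : ℕ × ℕ × ℕ) : (incT x).card = 4 := by
  unfold incT
  rw [Finset.card_image_of_injective]
  · simp
  · intro i j h
    exact (Prod.mk.inj h).2

theorem lin_incT (e f : ℕ × ℕ × ℕ) (hef : e ≠ f) : (incT e ∩ incT f).card ≤ 1 := by
  rw [Finset.card_le_one]
  rintro ⟨w, i⟩ h1 ⟨w', j⟩ h2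
  rw [Finset.mem_inter, mem_incT, mem_incT] at h1 h2
  by_cases hij : i = j
  · subst hij
    rw [← h1.1, ← h2.1]
  · exact absurd (pr_inj2 hij (h1.1.trans h1.2.symm) (h2.1.trans h2.2.symm)) hef

/-- interval of integers of length `a` -/
def Ib (a : ℕ) : Finset ℕ := Finset.Ico a (2 * a)

theorem card_Ib (a : ℕ) : (Ib a).card = a := by
  unfold Ib
  rw [Nat.card_Ico]
  omega

theorem mem_Ib {a x : ℕ} : x ∈ Ib a ↔ a ≤ x ∧ x < 2 * a := by
  unfold Ib; exact Finset.mem_Ico

/-- the triples -/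
def VV (a b c : ℕ) : Finset (ℕ × ℕ × ℕ) :=
  (Ib a ×ˢ Ib b ×ˢ Ib c).filter (fun x => x.1 + x.2.1 < 2 * b ∧ x.2.1 + x.2.2 < 2 * c)

theorem mem_VV {a b c : ℕ} {x : ℕ × ℕ × ℕ} : x ∈ VV a b c ↔
    ((a ≤ x.1 ∧ x.1 < 2 * a) ∧ (b ≤ x.2.1 ∧ x.2.1 < 2 * b) ∧ (c ≤ x.2.2 ∧ x.2.2 < 2 * c)) ∧
      x.1 + x.2.1 < 2 * b ∧ x.2.1 + x.2.2 < 2 * c := by
  unfold VV
  rw [Finset.mem_filter, Finset.mem_product, Finset.mem_product, mem_Ib, mem_Ib, mem_Ib]

/-- the regions of the four kinds of pairs -/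
def reg (a b c : ℕ) : Fin 4 → Finset (ℕ × ℕ)
  | 0 => Ib a ×ˢ Ib b
  | 1 => Ib b ×ˢ Ib c
  | 2 => Ib b ×ˢ Ib c
  | 3 => Ib a ×ˢ Ib c

/-- the size of the free coordinate -/
def Bc (a b c : ℕ) : Fin 4 → ℕ
  | 0 => c
  | 1 => a
  | 2 => a
  | 3 => b

theorem pr_mem_reg {a b c : ℕ} {x : ℕ × ℕ × ℕ} (hx : x ∈ VV a b c)
    (i : Fin 4) : pr i x ∈ reg a b c i := by
  rw [mem_VV] at hx
  fin_cases i <;> simp only [pr, reg, Finset.mem_product, mem_Ib] <;> omega

theorem pr_ne {a b c : ℕ} (ha : 0 < a) (hab : 2 * a ≤ b) (hbc : 2 * b ≤ c)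
    {x y : ℕ × ℕ × ℕ} (hx : x ∈ VV a b c) (hy : y ∈ VV a b c) {i : Fin 4} (h : pr i x = pr i y)
    {j j' : Fin 4} (hj : j ≠ j') : pr j x ≠ pr j' y := by
  obtain ⟨x1, x2, x3⟩ := x
  obtain ⟨y1, y2, y3⟩ := y
  rw [mem_VV] at hx hy
  simp only at hx hy
  fin_cases j <;> fin_cases j' <;> first | exact absurd rfl hj | skip
  all_goals
    fin_cases i <;> simp only [pr, Prod.mk.injEq, ne_eq] at h ⊢ <;> omega

/-- the fibre of `pr i` over `w` -/
def Fb (a b c : ℕ) (i : Fin 4) (w : ℕ × ℕ) : Finset (ℕ × ℕ × ℕ) :=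
  (VV a b c).filter (fun x => pr i x = w)

theorem card_Fb_le (a b c : ℕ) (i : Fin 4) (w : ℕ × ℕ) : (Fb a b c i w).card ≤ Bc a b c i := by
  have key : ∀ (f : ℕ × ℕ × ℕ → ℕ) (d : ℕ), (∀ x ∈ Fb a b c i w, f x ∈ Ib d) →
      (∀ x ∈ Fb a b c i w, ∀ y ∈ Fb a b c i w, f x = f y → x = y) →
      (Fb a b c i w).card ≤ d := by
    intro f d h1 h2
    have := Finset.card_le_card_of_injOn (s := Fb a b c i w) (t := Ib d) f h1
      (fun x hx y hy h => h2 x hx y hy h)
    rwa [card_Ib] at this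
  obtain ⟨w1, w2⟩ := w
  fin_cases i
  · apply key (fun x => x.2.2) c
    · intro x hx
      unfold Fb at hx
      rw [Finset.mem_filter, mem_VV] at hx
      rw [mem_Ib]; exact hx.1.1.2.2
    · rintro ⟨x1, x2, x3⟩ hx ⟨y1, y2, y3⟩ hy h
      unfold Fb at hx hy
      rw [Finset.mem_filter] at hx hy
      simp_all [pr]
  · apply key (fun x => x.1) a
    · intro x hx
      unfold Fb at hx
      rw [Finset.mem_filter, mem_VV] at hx
      rw [mem_Ib]; exact hx.1.1.1
    · rintro ⟨x1, x2, x3⟩ hx ⟨y1, y2, y3⟩ hy h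
      unfold Fb at hx hy
      rw [Finset.mem_filter] at hx hy
      simp_all [pr]
  · apply key (fun x => x.1) a
    · intro x hx
      unfold Fb at hx
      rw [Finset.mem_filter, mem_VV] at hx
      rw [mem_Ib]; exact hx.1.1.1
    · rintro ⟨x1, x2, x3⟩ hx ⟨y1, y2, y3⟩ hy h
      unfold Fb at hx hy
      rw [Finset.mem_filter] at hx hy
      simp only [pr, Prod.mk.injEq] at hx hy h ⊢
      omega
  · apply key (fun x => x.2.1) b
    · intro x hx
      unfold Fb at hx
      rw [Finset.mem_filter, mem_VV] at hx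
      rw [mem_Ib]; exact hx.1.1.2.1
    · rintro ⟨x1, x2, x3⟩ hx ⟨y1, y2, y3⟩ hy h
      unfold Fb at hx hy
      rw [Finset.mem_filter] at hx hy
      simp only [pr, Prod.mk.injEq] at hx hy h ⊢
      omega

/-- the other three pairs of a triple -/
def Ab (i : Fin 4) (x : ℕ × ℕ × ℕ) : Finset (ℕ × ℕ) := (Finset.univ.erase i).image (fun j => pr j x)

/-- the vertices of the random hypergraph -/
def XS (a b c : ℕ) (S : Finset (ℕ × ℕ)) : Finset ((ℕ × ℕ) × Fin 4) :=
  Finset.univ.biUnion (fun i : Fin 4 => ((reg a b c i).filter (fun w => w ∈ S)) ×ˢ {i})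

/-- the edges of the random hypergraph -/
def ES (a b c : ℕ) (S : Finset (ℕ × ℕ)) : Finset (ℕ × ℕ × ℕ) :=
  (VV a b c).filter (fun x => ∀ i, pr i x ∈ S)

theorem mem_XS {a b c : ℕ} {S : Finset (ℕ × ℕ)} {w : ℕ × ℕ} {i : Fin 4} :
    (w, i) ∈ XS a b c S ↔ w ∈ reg a b c i ∧ w ∈ S := by
  unfold XS
  rw [Finset.mem_biUnion]
  constructor
  · rintro ⟨j, _, h⟩
    rw [Finset.mem_product, Finset.mem_filter, Finset.mem_singleton] at h
    obtain ⟨h1, h2⟩ := h
    simp only at h1 h2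
    subst h2
    exact h1
  · rintro h
    refine ⟨i, Finset.mem_univ _, ?_⟩
    rw [Finset.mem_product, Finset.mem_filter, Finset.mem_singleton]
    exact ⟨h, rfl⟩

theorem sum_XS (a b c : ℕ) (S : Finset (ℕ × ℕ)) (f : (ℕ × ℕ) × Fin 4 → ℝ) :
    ∑ q ∈ XS a b c S, f q = ∑ i : Fin 4, ∑ w ∈ reg a b c i, if w ∈ S then f (w, i) else 0 := by
  unfold XS
  rw [Finset.sum_biUnion]
  · apply Finset.sum_congr rfl
    intro i _
    rw [Finset.sum_product, ← Finset.sum_filter]
    apply Finset.sum_congr rfl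
    intro w _
    rw [Finset.sum_singleton]
  · intro i _ j _ hij
    show Disjoint _ _
    rw [Finset.disjoint_left]
    rintro ⟨w, l⟩ h1 h2
    rw [Finset.mem_product, Finset.mem_singleton] at h1 h2
    exact hij (h1.2.symm.trans h2.2)

theorem incT_subset_XS {a b c : ℕ} {S : Finset (ℕ × ℕ)} {e : ℕ × ℕ × ℕ} (he : e ∈ ES a b c S) :
    incT e ⊆ XS a b c S := by
  rintro ⟨w, i⟩ h
  rw [mem_incT] at h
  unfold ES at he
  rw [Finset.mem_filter] at he
  rw [mem_XS, ← h]
  exact ⟨pr_mem_reg he.1 i, he.2 i⟩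

theorem star_ES {a b c : ℕ} {S : Finset (ℕ × ℕ)} {w : ℕ × ℕ} (hw : w ∈ S) (i : Fin 4) :
    star incT (ES a b c S) (w, i) = (Fb a b c i w).filter (fun x => Ab i x ⊆ S) := by
  ext x
  rw [mem_star, mem_incT, Finset.mem_filter]
  unfold ES Fb Ab
  rw [Finset.mem_filter, Finset.mem_filter]
  constructor
  · rintro ⟨⟨h1, h2⟩, h3⟩
    refine ⟨⟨h1, h3⟩, ?_⟩
    intro u hu
    rw [Finset.mem_image] at hu
    obtain ⟨j, _, rfl⟩ := hu
    exact h2 j
  · rintro ⟨⟨h1, h3⟩, h2⟩
    refine ⟨⟨h1, ?_⟩, h3⟩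
    intro j
    by_cases hj : j = i
    · subst hj
      rw [h3]; exact hw
    · exact h2 (Finset.mem_image.mpr ⟨j, Finset.mem_erase.mpr ⟨hj, Finset.mem_univ _⟩, rfl⟩)

theorem Ex_L2 {U : Finset (ℕ × ℕ)} {p : ℕ × ℕ → ℝ} {a b c : ℕ} (ha : 0 < a) (hab : 2 * a ≤ b)
    (hbc : 2 * b ≤ c) (hU : ∀ i, reg a b c i ⊆ U) {P : Fin 4 → ℝ} (hP0 : ∀ i, 0 ≤ P i)
    (hP : ∀ i, ∀ w ∈ reg a b c i, p w = P i) {D N : ℝ}
    (hD : ∀ i, (Bc a b c i : ℝ) * ∏ j ∈ Finset.univ.erase i, P j = D)
    (hN : ∀ i, P i * (reg a b c i).card = N) :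
    Ex U p (fun S => ∑ q ∈ XS a b c S, (((star incT (ES a b c S) q).card : ℝ) - D) ^ 2)
      ≤ 4 * (N * D + D * (N * D - (∏ j, P j) * (VV a b c).card)) := by
  have hPP : ∀ i, P i * ∏ j ∈ Finset.univ.erase i, P j = ∏ j, P j := by
    intro i
    exact Finset.mul_prod_erase Finset.univ P (Finset.mem_univ i)
  have hr0 : ∀ i, 0 ≤ ∏ j ∈ Finset.univ.erase i, P j := fun i => Finset.prod_nonneg (fun j _ => hP0 j)
  have hD0 : 0 ≤ D := by
    rw [← hD 0]
    exact mul_nonneg (Nat.cast_nonneg _) (hr0 0)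
  have h1 : ∀ S, S ⊆ U → ∑ q ∈ XS a b c S, (((star incT (ES a b c S) q).card : ℝ) - D) ^ 2
      = ∑ i : Fin 4, ∑ w ∈ reg a b c i, if ({w} : Finset (ℕ × ℕ)) ⊆ S then
          ((((Fb a b c i w).filter (fun x => Ab i x ⊆ S)).card : ℝ) - D) ^ 2 else 0 := by
    intro S _
    rw [sum_XS]
    apply Finset.sum_congr rfl
    intro i _
    apply Finset.sum_congr rfl
    intro w _
    by_cases hw : w ∈ S
    · rw [if_pos hw, if_pos (Finset.singleton_subset_iff.mpr hw), star_ES hw]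
    · rw [if_neg hw, if_neg (fun h => hw (Finset.singleton_subset_iff.mp h))]
  rw [Ex_congr h1, Ex_sum]
  have h2 : ∀ i : Fin 4, Ex U p (fun S => ∑ w ∈ reg a b c i, if ({w} : Finset (ℕ × ℕ)) ⊆ S then
          ((((Fb a b c i w).filter (fun x => Ab i x ⊆ S)).card : ℝ) - D) ^ 2 else 0)
      ≤ N * D + D * (N * D - (∏ j, P j) * (VV a b c).card) := by
    intro i
    rw [Ex_sum]
    set r : ℝ := ∏ j ∈ Finset.univ.erase i, P j with hr
    have hri := hr0 i
    rw [← hr] at hri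
    have h3 : ∀ w ∈ reg a b c i, Ex U p (fun S => if ({w} : Finset (ℕ × ℕ)) ⊆ S then
          ((((Fb a b c i w).filter (fun x => Ab i x ⊆ S)).card : ℝ) - D) ^ 2 else 0)
        ≤ P i * D ^ 2 + (P i * r * (1 - D)) * ((Fb a b c i w).card : ℝ) := by
      intro w hw
      have hVV : ∀ x ∈ Fb a b c i w, x ∈ VV a b c ∧ pr i x = w := by
        intro x hx
        unfold Fb at hx
        exact Finset.mem_filter.mp hx
      rw [second_moment (U := U) p (A0 := {w}) (Finset.singleton_subset_iff.mpr (hU i hw))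
        (Fb a b c i w) (Ab i) (p0 := P i) (r := r)]
      · have hle : ((Fb a b c i w).card : ℝ) * r ≤ D := by
          rw [← hD i]
          exact mul_le_mul_of_nonneg_right (by exact_mod_cast card_Fb_le a b c i w) hri
        have hnn : 0 ≤ ((Fb a b c i w).card : ℝ) * r := mul_nonneg (Nat.cast_nonneg _) hri
        set m : ℝ := ((Fb a b c i w).card : ℝ) * r with hm
        have h4 : m * (1 - r) + (m - D) ^ 2 ≤ D ^ 2 + (1 - D) * m := by
          have h5 : 0 ≤ m * r := mul_nonneg hnn hri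
          have h6 : 0 ≤ m * (D - m) := mul_nonneg hnn (by linarith)
          nlinarith
        calc P i * (m * (1 - r) + (m - D) ^ 2) ≤ P i * (D ^ 2 + (1 - D) * m) :=
              mul_le_mul_of_nonneg_left h4 (hP0 i)
          _ = P i * D ^ 2 + (P i * r * (1 - D)) * ((Fb a b c i w).card : ℝ) := by
              rw [hm]; ring
      · intro x hx
        obtain ⟨hx1, hx2⟩ := hVV x hx
        intro u hu
        unfold Ab at hu
        rw [Finset.mem_image] at hu
        obtain ⟨j, _, rfl⟩ := hu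
        exact hU j (pr_mem_reg hx1 j)
      · intro x hx y hy hxy
        obtain ⟨hx1, hx2⟩ := hVV x hx
        obtain ⟨hy1, hy2⟩ := hVV y hy
        rw [Finset.disjoint_left]
        intro u hu hv
        unfold Ab at hu hv
        rw [Finset.mem_image] at hu hv
        obtain ⟨j, hj, rfl⟩ := hu
        obtain ⟨j', hj', hjj⟩ := hv
        rw [Finset.mem_erase] at hj hj'
        by_cases h5 : j = j'
        · subst h5
          exact hxy (pr_inj2 hj.1 hjj.symm (hx2.trans hy2.symm))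
        · exact pr_ne ha hab hbc hx1 hy1 (hx2.trans hy2.symm) h5 hjj.symm
      · intro x hx
        obtain ⟨hx1, hx2⟩ := hVV x hx
        rw [Finset.disjoint_singleton_left]
        intro hu
        unfold Ab at hu
        rw [Finset.mem_image] at hu
        obtain ⟨j, hj, hjj⟩ := hu
        rw [Finset.mem_erase] at hj
        exact pr_ne ha hab hbc hx1 hx1 (i := i) rfl hj.1 (hjj.trans hx2.symm)
      · rw [Finset.prod_singleton]
        exact hP i w hw
      · intro x hx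
        obtain ⟨hx1, hx2⟩ := hVV x hx
        unfold Ab
        rw [Finset.prod_image]
        · rw [hr]
          apply Finset.prod_congr rfl
          intro j _
          exact hP j _ (pr_mem_reg hx1 j)
        · intro j _ j' _ hjj
          by_contra hne
          exact pr_ne ha hab hbc hx1 hx1 (i := i) rfl hne hjj
    have h4 : ∑ w ∈ reg a b c i, ((Fb a b c i w).card : ℝ) = (VV a b c).card := by
      have := Finset.card_eq_sum_card_fiberwise (s := VV a b c) (t := reg a b c i) (f := pr i)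
        (fun x hx => pr_mem_reg hx i)
      rw [this]
      push_cast
      rfl
    have h5 := hN i
    have h6 : (∏ j, P j) * (VV a b c).card ≤ N * D := by
      rw [← hPP i, ← h4, ← h5, Finset.mul_sum]
      calc ∑ w ∈ reg a b c i, (P i * ∏ j ∈ Finset.univ.erase i, P j) * ((Fb a b c i w).card : ℝ)
          ≤ ∑ w ∈ reg a b c i, P i * D := by
            apply Finset.sum_le_sum
            intro w _
            have hle : ((Fb a b c i w).card : ℝ) * r ≤ D := by
              rw [← hD i]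
              exact mul_le_mul_of_nonneg_right (by exact_mod_cast card_Fb_le a b c i w) hri
            calc (P i * ∏ j ∈ Finset.univ.erase i, P j) * ((Fb a b c i w).card : ℝ)
                = P i * (((Fb a b c i w).card : ℝ) * r) := by rw [hr]; ring
              _ ≤ P i * D := mul_le_mul_of_nonneg_left hle (hP0 i)
        _ = P i * (reg a b c i).card * D := by
            rw [Finset.sum_const, nsmul_eq_mul]; ring
    refine (Finset.sum_le_sum h3).trans ?_
    have h7 : ∑ w ∈ reg a b c i, (P i * r * (1 - D)) * ((Fb a b c i w).card : ℝ)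
        = (∏ j, P j) * (1 - D) * (VV a b c).card := by
      rw [← Finset.mul_sum, h4, hr, hPP i]
    rw [Finset.sum_add_distrib, h7, Finset.sum_const, nsmul_eq_mul]
    calc ((reg a b c i).card : ℝ) * (P i * D ^ 2) + (∏ j, P j) * (1 - D) * (VV a b c).card
        = (P i * (reg a b c i).card) * D ^ 2 + (∏ j, P j) * (1 - D) * (VV a b c).card := by ring
      _ = N * D ^ 2 + (∏ j, P j) * (1 - D) * (VV a b c).card := by rw [h5]
      _ = (∏ j, P j) * (VV a b c).card + D * (N * D - (∏ j, P j) * (VV a b c).card) := by ring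
      _ ≤ _ := by linarith
  calc ∑ i : Fin 4, Ex U p (fun S => ∑ w ∈ reg a b c i, if ({w} : Finset (ℕ × ℕ)) ⊆ S then
          ((((Fb a b c i w).filter (fun x => Ab i x ⊆ S)).card : ℝ) - D) ^ 2 else 0)
      ≤ ∑ i : Fin 4, (N * D + D * (N * D - (∏ j, P j) * (VV a b c).card)) :=
        Finset.sum_le_sum (fun i _ => h2 i)
    _ = _ := by
        rw [Finset.sum_const, nsmul_eq_mul]
        simp

end Pool.Agent.Helper42
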