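import Pool.Agent.Helper42.Levels

/-!
Geometric levels.
-/

set_option autoImplicit false
set_option linter.unusedSectionVars false
set_option linter.unusedVariables false

namespace Pool.Agent.Helper42

/-- `K` to the level of `u` -/
noncomputable def gl (K C u : ℕ) : ℝ := (K : ℝ) ^ (Nat.log K (u / C))

/-- the probability of the pair `w` -/
noncomputable def pp (K C : ℕ) (w : ℕ × ℕ) : ℝ := 1 / (gl K C w.1 * gl K C w.2)

theorem gl_pos {K C u : ℕ} (hK : 0 < K) : 0 < gl K C u := by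
  unfold gl; positivity

theorem one_le_gl {K C u : ℕ} (hK : 1 ≤ K) : 1 ≤ gl K C u := by
  unfold gl
  apply one_le_pow₀
  exact_mod_cast hK

theorem pp_nonneg {K C : ℕ} (hK : 0 < K) (w : ℕ × ℕ) : 0 ≤ pp K C w := by
  unfold pp
  have := gl_pos (C := C) (u := w.1) hK
  have := gl_pos (C := C) (u := w.2) hK
  positivity

theorem pp_le_one {K C : ℕ} (hK : 1 ≤ K) (w : ℕ × ℕ) : pp K C w ≤ 1 := by
  unfold pp
  have h1 := one_le_gl (C := C) (u := w.1) hK
  have h2 := one_le_gl (C := C) (u := w.2) hK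
  rw [div_le_one (by positivity)]
  nlinarith

theorem gl_level {K C y u : ℕ} (hK : 2 ≤ K) (hC : 0 < C) (hu : u ∈ Ib (C * K ^ y)) :
    gl K C u = (K : ℝ) ^ y := by
  unfold gl
  congr 1
  rw [mem_Ib] at hu
  have h1 : K ^ y ≤ u / C := by
    rw [Nat.le_div_iff_mul_le hC, mul_comm]
    exact hu.1
  have h2 : u / C < K ^ (y + 1) := by
    rw [Nat.div_lt_iff_lt_mul hC]
    calc u < 2 * (C * K ^ y) := hu.2
      _ ≤ K * (C * K ^ y) := Nat.mul_le_mul_right _ hK
      _ = K ^ (y + 1) * C := by ring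
  exact Nat.log_eq_of_pow_le_of_lt_pow h1 h2

theorem Ib_level_unique {K C y y' u : ℕ} (hK : 2 ≤ K) (hC : 0 < C) (hu : u ∈ Ib (C * K ^ y))
    (hu' : u ∈ Ib (C * K ^ y')) : y = y' := by
  have h1 := gl_level hK hC hu
  have h2 := gl_level hK hC hu'
  rw [h1] at h2
  have h3 : K ^ y = K ^ y' := by exact_mod_cast h2
  exact Nat.pow_right_injective hK h3

/-- the value of the probability on the four regions -/
noncomputable def PP (α β γ : ℝ) : Fin 4 → ℝ
  | 0 => 1 / (α * β)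
  | 1 => 1 / (β * γ)
  | 2 => 1 / (β * γ)
  | 3 => 1 / (α * γ)

theorem card_VV_ge (a b c : ℕ) (hab : 2 * a ≤ b) (hbc : 2 * b ≤ c) :
    a * (b - 2 * a) * (c - 2 * b) ≤ (VV a b c).card := by
  have h1 : Ib a ×ˢ Finset.Ico b (2 * b - 2 * a) ×ˢ Finset.Ico c (2 * c - 2 * b) ⊆ VV a b c := by
    rintro ⟨x1, x2, x3⟩ hx
    rw [Finset.mem_product, Finset.mem_product, mem_Ib, Finset.mem_Ico, Finset.mem_Ico] at hx
    rw [mem_VV]
    simp only at hx ⊢
    omega
  have h2 := Finset.card_le_card h1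
  rw [Finset.card_product, Finset.card_product, card_Ib, Nat.card_Ico, Nat.card_Ico] at h2
  calc a * (b - 2 * a) * (c - 2 * b) = a * ((2 * b - 2 * a - b) * (2 * c - 2 * b - c)) := by
        rw [mul_assoc]
        congr 2 <;> omega
    _ ≤ _ := h2

theorem Ex_L2_levels {U : Finset (ℕ × ℕ)} {K C y1 y2 y3 : ℕ} (hK : 2 ≤ K) (hC : 0 < C)
    (h12 : y1 < y2) (h23 : y2 < y3)
    (hU : ∀ i, reg (C * K ^ y1) (C * K ^ y2) (C * K ^ y3) i ⊆ U) :
    Ex U (pp K C) (fun S => ∑ q ∈ XS (C * K ^ y1) (C * K ^ y2) (C * K ^ y3) S,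
      (((star incT (ES (C * K ^ y1) (C * K ^ y2) (C * K ^ y3) S) q).card : ℝ)
        - C / ((K : ℝ) ^ y1 * (K : ℝ) ^ (2 * y2) * (K : ℝ) ^ (2 * y3))) ^ 2)
      ≤ 4 * ((C : ℝ) ^ 2 * (C / ((K : ℝ) ^ y1 * (K : ℝ) ^ (2 * y2) * (K : ℝ) ^ (2 * y3)))
        * (1 + 4 / K * (C / ((K : ℝ) ^ y1 * (K : ℝ) ^ (2 * y2) * (K : ℝ) ^ (2 * y3))))) := by
  set α : ℝ := (K : ℝ) ^ y1 with hα
  set β : ℝ := (K : ℝ) ^ y2 with hβ
  set γ : ℝ := (K : ℝ) ^ y3 with hγ
  have hKr : (2 : ℝ) ≤ K := by exact_mod_cast hK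
  have hCr : (0 : ℝ) < C := by exact_mod_cast hC
  have hα0 : 0 < α := by positivity
  have hβ0 : 0 < β := by positivity
  have hγ0 : 0 < γ := by positivity
  have hb2 : (K : ℝ) ^ (2 * y2) = β ^ 2 := by rw [hβ, ← pow_mul, mul_comm]
  have hc2 : (K : ℝ) ^ (2 * y3) = γ ^ 2 := by rw [hγ, ← pow_mul, mul_comm]
  rw [hb2, hc2]
  set D : ℝ := C / (α * β ^ 2 * γ ^ 2) with hD
  have hD0 : 0 < D := by positivity
  have hKab : K * (C * K ^ y1) ≤ C * K ^ y2 := by
    calc K * (C * K ^ y1) = C * K ^ (y1 + 1) := by ring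
      _ ≤ C * K ^ y2 := Nat.mul_le_mul_left _ (Nat.pow_le_pow_right (by omega) h12)
  have hKbc : K * (C * K ^ y2) ≤ C * K ^ y3 := by
    calc K * (C * K ^ y2) = C * K ^ (y2 + 1) := by ring
      _ ≤ C * K ^ y3 := Nat.mul_le_mul_left _ (Nat.pow_le_pow_right (by omega) h23)
  have hab : 2 * (C * K ^ y1) ≤ C * K ^ y2 := (Nat.mul_le_mul_right _ hK).trans hKab
  have hbc : 2 * (C * K ^ y2) ≤ C * K ^ y3 := (Nat.mul_le_mul_right _ hK).trans hKbc
  have ha : 0 < C * K ^ y1 := by positivity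
  have hmain := Ex_L2 (U := U) (p := pp K C) (P := PP α β γ) ha hab hbc hU
    (by intro i; fin_cases i <;> simp only [PP] <;> positivity)
    (by
      intro i w hw
      unfold pp
      fin_cases i <;> simp only [PP, reg, Finset.mem_product] at hw ⊢ <;>
        rw [gl_level hK hC hw.1, gl_level hK hC hw.2])
    (D := D) (N := (C : ℝ) ^ 2)
    (by
      intro i
      fin_cases i
      · have : (Finset.univ.erase (0 : Fin 4)) = {1, 2, 3} := by decide
        simp only [Bc]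
        show ((C * K ^ y3 : ℕ) : ℝ) * ∏ j ∈ Finset.univ.erase (0 : Fin 4), PP α β γ j = D
        rw [this, Finset.prod_insert (by decide), Finset.prod_insert (by decide),
          Finset.prod_singleton]
        simp only [PP]
        push_cast
        rw [hD, ← hγ]
        field_simp
      · have : (Finset.univ.erase (1 : Fin 4)) = {0, 2, 3} := by decide
        simp only [Bc]
        show ((C * K ^ y1 : ℕ) : ℝ) * ∏ j ∈ Finset.univ.erase (1 : Fin 4), PP α β γ j = D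
        rw [this, Finset.prod_insert (by decide), Finset.prod_insert (by decide),
          Finset.prod_singleton]
        simp only [PP]
        push_cast
        rw [hD, ← hα]
        field_simp
      · have : (Finset.univ.erase (2 : Fin 4)) = {0, 1, 3} := by decide
        simp only [Bc]
        show ((C * K ^ y1 : ℕ) : ℝ) * ∏ j ∈ Finset.univ.erase (2 : Fin 4), PP α β γ j = D
        rw [this, Finset.prod_insert (by decide), Finset.prod_insert (by decide),
          Finset.prod_singleton]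
        simp only [PP]
        push_cast
        rw [hD, ← hα]
        field_simp
      · have : (Finset.univ.erase (3 : Fin 4)) = {0, 1, 2} := by decide
        simp only [Bc]
        show ((C * K ^ y2 : ℕ) : ℝ) * ∏ j ∈ Finset.univ.erase (3 : Fin 4), PP α β γ j = D
        rw [this, Finset.prod_insert (by decide), Finset.prod_insert (by decide),
          Finset.prod_singleton]
        simp only [PP]
        push_cast
        rw [hD, ← hβ]
        field_simp)
    (by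
      intro i
      fin_cases i <;> simp only [PP, reg, Finset.card_product, card_Ib] <;> push_cast <;>
        simp only [← hα, ← hβ, ← hγ] <;> field_simp)
  refine hmain.trans ?_
  have hP4 : ∏ j, PP α β γ j = 1 / (α ^ 2 * β ^ 3 * γ ^ 3) := by
    rw [Fin.prod_univ_four]
    simp only [PP]
    field_simp
  rw [hP4]
  -- lower bound for VV
  have hVV : (C : ℝ) ^ 3 * (α * β * γ) * (1 - 4 / K) ≤
      (VV (C * K ^ y1) (C * K ^ y2) (C * K ^ y3)).card := by
    have h1 := card_VV_ge (C * K ^ y1) (C * K ^ y2) (C * K ^ y3) hab hbc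
    have h2 : (((C * K ^ y1) * (C * K ^ y2 - 2 * (C * K ^ y1)) * (C * K ^ y3 - 2 * (C * K ^ y2)) : ℕ) : ℝ)
        ≤ (VV (C * K ^ y1) (C * K ^ y2) (C * K ^ y3)).card := by exact_mod_cast h1
    rw [Nat.cast_mul, Nat.cast_mul, Nat.cast_sub hab, Nat.cast_sub hbc] at h2
    push_cast at h2
    rw [← hα, ← hβ, ← hγ] at h2
    refine le_trans ?_ h2
    have h3 : (K : ℝ) * (C * α) ≤ C * β := by
      have : ((K * (C * K ^ y1) : ℕ) : ℝ) ≤ ((C * K ^ y2 : ℕ) : ℝ) := by exact_mod_cast hKab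
      push_cast at this
      exact this
    have h4 : (K : ℝ) * (C * β) ≤ C * γ := by
      have : ((K * (C * K ^ y2) : ℕ) : ℝ) ≤ ((C * K ^ y3 : ℕ) : ℝ) := by exact_mod_cast hKbc
      push_cast at this
      exact this
    have h5 : C * β * (1 - 2 / K) ≤ C * β - 2 * (C * α) := by
      have : (C : ℝ) * α ≤ C * β / K := by
        rw [le_div_iff₀ (by positivity)]; linarith
      have h6 : C * β * (1 - 2 / K) = C * β - 2 * (C * β / K) := by ring
      linarith
    have h6 : C * γ * (1 - 2 / K) ≤ C * γ - 2 * (C * β) := by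
      have : (C : ℝ) * β ≤ C * γ / K := by
        rw [le_div_iff₀ (by positivity)]; linarith
      have h6 : C * γ * (1 - 2 / K) = C * γ - 2 * (C * γ / K) := by ring
      linarith
    have h7 : (0:ℝ) ≤ 1 - 2 / K := by
      rw [sub_nonneg, div_le_one (by positivity)]; exact hKr
    have h8 : (C * β * (1 - 2 / K)) * (C * γ * (1 - 2 / K))
        ≤ (C * β - 2 * (C * α)) * (C * γ - 2 * (C * β)) := by
      apply mul_le_mul h5 h6 (by positivity)
      exact le_trans (by positivity) h5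
    have h9 : (C : ℝ) ^ 3 * (α * β * γ) * (1 - 4 / K)
        ≤ C * α * ((C * β * (1 - 2 / K)) * (C * γ * (1 - 2 / K))) := by
      have h10 : C * α * ((C * β * (1 - 2 / K)) * (C * γ * (1 - 2 / K)))
          = (C : ℝ) ^ 3 * (α * β * γ) * (1 - 4 / K) + (C : ℝ) ^ 3 * (α * β * γ) * (2 / K) ^ 2 := by
        ring
      rw [h10]
      have : 0 ≤ (C : ℝ) ^ 3 * (α * β * γ) * (2 / K) ^ 2 := by positivity
      linarith
    refine h9.trans ?_
    calc C * α * ((C * β * (1 - 2 / K)) * (C * γ * (1 - 2 / K)))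
        ≤ C * α * ((C * β - 2 * (C * α)) * (C * γ - 2 * (C * β))) :=
          mul_le_mul_of_nonneg_left h8 (by positivity)
      _ = C * α * (C * β - 2 * (C * α)) * (C * γ - 2 * (C * β)) := by ring
  have h1 : (C : ℝ) ^ 2 * D * (1 - 4 / K)
      ≤ 1 / (α ^ 2 * β ^ 3 * γ ^ 3) * (VV (C * K ^ y1) (C * K ^ y2) (C * K ^ y3)).card := by
    calc (C : ℝ) ^ 2 * D * (1 - 4 / K)
        = 1 / (α ^ 2 * β ^ 3 * γ ^ 3) * ((C : ℝ) ^ 3 * (α * β * γ) * (1 - 4 / K)) := by
          rw [hD]; field_simp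
      _ ≤ _ := mul_le_mul_of_nonneg_left hVV (by positivity)
  have h2 : D * ((C : ℝ) ^ 2 * D - 1 / (α ^ 2 * β ^ 3 * γ ^ 3)
      * (VV (C * K ^ y1) (C * K ^ y2) (C * K ^ y3)).card) ≤ D * ((C : ℝ) ^ 2 * D * (4 / K)) := by
    apply mul_le_mul_of_nonneg_left _ hD0.le
    linarith
  nlinarith

theorem Ex_conc {U : Finset (ℕ × ℕ)} {K C y1 y2 : ℕ} (hK : 2 ≤ K) (hC : 0 < C)
    (hU : Ib (C * K ^ y1) ×ˢ Ib (C * K ^ y2) ⊆ U) :
    Ex U (pp K C) (fun S => ((((Ib (C * K ^ y1) ×ˢ Ib (C * K ^ y2)).filter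
      (fun w => w ∈ S)).card : ℝ) - (C : ℝ) ^ 2) ^ 2) ≤ (C : ℝ) ^ 2 := by
  have hKr : (2 : ℝ) ≤ K := by exact_mod_cast hK
  have hCr : (0 : ℝ) < C := by exact_mod_cast hC
  have h := second_moment (U := U) (pp K C) (A0 := ∅) (Finset.empty_subset _)
    (Ib (C * K ^ y1) ×ˢ Ib (C * K ^ y2)) (fun w => {w})
    (fun w hw => Finset.singleton_subset_iff.mpr (hU hw))
    (fun w _ w' _ hww => Finset.disjoint_singleton.mpr hww)
    (fun w _ => Finset.disjoint_empty_left _) (p0 := 1)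
    (r := 1 / ((K : ℝ) ^ y1 * (K : ℝ) ^ y2)) (by simp)
    (by
      intro w hw
      rw [Finset.mem_product] at hw
      rw [Finset.prod_singleton]
      unfold pp
      rw [gl_level hK hC hw.1, gl_level hK hC hw.2])
    ((C : ℝ) ^ 2)
  have h1 : ∀ S, S ⊆ U → (if (∅ : Finset (ℕ × ℕ)) ⊆ S then
      ((((Ib (C * K ^ y1) ×ˢ Ib (C * K ^ y2)).filter (fun t => ({t} : Finset (ℕ × ℕ)) ⊆ S)).card : ℝ)
        - (C : ℝ) ^ 2) ^ 2 else 0)
      = ((((Ib (C * K ^ y1) ×ˢ Ib (C * K ^ y2)).filter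
      (fun w => w ∈ S)).card : ℝ) - (C : ℝ) ^ 2) ^ 2 := by
    intro S _
    rw [if_pos (Finset.empty_subset _)]
    simp only [Finset.singleton_subset_iff]
  rw [Ex_congr h1] at h
  rw [h, Finset.card_product, card_Ib, card_Ib]
  push_cast
  have h2 : (C : ℝ) * (K : ℝ) ^ y1 * (C * (K : ℝ) ^ y2) * (1 / ((K : ℝ) ^ y1 * (K : ℝ) ^ y2))
      = (C : ℝ) ^ 2 := by
    field_simp
  rw [h2]
  have h3 : 0 ≤ (C : ℝ) ^ 2 * (1 / ((K : ℝ) ^ y1 * (K : ℝ) ^ y2)) := by positivity
  nlinarith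

end Pool.Agent.Helper42
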