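import Pool.Agent.Helper42.Nibble3

/-!
The near-perfect matching theorem (Frankl-Rödl, Pippenger) for linear `k`-uniform hypergraphs.
-/

set_option autoImplicit false
set_option linter.unusedSectionVars false
set_option linter.unusedVariables false

namespace Pool.Agent.Helper42

variable {ι κ : Type*} [DecidableEq ι] [DecidableEq κ]

/-- all nearly `D`-regular (in the `L²` sense) finite sub-hypergraphs with `D` large have a
matching missing at most a proportion `c` of the vertices -/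
def NibbleP (inc : κ → Finset ι) (k : ℕ) (c : ℝ) : Prop :=
  ∃ δ : ℝ, 0 < δ ∧ ∃ D0 : ℝ, 0 < D0 ∧ ∀ (X : Finset ι) (E : Finset κ) (D : ℝ), D0 ≤ D →
    (∀ e ∈ E, inc e ⊆ X) →
    ∑ x ∈ X, (((star inc E x).card : ℝ) - D) ^ 2 ≤ δ * D ^ 2 * X.card →
    ∃ M, M ⊆ E ∧ (∀ e ∈ M, ∀ f ∈ M, e ≠ f → Disjoint (inc e) (inc f)) ∧
      (X.card : ℝ) - k * M.card ≤ c * X.card

theorem NibbleP.mono {inc : κ → Finset ι} {k : ℕ} {c c' : ℝ} (h : NibbleP inc k c) (hc : c ≤ c') :
    NibbleP inc k c' := by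
  obtain ⟨δ, hδ, D0, hD0, h⟩ := h
  refine ⟨δ, hδ, D0, hD0, fun X E D hD hX hL => ?_⟩
  obtain ⟨M, h1, h2, h3⟩ := h X E D hD hX hL
  exact ⟨M, h1, h2, h3.trans (mul_le_mul_of_nonneg_right hc (Nat.cast_nonneg _))⟩

theorem NibbleP_one (inc : κ → Finset ι) (k : ℕ) : NibbleP inc k 1 := by
  refine ⟨1, one_pos, 1, one_pos, fun X E D hD hX hL => ⟨∅, Finset.empty_subset _, ?_, ?_⟩⟩
  · intro e he
    simp at he
  · simp

theorem isol_disjoint (inc : κ → Finset ι) (S : Finset κ) :
    ∀ e ∈ isol inc S, ∀ f ∈ isol inc S, e ≠ f → Disjoint (inc e) (inc f) := by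
  intro e he f hf hef
  unfold isol at he hf
  rw [Finset.mem_filter] at he hf
  exact he.2 f hf.1 hef

theorem disj_surv (inc : κ → Finset ι) {X : Finset ι} {E S : Finset κ} (hS : S ⊆ E) {e : κ}
    (he : e ∈ S) : Disjoint (inc e) (surv inc X E S) := by
  rw [Finset.disjoint_left]
  intro u hu hus
  unfold surv at hus
  rw [Finset.mem_filter] at hus
  exact Finset.disjoint_left.mp hus.2 (mem_star.mpr ⟨hS he, hu⟩) he

theorem card_isol_surv (inc : κ → Finset ι) {k : ℕ} (hk : ∀ e, (inc e).card = k)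
    {X : Finset ι} {E S : Finset κ} (hX : ∀ e ∈ E, inc e ⊆ X) (hS : S ⊆ E) :
    (k : ℝ) * (isol inc S).card + (surv inc X E S).card ≤ X.card := by
  have h1 : ((isol inc S).biUnion inc).card = k * (isol inc S).card := by
    rw [Finset.card_biUnion]
    · simp [hk, mul_comm]
    · intro e he f hf hef
      exact isol_disjoint inc S e he f hf hef
  have h2 : Disjoint ((isol inc S).biUnion inc) (surv inc X E S) := by
    rw [Finset.disjoint_biUnion_left]
    intro e he
    unfold isol at he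
    exact disj_surv inc hS (Finset.mem_filter.mp he).1
  have h3 : (isol inc S).biUnion inc ∪ surv inc X E S ⊆ X := by
    apply Finset.union_subset
    · rw [Finset.biUnion_subset]
      intro e he
      unfold isol at he
      exact hX e (hS (Finset.mem_filter.mp he).1)
    · exact Finset.filter_subset _ _
  have h4 := Finset.card_le_card h3
  rw [Finset.card_union_of_disjoint h2, h1] at h4
  exact_mod_cast h4

theorem errG_tendsto (k : ℕ) (θ : ℝ) : Filter.Tendsto (fun s => errG k θ s) (nhds 0) (nhds 0) := by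
  have hcont : Continuous (fun s => errG k θ s) := by
    unfold errG
    fun_prop
  have h0 : errG k θ 0 = 0 := by
    unfold errG
    simp
    ring
  have := hcont.tendsto 0
  rwa [h0] at this

theorem NibbleP_step (inc : κ → Finset ι) {k : ℕ} (hk : ∀ e, (inc e).card = k) (hk1 : 1 ≤ k)
    (hlin : ∀ e f, e ≠ f → (inc e ∩ inc f).card ≤ 1)
    {c θ : ℝ} (hθ0 : 0 < θ) (hθ1 : θ ≤ 1) (hθ2 : 4 * k * θ ^ 2 ≤ 1) (hc0 : 0 ≤ c) (hc1 : c ≤ 1)
    (h : NibbleP inc k c) : NibbleP inc k (c - c * θ + 4 * k * θ ^ 2) := by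
  obtain ⟨δ', hδ', D0', hD0', h⟩ := h
  have hkr : (1 : ℝ) ≤ k := by exact_mod_cast hk1
  set q : ℝ := Real.exp (-(((k : ℝ) - 1) * θ)) with hq
  have hqpos : 0 < q := Real.exp_pos _
  set σ : ℝ := k * θ ^ 2 / 2 with hσ
  have hσpos : 0 < σ := by positivity
  set L : ℝ := 2 / (δ' * q ^ 2 * σ) with hL
  have hLpos : 0 < L := by positivity
  -- choice of s
  obtain ⟨s, hs0, hs1, hs2⟩ : ∃ s : ℝ, 0 < s ∧ s ≤ 1 / 2 ∧
      s * θ + L * (|errG k θ s| + 2 * s ^ 5 + 9 * k * s ^ 2) ≤ k * θ ^ 2 / 2 := by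
    have ht : Filter.Tendsto (fun s : ℝ => s * θ + L * (|errG k θ s| + 2 * s ^ 5 + 9 * k * s ^ 2))
        (nhds 0) (nhds 0) := by
      have h1 : Filter.Tendsto (fun s : ℝ => s * θ + L * (|errG k θ s| + 2 * s ^ 5 + 9 * k * s ^ 2))
          (nhds 0) (nhds (0 * θ + L * (|(0:ℝ)| + 2 * 0 ^ 5 + 9 * k * 0 ^ 2))) := by
        apply Filter.Tendsto.add
        · exact (Filter.tendsto_id).mul_const θ
        · apply Filter.Tendsto.const_mul
          apply Filter.Tendsto.add
          · apply Filter.Tendsto.add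
            · exact (errG_tendsto k θ).abs
            · exact ((continuous_pow 5).tendsto (0:ℝ)).const_mul 2
          · exact ((continuous_pow 2).tendsto (0:ℝ)).const_mul (9 * (k:ℝ))
      simpa using h1
    have h1 : ∀ᶠ s : ℝ in nhds 0,
        s * θ + L * (|errG k θ s| + 2 * s ^ 5 + 9 * k * s ^ 2) < k * θ ^ 2 / 2 :=
      ht.eventually_lt_const (by positivity)
    have h2 : ∀ᶠ s : ℝ in nhds 0, s < 1 / 2 := Filter.Tendsto.eventually_lt_const (by norm_num)
      Filter.tendsto_id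
    have h3 : ∀ᶠ s : ℝ in nhdsWithin 0 (Set.Ioi 0), s < 1 / 2 ∧
        s * θ + L * (|errG k θ s| + 2 * s ^ 5 + 9 * k * s ^ 2) < k * θ ^ 2 / 2 :=
      (h2.and h1).filter_mono nhdsWithin_le_nhds
    obtain ⟨s, hs, hs'⟩ := (h3.and self_mem_nhdsWithin).exists
    exact ⟨s, hs', hs.1.le, hs.2.le⟩
  refine ⟨s ^ 5, by positivity, max (1 / s) (D0' / q), by positivity, ?_⟩
  intro X E D hD hX hL2
  have hDs : 1 / s ≤ D := (le_max_left _ _).trans hD
  have hDq : D0' ≤ q * D := by
    have := (le_max_right (1 / s) (D0' / q)).trans hD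
    rw [div_le_iff₀ hqpos] at this
    linarith
  have hDpos : 0 < D := lt_of_lt_of_le (by positivity) hDs
  obtain ⟨S, hS, hbite⟩ := bite inc hk hk1 hlin hX hθ0 hθ1 hs0 hs1 hDs hc0 hc1 hLpos.le hL2
  rw [← hq] at hbite
  set F : ℝ := (X.card : ℝ) - k * (isol inc S).card - (1 - c) * (surv inc X E S).card with hF
  set Q : ℝ := ∑ x ∈ surv inc X E S, (((star inc (esurv inc X E S) x).card : ℝ) - q * D) ^ 2 with hQ
  have hXnn : (0:ℝ) ≤ X.card := Nat.cast_nonneg _
  have hsnn : (0:ℝ) ≤ (surv inc X E S).card := Nat.cast_nonneg _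
  have hQnn : 0 ≤ Q := Finset.sum_nonneg (fun _ _ => by positivity)
  have hFnn : 0 ≤ F := by
    have := card_isol_surv inc hk hX hS
    have h2 : 0 ≤ c * (surv inc X E S).card := mul_nonneg hc0 hsnn
    rw [hF]; linarith
  have hLQ : 0 ≤ L / D ^ 2 * Q := by positivity
  have hbound : (X.card : ℝ) * (c - c * θ + 3 * k * θ ^ 2 + s * θ
          + L * (|errG k θ s| + 2 * s ^ 5 + 9 * k * s ^ 2))
      ≤ X.card * (c - c * θ + 3 * k * θ ^ 2 + k * θ ^ 2 / 2) := by
    apply mul_le_mul_of_nonneg_left _ hXnn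
    linarith
  have hF2 : F ≤ X.card * (c - c * θ + 3 * k * θ ^ 2 + k * θ ^ 2 / 2) := by linarith
  have hQ2 : L / D ^ 2 * Q ≤ X.card * 2 := by
    have h1 : (X.card : ℝ) * (c - c * θ + 3 * k * θ ^ 2 + k * θ ^ 2 / 2) ≤ X.card * 2 := by
      apply mul_le_mul_of_nonneg_left _ hXnn
      have : 0 ≤ c * θ := mul_nonneg hc0 hθ0.le
      have h2 : 0 ≤ k * θ ^ 2 := by positivity
      linarith
    linarith
  by_cases hcase : σ * X.card ≤ (surv inc X E S).card
  · -- apply the induction hypothesis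
    have hQ3 : Q ≤ δ' * (q * D) ^ 2 * (surv inc X E S).card := by
      have h1 : Q ≤ X.card * 2 * (D ^ 2 / L) := by
        have h2 := mul_le_mul_of_nonneg_right hQ2 (by positivity : 0 ≤ D ^ 2 / L)
        have h3 : L / D ^ 2 * Q * (D ^ 2 / L) = Q := by field_simp
        rw [h3] at h2
        exact h2
      have h2 : (X.card : ℝ) * 2 * (D ^ 2 / L) = δ' * (q * D) ^ 2 * (σ * X.card) := by
        rw [hL]; field_simp
      rw [h2] at h1
      exact h1.trans (mul_le_mul_of_nonneg_left hcase (by positivity))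
    obtain ⟨M, hM1, hM2, hM3⟩ := h (surv inc X E S) (esurv inc X E S) (q * D) hDq
      (fun e he => (Finset.mem_filter.mp he).2) hQ3
    have hMsurv : ∀ e ∈ M, inc e ⊆ surv inc X E S := fun e he => (Finset.mem_filter.mp (hM1 he)).2
    have hIS : ∀ e ∈ isol inc S, Disjoint (inc e) (surv inc X E S) := by
      intro e he
      unfold isol at he
      exact disj_surv inc hS (Finset.mem_filter.mp he).1
    have hIM : ∀ e ∈ isol inc S, ∀ f ∈ M, Disjoint (inc e) (inc f) := by
      intro e he f hf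
      exact Finset.disjoint_of_subset_right (hMsurv f hf) (hIS e he)
    have hdisj : Disjoint (isol inc S) M := by
      rw [Finset.disjoint_left]
      intro e he1 he2
      have h1 := hIM e he1 e he2
      rw [disjoint_self, Finset.bot_eq_empty] at h1
      have h2 := hk e
      rw [h1, Finset.card_empty] at h2
      omega
    refine ⟨isol inc S ∪ M, ?_, ?_, ?_⟩
    · apply Finset.union_subset
      · exact (Finset.filter_subset _ _).trans hS
      · exact hM1.trans (Finset.filter_subset _ _)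
    · intro e he f hf hef
      rw [Finset.mem_union] at he hf
      rcases he with he | he
      · rcases hf with hf | hf
        · exact isol_disjoint inc S e he f hf hef
        · exact hIM e he f hf
      · rcases hf with hf | hf
        · exact (hIM f hf e he).symm
        · exact hM2 e he f hf hef
    · rw [Finset.card_union_of_disjoint hdisj]
      push_cast
      have h1 : (0:ℝ) ≤ k * θ ^ 2 / 2 * X.card := by positivity
      linarith
  · push Not at hcase
    refine ⟨isol inc S, (Finset.filter_subset _ _).trans hS, isol_disjoint inc S, ?_⟩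
    have h1 : (1 - c) * ((surv inc X E S).card : ℝ) ≤ 1 * (surv inc X E S).card :=
      mul_le_mul_of_nonneg_right (by linarith) hsnn
    rw [hσ] at hcase
    linarith

/-- **Near-perfect matchings in nearly regular linear hypergraphs.** -/
theorem nibble (inc : κ → Finset ι) {k : ℕ} (hk : ∀ e, (inc e).card = k) (hk1 : 1 ≤ k)
    (hlin : ∀ e f, e ≠ f → (inc e ∩ inc f).card ≤ 1) {c : ℝ} (hc : 0 < c) :
    NibbleP inc k c := by
  by_contra hcon
  have hkr : (1 : ℝ) ≤ k := by exact_mod_cast hk1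
  set A : Set ℝ := {c | NibbleP inc k c} with hA
  have hlow : ∀ a ∈ A, c ≤ a := by
    intro a ha
    by_contra h
    push Not at h
    exact hcon (NibbleP.mono ha h.le)
  have h1A : (1:ℝ) ∈ A := NibbleP_one inc k
  have hbdd : BddBelow A := ⟨c, hlow⟩
  have hne : A.Nonempty := ⟨1, h1A⟩
  set m := sInf A with hm
  have hmc : c ≤ m := le_csInf hne hlow
  have hmpos : 0 < m := lt_of_lt_of_le hc hmc
  have hm1 : m ≤ 1 := csInf_le hbdd h1A
  -- an element slightly above the infimum
  have hgap : m < m + m ^ 2 / (16 * k) := by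
    have : 0 < m ^ 2 / (16 * k) := by positivity
    linarith
  obtain ⟨a0, ha0, ha0'⟩ := exists_lt_of_csInf_lt hne hgap
  obtain ⟨a, ha, ha1, ha2, ha3⟩ : ∃ a, a ∈ A ∧ a ≤ 1 ∧ m ≤ a ∧ a < m + m ^ 2 / (16 * k) := by
    by_cases h : a0 ≤ 1
    · exact ⟨a0, ha0, h, csInf_le hbdd ha0, ha0'⟩
    · push Not at h
      exact ⟨1, h1A, le_refl 1, hm1, h.trans ha0'⟩
  set θ : ℝ := m / (8 * k) with hθ
  have hθ0 : 0 < θ := by positivity
  have hθk : θ * (8 * k) = m := by rw [hθ]; field_simp
  have hθ1 : θ ≤ 1 / 8 := by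
    rw [hθ, div_le_iff₀ (by positivity)]
    nlinarith
  have hθ2 : 4 * k * θ ^ 2 ≤ 1 := by
    have : 4 * k * θ ^ 2 = θ * (8 * k) * θ / 2 := by ring
    rw [this, hθk]
    nlinarith
  have hstep := NibbleP_step inc hk hk1 hlin hθ0 (by linarith) hθ2 (hmpos.le.trans ha2) ha1 ha
  have h1 := csInf_le hbdd hstep
  rw [← hm] at h1
  have h2 : m * θ ≤ a * θ := mul_le_mul_of_nonneg_right ha2 hθ0.le
  have h3 : 4 * k * θ ^ 2 = m * θ / 2 := by
    have : 4 * k * θ ^ 2 = θ * (8 * k) * θ / 2 := by ring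
    rw [this, hθk]
  have h4 : m ^ 2 / (16 * k) = m * θ / 2 := by
    rw [hθ]; field_simp; norm_num
  rw [h3] at h1
  rw [h4] at ha3
  linarith

end Pool.Agent.Helper42
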