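import Pool.Agent.Helper42.Levels2
import Pool.Agent.Helper42.Nibble4

/-!
Existence of the random set of pairs together with near-perfect matchings.
-/

set_option autoImplicit false
set_option linter.unusedSectionVars false
set_option linter.unusedVariables false

namespace Pool.Agent.Helper42

theorem card_XS (a b c : ℕ) (S : Finset (ℕ × ℕ)) :
    ((XS a b c S).card : ℝ) = ∑ i : Fin 4, (((reg a b c i).filter (fun w => w ∈ S)).card : ℝ) := by
  have h := sum_XS a b c S (fun _ => 1)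
  simp only [Finset.sum_const, nsmul_eq_mul, mul_one] at h
  rw [h]
  apply Finset.sum_congr rfl
  intro i _
  rw [Finset.card_filter]
  push_cast
  rfl

/-- the main existence statement -/
theorem exists_pairs {c η : ℝ} (hc : 0 < c) (hη0 : 0 < η) (hη1 : η ≤ 1 / 2)
    (B : Finset (ℕ × ℕ × ℕ)) (hB : ∀ t ∈ B, t.1 < t.2.1 ∧ t.2.1 < t.2.2) :
    ∃ K C : ℕ, 2 ≤ K ∧ 0 < C ∧ ∃ S : Finset (ℕ × ℕ), ∃ M : ℕ × ℕ × ℕ → Finset (ℕ × ℕ × ℕ),
      ∀ t ∈ B,
        (∀ i, |(((reg (C * K ^ t.1) (C * K ^ t.2.1) (C * K ^ t.2.2) i).filter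
          (fun w => w ∈ S)).card : ℝ) - (C : ℝ) ^ 2| ≤ η * (C : ℝ) ^ 2) ∧
        M t ⊆ ES (C * K ^ t.1) (C * K ^ t.2.1) (C * K ^ t.2.2) S ∧
        (∀ e ∈ M t, ∀ f ∈ M t, e ≠ f → Disjoint (incT e) (incT f)) ∧
        ((XS (C * K ^ t.1) (C * K ^ t.2.1) (C * K ^ t.2.2) S).card : ℝ) - 4 * (M t).card
          ≤ c * (XS (C * K ^ t.1) (C * K ^ t.2.1) (C * K ^ t.2.2) S).card := by
  obtain ⟨δ, hδ, D0, hD0, hnib⟩ := nibble incT card_incT (by norm_num) lin_incT hc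
  -- the tolerance
  set τ : ℝ := min (η ^ 2) (δ / 2) with hτ
  have hτ0 : 0 < τ := by
    rw [hτ]; exact lt_min (by positivity) (by positivity)
  have hτη : τ ≤ η ^ 2 := min_le_left _ _
  have hτδ : τ ≤ δ / 2 := min_le_right _ _
  -- K
  obtain ⟨K0, hK0⟩ := exists_nat_ge (12 * (B.card : ℝ) / τ)
  set K : ℕ := K0 + 2 with hK
  have hK2 : 2 ≤ K := by omega
  have hKr : (2 : ℝ) ≤ K := by exact_mod_cast hK2
  have hKτ : (B.card : ℝ) * (4 / K) ≤ τ / 3 := by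
    have h1 : 12 * (B.card : ℝ) / τ ≤ K := hK0.trans (by rw [hK]; push_cast; linarith)
    rw [div_le_iff₀ hτ0] at h1
    rw [← mul_div_assoc, div_le_iff₀ (by positivity)]
    linarith
  -- C
  obtain ⟨R0, hR0⟩ := exists_nat_ge (max D0 (max (3 * (B.card : ℝ) / τ) (12 * (B.card : ℝ) / τ)))
  set R : ℕ := R0 + 1 with hR
  have hR1 : (1 : ℝ) ≤ R := by rw [hR]; push_cast; linarith [Nat.cast_nonneg (α := ℝ) R0]
  have hRR : (R0 : ℝ) ≤ R := by rw [hR]; push_cast; linarith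
  have hRD : D0 ≤ R := ((le_max_left _ _).trans hR0).trans hRR
  have hR3 : 3 * (B.card : ℝ) / τ ≤ R :=
    (((le_max_left _ _).trans (le_max_right _ _)).trans hR0).trans hRR
  have hR12 : 12 * (B.card : ℝ) / τ ≤ R :=
    (((le_max_right _ _).trans (le_max_right _ _)).trans hR0).trans hRR
  set m : ℕ := B.sup (fun t => t.1 + 2 * t.2.1 + 2 * t.2.2) with hm
  set C : ℕ := K ^ m * R with hC
  have hKm : (1 : ℝ) ≤ (K : ℝ) ^ m := one_le_pow₀ (by linarith)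
  have hCpos : 0 < C := by
    rw [hC]
    have : 0 < R := by omega
    positivity
  have hCR : (R : ℝ) ≤ C := by
    rw [hC]; push_cast
    nlinarith
  have hCr : (0 : ℝ) < C := by exact_mod_cast hCpos
  -- the degrees
  set Dt : ℕ × ℕ × ℕ → ℝ := fun t => C / ((K : ℝ) ^ t.1 * (K : ℝ) ^ (2 * t.2.1) * (K : ℝ) ^ (2 * t.2.2))
    with hDt
  have hDR : ∀ t ∈ B, (R : ℝ) ≤ Dt t := by
    intro t ht
    simp only [hDt]
    rw [le_div_iff₀ (by positivity), ← pow_add, ← pow_add, hC]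
    push_cast
    rw [mul_comm]
    apply mul_le_mul_of_nonneg_right _ (by positivity)
    apply pow_le_pow_right₀ (by linarith)
    exact Finset.le_sup (f := fun t : ℕ × ℕ × ℕ => t.1 + 2 * t.2.1 + 2 * t.2.2) ht
  -- the universe
  set U : Finset (ℕ × ℕ) := B.biUnion (fun t => (Finset.univ : Finset (Fin 4)).biUnion
    (fun i => reg (C * K ^ t.1) (C * K ^ t.2.1) (C * K ^ t.2.2) i)) with hU
  have hUreg : ∀ t ∈ B, ∀ i, reg (C * K ^ t.1) (C * K ^ t.2.1) (C * K ^ t.2.2) i ⊆ U := by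
    intro t ht i w hw
    rw [hU, Finset.mem_biUnion]
    exact ⟨t, ht, Finset.mem_biUnion.mpr ⟨i, Finset.mem_univ _, hw⟩⟩
  -- the functional
  obtain ⟨S, hS, hle⟩ := exists_le_Ex (U := U) (p := pp K C)
    (fun w _ => pp_nonneg (by omega) w) (fun w _ => pp_le_one (by omega) w)
    (fun S => ∑ t ∈ B, (1 / (4 * (C : ℝ) ^ 2 * (Dt t) ^ 2) *
        (∑ q ∈ XS (C * K ^ t.1) (C * K ^ t.2.1) (C * K ^ t.2.2) S,
          (((star incT (ES (C * K ^ t.1) (C * K ^ t.2.1) (C * K ^ t.2.2) S) q).card : ℝ)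
            - Dt t) ^ 2)
      + ∑ i : Fin 4, 1 / (C : ℝ) ^ 4 *
        ((((reg (C * K ^ t.1) (C * K ^ t.2.1) (C * K ^ t.2.2) i).filter
          (fun w => w ∈ S)).card : ℝ) - (C : ℝ) ^ 2) ^ 2))
  -- bound of the expectation
  have hEx : Ex U (pp K C) (fun S => ∑ t ∈ B, (1 / (4 * (C : ℝ) ^ 2 * (Dt t) ^ 2) *
        (∑ q ∈ XS (C * K ^ t.1) (C * K ^ t.2.1) (C * K ^ t.2.2) S,
          (((star incT (ES (C * K ^ t.1) (C * K ^ t.2.1) (C * K ^ t.2.2) S) q).card : ℝ)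
            - Dt t) ^ 2)
      + ∑ i : Fin 4, 1 / (C : ℝ) ^ 4 *
        ((((reg (C * K ^ t.1) (C * K ^ t.2.1) (C * K ^ t.2.2) i).filter
          (fun w => w ∈ S)).card : ℝ) - (C : ℝ) ^ 2) ^ 2)) ≤ τ := by
    rw [Ex_sum]
    have h1 : ∀ t ∈ B, Ex U (pp K C) (fun S => (1 / (4 * (C : ℝ) ^ 2 * (Dt t) ^ 2) *
        (∑ q ∈ XS (C * K ^ t.1) (C * K ^ t.2.1) (C * K ^ t.2.2) S,
          (((star incT (ES (C * K ^ t.1) (C * K ^ t.2.1) (C * K ^ t.2.2) S) q).card : ℝ)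
            - Dt t) ^ 2)
      + ∑ i : Fin 4, 1 / (C : ℝ) ^ 4 *
        ((((reg (C * K ^ t.1) (C * K ^ t.2.1) (C * K ^ t.2.2) i).filter
          (fun w => w ∈ S)).card : ℝ) - (C : ℝ) ^ 2) ^ 2)) ≤ 1 / R + 4 / K + 4 / C := by
      intro t ht
      obtain ⟨h12, h23⟩ := hB t ht
      rw [Ex_add, Ex_mul_left, Ex_sum]
      have hDpos : 0 < Dt t := lt_of_lt_of_le (by linarith) (hDR t ht)
      have h2 := Ex_L2_levels (U := U) (C := C) hK2 hCpos h12 h23 (hUreg t ht)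
      have h3 : 1 / (4 * (C : ℝ) ^ 2 * (Dt t) ^ 2) * Ex U (pp K C) (fun S =>
          ∑ q ∈ XS (C * K ^ t.1) (C * K ^ t.2.1) (C * K ^ t.2.2) S,
          (((star incT (ES (C * K ^ t.1) (C * K ^ t.2.1) (C * K ^ t.2.2) S) q).card : ℝ)
            - Dt t) ^ 2) ≤ 1 / R + 4 / K := by
        calc 1 / (4 * (C : ℝ) ^ 2 * (Dt t) ^ 2) * Ex U (pp K C) (fun S =>
          ∑ q ∈ XS (C * K ^ t.1) (C * K ^ t.2.1) (C * K ^ t.2.2) S,
          (((star incT (ES (C * K ^ t.1) (C * K ^ t.2.1) (C * K ^ t.2.2) S) q).card : ℝ)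
            - Dt t) ^ 2)
            ≤ 1 / (4 * (C : ℝ) ^ 2 * (Dt t) ^ 2) *
              (4 * ((C : ℝ) ^ 2 * Dt t * (1 + 4 / K * Dt t))) :=
              mul_le_mul_of_nonneg_left h2 (by positivity)
          _ = 1 / Dt t + 4 / K := by
              field_simp
          _ ≤ 1 / R + 4 / K := by
              have : 1 / Dt t ≤ 1 / R := one_div_le_one_div_of_le (by linarith) (hDR t ht)
              linarith
      have h4 : ∑ i : Fin 4, Ex U (pp K C) (fun S => 1 / (C : ℝ) ^ 4 *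
        ((((reg (C * K ^ t.1) (C * K ^ t.2.1) (C * K ^ t.2.2) i).filter
          (fun w => w ∈ S)).card : ℝ) - (C : ℝ) ^ 2) ^ 2) ≤ 4 / C := by
        have h5 : ∀ i : Fin 4, Ex U (pp K C) (fun S => 1 / (C : ℝ) ^ 4 *
            ((((reg (C * K ^ t.1) (C * K ^ t.2.1) (C * K ^ t.2.2) i).filter
            (fun w => w ∈ S)).card : ℝ) - (C : ℝ) ^ 2) ^ 2) ≤ 1 / C := by
          intro i
          rw [Ex_mul_left]
          have h6 : Ex U (pp K C) (fun S =>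
            ((((reg (C * K ^ t.1) (C * K ^ t.2.1) (C * K ^ t.2.2) i).filter
            (fun w => w ∈ S)).card : ℝ) - (C : ℝ) ^ 2) ^ 2) ≤ (C : ℝ) ^ 2 := by
            have h7 := hUreg t ht i
            fin_cases i
            · exact Ex_conc hK2 hCpos h7
            · exact Ex_conc hK2 hCpos h7
            · exact Ex_conc hK2 hCpos h7
            · exact Ex_conc hK2 hCpos h7
          calc 1 / (C : ℝ) ^ 4 * Ex U (pp K C) (fun S =>
            ((((reg (C * K ^ t.1) (C * K ^ t.2.1) (C * K ^ t.2.2) i).filter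
            (fun w => w ∈ S)).card : ℝ) - (C : ℝ) ^ 2) ^ 2)
              ≤ 1 / (C : ℝ) ^ 4 * (C : ℝ) ^ 2 := mul_le_mul_of_nonneg_left h6 (by positivity)
            _ = 1 / (C : ℝ) ^ 2 := by field_simp
            _ ≤ 1 / C := by
                apply one_div_le_one_div_of_le hCr
                have : (1 : ℝ) ≤ C := by linarith
                nlinarith
        calc _ ≤ ∑ i : Fin 4, 1 / (C : ℝ) := Finset.sum_le_sum (fun i _ => h5 i)
          _ = 4 / C := by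
              rw [Finset.sum_const, nsmul_eq_mul]
              simp
              ring
      linarith
    refine (Finset.sum_le_sum h1).trans ?_
    rw [Finset.sum_const, nsmul_eq_mul]
    have hRpos : (0:ℝ) < R := by linarith
    have h2 : (B.card : ℝ) * (1 / R) ≤ τ / 3 := by
      rw [div_le_iff₀ hτ0] at hR3
      rw [mul_one_div, div_le_iff₀ hRpos]
      linarith
    have h3 : (B.card : ℝ) * (4 / C) ≤ τ / 3 := by
      have h4 : 12 * (B.card : ℝ) / τ ≤ C := hR12.trans hCR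
      rw [div_le_iff₀ hτ0] at h4
      rw [← mul_div_assoc, div_le_iff₀ hCr]
      linarith
    linarith
  have hfun := hle.trans hEx
  -- consequences for every base point
  have hnn1 : ∀ t ∈ B, 0 ≤ 1 / (4 * (C : ℝ) ^ 2 * (Dt t) ^ 2) *
        (∑ q ∈ XS (C * K ^ t.1) (C * K ^ t.2.1) (C * K ^ t.2.2) S,
          (((star incT (ES (C * K ^ t.1) (C * K ^ t.2.1) (C * K ^ t.2.2) S) q).card : ℝ)
            - Dt t) ^ 2) := by
    intro t _
    apply mul_nonneg (by positivity)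
    exact Finset.sum_nonneg (fun _ _ => by positivity)
  have hnn2 : ∀ t ∈ B, ∀ i : Fin 4, 0 ≤ 1 / (C : ℝ) ^ 4 *
        ((((reg (C * K ^ t.1) (C * K ^ t.2.1) (C * K ^ t.2.2) i).filter
          (fun w => w ∈ S)).card : ℝ) - (C : ℝ) ^ 2) ^ 2 := by
    intro t _ i
    positivity
  have hone : ∀ t ∈ B, (1 / (4 * (C : ℝ) ^ 2 * (Dt t) ^ 2) *
        (∑ q ∈ XS (C * K ^ t.1) (C * K ^ t.2.1) (C * K ^ t.2.2) S,
          (((star incT (ES (C * K ^ t.1) (C * K ^ t.2.1) (C * K ^ t.2.2) S) q).card : ℝ)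
            - Dt t) ^ 2)
      + ∑ i : Fin 4, 1 / (C : ℝ) ^ 4 *
        ((((reg (C * K ^ t.1) (C * K ^ t.2.1) (C * K ^ t.2.2) i).filter
          (fun w => w ∈ S)).card : ℝ) - (C : ℝ) ^ 2) ^ 2) ≤ τ := by
    intro t ht
    refine le_trans ?_ hfun
    exact Finset.single_le_sum (f := fun t => (1 / (4 * (C : ℝ) ^ 2 * (Dt t) ^ 2) *
        (∑ q ∈ XS (C * K ^ t.1) (C * K ^ t.2.1) (C * K ^ t.2.2) S,
          (((star incT (ES (C * K ^ t.1) (C * K ^ t.2.1) (C * K ^ t.2.2) S) q).card : ℝ)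
            - Dt t) ^ 2)
      + ∑ i : Fin 4, 1 / (C : ℝ) ^ 4 *
        ((((reg (C * K ^ t.1) (C * K ^ t.2.1) (C * K ^ t.2.2) i).filter
          (fun w => w ∈ S)).card : ℝ) - (C : ℝ) ^ 2) ^ 2))
      (fun t ht => add_nonneg (hnn1 t ht) (Finset.sum_nonneg (fun i _ => hnn2 t ht i))) ht
  have hconc : ∀ t ∈ B, ∀ i : Fin 4, |(((reg (C * K ^ t.1) (C * K ^ t.2.1) (C * K ^ t.2.2) i).filter
          (fun w => w ∈ S)).card : ℝ) - (C : ℝ) ^ 2| ≤ η * (C : ℝ) ^ 2 := by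
    intro t ht i
    have h1 := hone t ht
    have h2 : 1 / (C : ℝ) ^ 4 *
        ((((reg (C * K ^ t.1) (C * K ^ t.2.1) (C * K ^ t.2.2) i).filter
          (fun w => w ∈ S)).card : ℝ) - (C : ℝ) ^ 2) ^ 2 ≤ τ := by
      have h3 := Finset.single_le_sum (f := fun i : Fin 4 => 1 / (C : ℝ) ^ 4 *
        ((((reg (C * K ^ t.1) (C * K ^ t.2.1) (C * K ^ t.2.2) i).filter
          (fun w => w ∈ S)).card : ℝ) - (C : ℝ) ^ 2) ^ 2) (fun i _ => hnn2 t ht i)
          (Finset.mem_univ i)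
      have h4 := hnn1 t ht
      linarith
    have h5 : ((((reg (C * K ^ t.1) (C * K ^ t.2.1) (C * K ^ t.2.2) i).filter
          (fun w => w ∈ S)).card : ℝ) - (C : ℝ) ^ 2) ^ 2 ≤ (η * (C : ℝ) ^ 2) ^ 2 := by
      rw [one_div, inv_mul_le_iff₀ (by positivity)] at h2
      calc _ ≤ (C : ℝ) ^ 4 * τ := h2
        _ ≤ (C : ℝ) ^ 4 * η ^ 2 := mul_le_mul_of_nonneg_left hτη (by positivity)
        _ = (η * (C : ℝ) ^ 2) ^ 2 := by ring
    exact abs_le_of_sq_le_sq h5 (by positivity)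
  -- apply the nibble at every base point
  have hM : ∀ t : ℕ × ℕ × ℕ, ∃ Mt : Finset (ℕ × ℕ × ℕ), t ∈ B →
        (Mt ⊆ ES (C * K ^ t.1) (C * K ^ t.2.1) (C * K ^ t.2.2) S ∧
        (∀ e ∈ Mt, ∀ f ∈ Mt, e ≠ f → Disjoint (incT e) (incT f)) ∧
        ((XS (C * K ^ t.1) (C * K ^ t.2.1) (C * K ^ t.2.2) S).card : ℝ) - 4 * Mt.card
          ≤ c * (XS (C * K ^ t.1) (C * K ^ t.2.1) (C * K ^ t.2.2) S).card) := by
    intro t
    by_cases ht : t ∈ B
    · have hDpos : 0 < Dt t := lt_of_lt_of_le (by linarith) (hDR t ht)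
      have hXS : 2 * (C : ℝ) ^ 2 ≤ (XS (C * K ^ t.1) (C * K ^ t.2.1) (C * K ^ t.2.2) S).card := by
        rw [card_XS]
        have h1 : ∀ i : Fin 4, (C : ℝ) ^ 2 / 2 ≤
            (((reg (C * K ^ t.1) (C * K ^ t.2.1) (C * K ^ t.2.2) i).filter
              (fun w => w ∈ S)).card : ℝ) := by
          intro i
          have h2 := (abs_le.mp (hconc t ht i)).1
          have h3 : η * (C : ℝ) ^ 2 ≤ 1 / 2 * (C : ℝ) ^ 2 :=
            mul_le_mul_of_nonneg_right hη1 (by positivity)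
          linarith
        calc 2 * (C : ℝ) ^ 2 = ∑ i : Fin 4, (C : ℝ) ^ 2 / 2 := by
              rw [Finset.sum_const, nsmul_eq_mul]; simp; ring
          _ ≤ _ := Finset.sum_le_sum (fun i _ => h1 i)
      have hL2 : ∑ q ∈ XS (C * K ^ t.1) (C * K ^ t.2.1) (C * K ^ t.2.2) S,
          (((star incT (ES (C * K ^ t.1) (C * K ^ t.2.1) (C * K ^ t.2.2) S) q).card : ℝ)
            - Dt t) ^ 2 ≤ δ * (Dt t) ^ 2 *
            (XS (C * K ^ t.1) (C * K ^ t.2.1) (C * K ^ t.2.2) S).card := by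
        have h1 := hone t ht
        have h2 : 0 ≤ ∑ i : Fin 4, 1 / (C : ℝ) ^ 4 *
          ((((reg (C * K ^ t.1) (C * K ^ t.2.1) (C * K ^ t.2.2) i).filter
          (fun w => w ∈ S)).card : ℝ) - (C : ℝ) ^ 2) ^ 2 :=
          Finset.sum_nonneg (fun i _ => hnn2 t ht i)
        have h3 : 1 / (4 * (C : ℝ) ^ 2 * (Dt t) ^ 2) *
        (∑ q ∈ XS (C * K ^ t.1) (C * K ^ t.2.1) (C * K ^ t.2.2) S,
          (((star incT (ES (C * K ^ t.1) (C * K ^ t.2.1) (C * K ^ t.2.2) S) q).card : ℝ)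
            - Dt t) ^ 2) ≤ τ := by linarith
        rw [one_div, inv_mul_le_iff₀ (by positivity)] at h3
        calc _ ≤ 4 * (C : ℝ) ^ 2 * (Dt t) ^ 2 * τ := h3
          _ ≤ 4 * (C : ℝ) ^ 2 * (Dt t) ^ 2 * (δ / 2) :=
              mul_le_mul_of_nonneg_left hτδ (by positivity)
          _ = δ * (Dt t) ^ 2 * (2 * (C : ℝ) ^ 2) := by ring
          _ ≤ _ := mul_le_mul_of_nonneg_left hXS (by positivity)
      obtain ⟨Mt, h1, h2, h3⟩ := hnib _ _ (Dt t) (hRD.trans (hDR t ht))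
        (fun e he => incT_subset_XS he) hL2
      refine ⟨Mt, fun _ => ⟨h1, h2, ?_⟩⟩
      push_cast at h3
      exact h3
    · exact ⟨∅, fun h => absurd h ht⟩
  choose M hM using hM
  exact ⟨K, C, hK2, hCpos, S, M, fun t ht => ⟨hconc t ht, hM t ht⟩⟩

end Pool.Agent.Helper42
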