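import Pool.Agent.Helper42.RandomSubset

/-!
Second moment of a sum of indicators of disjoint sets contained in a random set.
-/

set_option autoImplicit false
set_option linter.unusedSectionVars false
set_option linter.unusedVariables false

namespace Pool.Agent.Helper42

variable {ω τ : Type*} [DecidableEq ω] [DecidableEq τ]

theorem second_moment {U : Finset ω} (p : ω → ℝ) {A0 : Finset ω} (hA0 : A0 ⊆ U)
    (T : Finset τ) (A : τ → Finset ω) (hA : ∀ t ∈ T, A t ⊆ U)
    (hdisj : ∀ t ∈ T, ∀ t' ∈ T, t ≠ t' → Disjoint (A t) (A t'))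
    (hdisj0 : ∀ t ∈ T, Disjoint A0 (A t)) {p0 r : ℝ} (hp0 : ∏ e ∈ A0, p e = p0)
    (hr : ∀ t ∈ T, ∏ e ∈ A t, p e = r) (D : ℝ) :
    Ex U p (fun S => if A0 ⊆ S then (((T.filter (fun t => A t ⊆ S)).card : ℝ) - D) ^ 2 else 0)
      = p0 * (T.card * r * (1 - r) + (T.card * r - D) ^ 2) := by
  have h1 : ∀ S, S ⊆ U → (if A0 ⊆ S then (((T.filter (fun t => A t ⊆ S)).card : ℝ) - D) ^ 2 else 0)
      = ((∑ t ∈ T, ∑ t' ∈ T, if (A0 ∪ (A t ∪ A t')) ⊆ S then (1:ℝ) else 0)
        - 2 * D * (∑ t ∈ T, if (A0 ∪ A t) ⊆ S then (1:ℝ) else 0))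
        + D ^ 2 * (if A0 ⊆ S then (1:ℝ) else 0) := by
    intro S _
    by_cases h0 : A0 ⊆ S
    · rw [if_pos h0, if_pos h0]
      have h2 : ((T.filter (fun t => A t ⊆ S)).card : ℝ) = ∑ t ∈ T, if (A0 ∪ A t) ⊆ S then (1:ℝ) else 0 := by
        rw [Finset.card_filter]
        push_cast
        apply Finset.sum_congr rfl
        intro t _
        by_cases h3 : A t ⊆ S
        · rw [if_pos h3, if_pos (Finset.union_subset h0 h3)]
        · rw [if_neg h3, if_neg (fun h => h3 (Finset.subset_union_right.trans h))]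
      have h3 : ((T.filter (fun t => A t ⊆ S)).card : ℝ) ^ 2
          = ∑ t ∈ T, ∑ t' ∈ T, if (A0 ∪ (A t ∪ A t')) ⊆ S then (1:ℝ) else 0 := by
        rw [h2, sq, Finset.sum_mul_sum]
        apply Finset.sum_congr rfl
        intro t _
        apply Finset.sum_congr rfl
        intro t' _
        by_cases h4 : A t ⊆ S
        · by_cases h5 : A t' ⊆ S
          · rw [if_pos (Finset.union_subset h0 h4), if_pos (Finset.union_subset h0 h5),
              if_pos (Finset.union_subset h0 (Finset.union_subset h4 h5)), mul_one]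
          · rw [if_neg (fun h => h5 (Finset.subset_union_right.trans h)),
              if_neg (fun h => h5 (Finset.subset_union_right.trans
                (Finset.subset_union_right.trans h))), mul_zero]
        · rw [if_neg (fun h => h4 (Finset.subset_union_right.trans h)),
              if_neg (fun h => h4 (Finset.subset_union_left.trans
                (Finset.subset_union_right.trans h))), zero_mul]
      rw [← h3, ← h2]
      ring
    · rw [if_neg h0, if_neg h0]
      have h2 : (∑ t ∈ T, ∑ t' ∈ T, if (A0 ∪ (A t ∪ A t')) ⊆ S then (1:ℝ) else 0) = 0 := by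
        apply Finset.sum_eq_zero
        intro t _
        apply Finset.sum_eq_zero
        intro t' _
        rw [if_neg (fun h => h0 (Finset.subset_union_left.trans h))]
      have h3 : (∑ t ∈ T, if (A0 ∪ A t) ⊆ S then (1:ℝ) else 0) = 0 := by
        apply Finset.sum_eq_zero
        intro t _
        rw [if_neg (fun h => h0 (Finset.subset_union_left.trans h))]
      rw [h2, h3]
      ring
  rw [Ex_congr h1, Ex_add, Ex_sub, Ex_mul_left, Ex_mul_left, Ex_sum, Ex_sum, Ex_contain p hA0, hp0]
  have h2 : ∀ t ∈ T, Ex U p (fun S => if (A0 ∪ A t) ⊆ S then (1:ℝ) else 0) = p0 * r := by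
    intro t ht
    rw [Ex_contain p (Finset.union_subset hA0 (hA t ht)), Finset.prod_union (hdisj0 t ht), hp0,
      hr t ht]
  have h3 : ∀ t ∈ T, Ex U p (fun S => ∑ t' ∈ T, if (A0 ∪ (A t ∪ A t')) ⊆ S then (1:ℝ) else 0)
      = p0 * (T.card * r ^ 2 + r * (1 - r)) := by
    intro t ht
    rw [Ex_sum]
    have h4 : ∀ t' ∈ T, Ex U p (fun S => if (A0 ∪ (A t ∪ A t')) ⊆ S then (1:ℝ) else 0)
        = p0 * r ^ 2 + (if t = t' then p0 * (r * (1 - r)) else 0) := by
      intro t' ht'
      rw [Ex_contain p (Finset.union_subset hA0 (Finset.union_subset (hA t ht) (hA t' ht')))]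
      by_cases h5 : t = t'
      · subst h5
        rw [if_pos rfl, Finset.union_self, Finset.prod_union (hdisj0 t ht), hp0, hr t ht]
        ring
      · rw [if_neg h5, Finset.prod_union (Finset.disjoint_union_right.mpr
          ⟨hdisj0 t ht, hdisj0 t' ht'⟩), Finset.prod_union (hdisj t ht t' ht' h5), hp0, hr t ht,
          hr t' ht']
        ring
    rw [Finset.sum_congr rfl h4, Finset.sum_add_distrib, Finset.sum_const, nsmul_eq_mul,
      Finset.sum_ite_eq, if_pos ht]
    ring
  rw [Finset.sum_congr rfl h2, Finset.sum_congr rfl h3]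
  simp only [Finset.sum_const, nsmul_eq_mul]
  ring

end Pool.Agent.Helper42
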