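import Pool.Agent.Helper42.Nibble1

/-!
The second moment bound for the number of surviving edges at a nice vertex.
-/

set_option autoImplicit false
set_option linter.unusedSectionVars false
set_option linter.unusedVariables false

namespace Pool.Agent.Helper42

variable {ι κ : Type*} [DecidableEq ι] [DecidableEq κ]

theorem one_sub_ge_exp {p : ℝ} (hp0 : 0 ≤ p) (hp : p ≤ 1 / 2) :
    Real.exp (-(p + 2 * p ^ 2)) ≤ 1 - p := by
  have h1 : 0 < 1 - p := by linarith
  have h2 := Real.one_sub_inv_le_log_of_pos h1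
  have h3 : -(p + 2 * p ^ 2) ≤ 1 - (1 - p)⁻¹ := by
    have h4 : (1 - p)⁻¹ ≤ 1 + p + 2 * p ^ 2 := by
      rw [inv_le_iff_one_le_mul₀ h1]
      nlinarith [mul_nonneg (sq_nonneg p) (by linarith : (0:ℝ) ≤ 1 - 2 * p)]
    linarith
  calc Real.exp (-(p + 2 * p ^ 2)) ≤ Real.exp (Real.log (1 - p)) :=
        Real.exp_le_exp.mpr (h3.trans h2)
    _ = 1 - p := Real.exp_log h1

/-- the error function -/
noncomputable def errG (k : ℕ) (θ s : ℝ) : ℝ :=
  (1 + s) ^ 2 * (Real.exp (-(((k : ℝ) - 1) * θ)) ^ 2 * Real.exp (5 * (k : ℝ) ^ 2 * s))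
    + (1 + s) * s + 2 * s * (1 + s)
    - 2 * Real.exp (-(((k : ℝ) - 1) * θ)) * ((1 - 2 * s) *
        (Real.exp (-(((k : ℝ) - 1) * θ)) * Real.exp (-(5 * (k : ℝ) ^ 2 * s))))
    + Real.exp (-(((k : ℝ) - 1) * θ)) ^ 2

theorem pow_upper {k : ℕ} (hk1 : 1 ≤ k) {θ s D : ℝ} (hθ0 : 0 < θ) (hθ1 : θ ≤ 1) (hs0 : 0 < s)
    (hs1 : s ≤ 1 / 2) (hD : 1 / s ≤ D) {n a b : ℕ}
    (ha : ((k : ℝ) - 1) * ((1 - s) * D - 1) ≤ a) (hb : ((k : ℝ) - 1) * ((1 - s) * D - 1) ≤ b)
    (hn : a + b ≤ n + k ^ 2) :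
    (1 - θ / D) ^ n ≤ Real.exp (-(((k : ℝ) - 1) * θ)) ^ 2 * Real.exp (5 * (k : ℝ) ^ 2 * s) := by
  have hDpos : 0 < D := lt_of_lt_of_le (by positivity) hD
  have hD1 : 1 ≤ s * D := by
    rw [div_le_iff₀ hs0] at hD; linarith
  have hp0 : 0 ≤ θ / D := by positivity
  have hps : θ / D ≤ s := by
    rw [div_le_iff₀ hDpos]; linarith
  have hpD : θ / D * D = θ := by field_simp
  have hkr : (1 : ℝ) ≤ k := by exact_mod_cast hk1
  have hnr : ((a : ℝ) + b) ≤ n + (k : ℝ) ^ 2 := by exact_mod_cast hn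
  have h1 : (1 - θ / D) ^ n ≤ Real.exp (-(θ / D)) ^ n := by
    apply pow_le_pow_left₀
    · linarith
    · exact Real.one_sub_le_exp_neg _
  refine h1.trans ?_
  rw [← Real.exp_nat_mul, ← Real.exp_nat_mul, ← Real.exp_add]
  apply Real.exp_le_exp.mpr
  have h2 : 2 * (((k : ℝ) - 1) * ((1 - s) * D - 1)) - (k : ℝ) ^ 2 ≤ n := by linarith
  have h3 := mul_le_mul_of_nonneg_left h2 hp0
  have h4 : θ / D * (2 * (((k : ℝ) - 1) * ((1 - s) * D - 1)) - (k : ℝ) ^ 2)
      = 2 * ((k : ℝ) - 1) * θ - 2 * ((k : ℝ) - 1) * (θ * s) - (2 * ((k : ℝ) - 1) + (k : ℝ) ^ 2) * (θ / D) := by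
    have : θ / D * (2 * (((k : ℝ) - 1) * ((1 - s) * D - 1)) - (k : ℝ) ^ 2)
      = 2 * ((k : ℝ) - 1) * (1 - s) * (θ / D * D) - (2 * ((k : ℝ) - 1) + (k : ℝ) ^ 2) * (θ / D) := by ring
    rw [this, hpD]; ring
  have h5 : (2 * ((k : ℝ) - 1) + (k : ℝ) ^ 2) * (θ / D) ≤ (2 * ((k : ℝ) - 1) + (k : ℝ) ^ 2) * s :=
    mul_le_mul_of_nonneg_left hps (by nlinarith)
  have h6 : ((k : ℝ) - 1) * (θ * s) ≤ ((k : ℝ) - 1) * s := by
    apply mul_le_mul_of_nonneg_left _ (by linarith)
    nlinarith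
  have h7 : ((k : ℝ) - 1) * s ≤ (k : ℝ) ^ 2 * s := by
    apply mul_le_mul_of_nonneg_right _ hs0.le
    nlinarith
  push_cast
  nlinarith

theorem pow_lower {k : ℕ} (hk1 : 1 ≤ k) {θ s D : ℝ} (hθ0 : 0 < θ) (hθ1 : θ ≤ 1) (hs0 : 0 < s)
    (hs1 : s ≤ 1 / 2) (hD : 1 / s ≤ D) {n : ℕ}
    (hn : (n : ℝ) ≤ ((k : ℝ) - 1) * ((1 + s) * D)) :
    Real.exp (-(((k : ℝ) - 1) * θ)) * Real.exp (-(5 * (k : ℝ) ^ 2 * s)) ≤ (1 - θ / D) ^ n := by
  have hDpos : 0 < D := lt_of_lt_of_le (by positivity) hD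
  have hD1 : 1 ≤ s * D := by
    rw [div_le_iff₀ hs0] at hD; linarith
  have hp0 : 0 ≤ θ / D := by positivity
  have hps : θ / D ≤ s := by
    rw [div_le_iff₀ hDpos]; linarith
  have hpD : θ / D * D = θ := by field_simp
  have hkr : (1 : ℝ) ≤ k := by exact_mod_cast hk1
  have h1 : Real.exp (-(θ / D + 2 * (θ / D) ^ 2)) ^ n ≤ (1 - θ / D) ^ n :=
    pow_le_pow_left₀ (Real.exp_pos _).le (one_sub_ge_exp hp0 (hps.trans hs1)) _
  refine le_trans ?_ h1
  rw [← Real.exp_nat_mul, ← Real.exp_add]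
  apply Real.exp_le_exp.mpr
  have h2 : (n : ℝ) * (θ / D + 2 * (θ / D) ^ 2)
      ≤ ((k : ℝ) - 1) * ((1 + s) * D) * (θ / D + 2 * (θ / D) ^ 2) :=
    mul_le_mul_of_nonneg_right hn (by positivity)
  have h3 : ((k : ℝ) - 1) * ((1 + s) * D) * (θ / D + 2 * (θ / D) ^ 2)
      = ((k : ℝ) - 1) * ((1 + s) * (θ + 2 * θ * (θ / D))) := by
    have : ((k : ℝ) - 1) * ((1 + s) * D) * (θ / D + 2 * (θ / D) ^ 2)
      = ((k : ℝ) - 1) * ((1 + s) * ((θ / D * D) + 2 * (θ / D * D) * (θ / D))) := by ring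
    rw [this, hpD]
  have h4 : (1 + s) * (θ + 2 * θ * (θ / D)) ≤ θ + 5 * s := by
    have h5 : θ * (θ / D) ≤ s := by nlinarith
    have h6 : 0 ≤ θ * (θ / D) := by positivity
    nlinarith
  have h5 : ((k : ℝ) - 1) * ((1 + s) * (θ + 2 * θ * (θ / D))) ≤ ((k : ℝ) - 1) * (θ + 5 * s) :=
    mul_le_mul_of_nonneg_left h4 (by linarith)
  have h7 : ((k : ℝ) - 1) * s ≤ (k : ℝ) ^ 2 * s := by
    apply mul_le_mul_of_nonneg_right _ hs0.le
    nlinarith
  nlinarith

/-- an edge all of whose vertices have nearly the right degree -/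
def goodE (inc : κ → Finset ι) (E : Finset κ) (s D : ℝ) (e : κ) : Prop :=
  ∀ u ∈ inc e, |((star inc E u).card : ℝ) - D| ≤ s * D

open Classical in
theorem nice_bound (inc : κ → Finset ι) {k : ℕ} (hk : ∀ e, (inc e).card = k) (hk1 : 1 ≤ k)
    (hlin : ∀ e f, e ≠ f → (inc e ∩ inc f).card ≤ 1)
    {E : Finset κ} {θ s D : ℝ} (hθ0 : 0 < θ) (hθ1 : θ ≤ 1) (hs0 : 0 < s)
    (hs1 : s ≤ 1 / 2) (hD : 1 / s ≤ D) {x : ι}
    (hx : |((star inc E x).card : ℝ) - D| ≤ s * D)
    (hbad : (((star inc E x).filter (fun e => ¬ goodE inc E s D e)).card : ℝ) ≤ s * D) :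
    Ex E (fun _ => θ / D) (fun S => ((((star inc E x).filter
        (fun e => Disjoint (nb inc E x e) S)).card : ℝ) - Real.exp (-(((k : ℝ) - 1) * θ)) * D) ^ 2)
      ≤ D ^ 2 * errG k θ s := by
  have hDpos : 0 < D := lt_of_lt_of_le (by positivity) hD
  have hD1 : 1 ≤ s * D := by
    rw [div_le_iff₀ hs0] at hD; linarith
  have hp0 : 0 ≤ θ / D := by positivity
  have hps : θ / D ≤ s := by
    rw [div_le_iff₀ hDpos]; linarith
  have hkr : (1 : ℝ) ≤ k := by exact_mod_cast hk1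
  set q : ℝ := Real.exp (-(((k : ℝ) - 1) * θ)) with hq
  set T := star inc E x with hT
  set d : ℝ := (T.card : ℝ) with hd
  have hqpos : 0 < q := Real.exp_pos _
  have habs := abs_le.mp hx
  have hd_lo : (1 - s) * D ≤ d := by linarith [habs.1]
  have hd_hi : d ≤ (1 + s) * D := by linarith [habs.2]
  -- cardinality bounds
  have hNcard : ∀ e ∈ T, goodE inc E s D e →
      ((k : ℝ) - 1) * ((1 - s) * D - 1) ≤ ((nb inc E x e).card : ℝ) ∧
      ((nb inc E x e).card : ℝ) ≤ ((k : ℝ) - 1) * ((1 + s) * D) := by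
    intro e he hg
    rw [hT, mem_star] at he
    rw [card_nb inc hlin he.1 he.2]
    have hc : (((inc e).erase x).card : ℝ) = (k : ℝ) - 1 := by
      rw [Finset.card_erase_of_mem he.2, hk, Nat.cast_sub hk1]
      simp
    constructor
    · have : ∑ u ∈ (inc e).erase x, ((1 - s) * D - 1) ≤
          ∑ u ∈ (inc e).erase x, (((star inc E u).card : ℝ) - 1) := by
        apply Finset.sum_le_sum
        intro u hu
        have := abs_le.mp (hg u (Finset.mem_erase.mp hu).2)
        linarith [this.1]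
      rw [Finset.sum_const, nsmul_eq_mul, hc] at this
      exact this
    · have : ∑ u ∈ (inc e).erase x, (((star inc E u).card : ℝ) - 1) ≤
          ∑ u ∈ (inc e).erase x, ((1 + s) * D) := by
        apply Finset.sum_le_sum
        intro u hu
        have := abs_le.mp (hg u (Finset.mem_erase.mp hu).2)
        linarith [this.2]
      rw [Finset.sum_const (b := (1 + s) * D), nsmul_eq_mul, hc] at this
      exact this
  have hpow1 : ∀ n : ℕ, (1 - θ / D) ^ n ≤ 1 := by
    intro n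
    apply pow_le_one₀
    · linarith
    · linarith
  have hpow0 : ∀ n : ℕ, 0 ≤ (1 - θ / D) ^ n := by
    intro n
    apply pow_nonneg
    linarith
  -- first moment
  have hfirst : (1 - 2 * s) * D * (q * Real.exp (-(5 * (k : ℝ) ^ 2 * s))) ≤
      ∑ e ∈ T, (1 - θ / D) ^ (nb inc E x e).card := by
    have h1 : ∑ e ∈ T.filter (fun e => goodE inc E s D e),
        (q * Real.exp (-(5 * (k : ℝ) ^ 2 * s))) ≤
        ∑ e ∈ T, (1 - θ / D) ^ (nb inc E x e).card := by
      calc ∑ e ∈ T.filter (fun e => goodE inc E s D e),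
            (q * Real.exp (-(5 * (k : ℝ) ^ 2 * s)))
          ≤ ∑ e ∈ T.filter (fun e => goodE inc E s D e), (1 - θ / D) ^ (nb inc E x e).card := by
            apply Finset.sum_le_sum
            intro e he
            rw [Finset.mem_filter] at he
            exact pow_lower hk1 hθ0 hθ1 hs0 hs1 hD (hNcard e he.1 he.2).2
        _ ≤ ∑ e ∈ T, (1 - θ / D) ^ (nb inc E x e).card := by
            apply Finset.sum_le_sum_of_subset_of_nonneg (Finset.filter_subset _ _)
            intro e _ _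
            exact hpow0 _
    rw [Finset.sum_const, nsmul_eq_mul] at h1
    refine le_trans ?_ h1
    apply mul_le_mul_of_nonneg_right _ (by positivity)
    have h2 : (T.filter (fun e => goodE inc E s D e)).card
        + (T.filter (fun e => ¬ goodE inc E s D e)).card = T.card :=
      Finset.card_filter_add_card_filter_not _
    have h3 : (((T.filter (fun e => goodE inc E s D e)).card : ℝ))
        + ((T.filter (fun e => ¬ goodE inc E s D e)).card : ℝ) = d := by
      rw [hd]; exact_mod_cast h2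
    linarith
  -- second moment
  have hsecond : ∑ e ∈ T, ∑ e' ∈ T, (1 - θ / D) ^ (nb inc E x e ∪ nb inc E x e').card
      ≤ d ^ 2 * (q ^ 2 * Real.exp (5 * (k : ℝ) ^ 2 * s)) + d + 2 * (s * D) * d := by
    have h1 : ∀ e ∈ T, ∀ e' ∈ T, (1 - θ / D) ^ (nb inc E x e ∪ nb inc E x e').card
        ≤ q ^ 2 * Real.exp (5 * (k : ℝ) ^ 2 * s) + (if e = e' then 1 else 0)
          + (if ¬ goodE inc E s D e then 1 else 0) + (if ¬ goodE inc E s D e' then 1 else 0) := by
      intro e he e' he'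
      have hnn : 0 ≤ q ^ 2 * Real.exp (5 * (k : ℝ) ^ 2 * s) := by positivity
      have hle1 := hpow1 (nb inc E x e ∪ nb inc E x e').card
      by_cases h2 : e = e'
      · rw [if_pos h2]
        have h3 : (0:ℝ) ≤ (if ¬ goodE inc E s D e then 1 else 0) := by split_ifs <;> norm_num
        have h4 : (0:ℝ) ≤ (if ¬ goodE inc E s D e' then 1 else 0) := by split_ifs <;> norm_num
        linarith
      · rw [if_neg h2]
        by_cases h3 : goodE inc E s D e
        · by_cases h4 : goodE inc E s D e'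
          · rw [if_neg (not_not.mpr h3), if_neg (not_not.mpr h4)]
            have h5 : (nb inc E x e).card + (nb inc E x e').card ≤
                (nb inc E x e ∪ nb inc E x e').card + k ^ 2 := by
              have h6 := Finset.card_union_add_card_inter (nb inc E x e) (nb inc E x e')
              have h7 := card_nb_inter inc hlin hk (E := E) (mem_star.mp he).2 (mem_star.mp he').2 h2
              omega
            have := pow_upper hk1 hθ0 hθ1 hs0 hs1 hD (hNcard e he h3).1 (hNcard e' he' h4).1 h5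
            simp only [add_zero]
            exact this
          · rw [if_pos h4]
            have h5 : (0:ℝ) ≤ (if ¬ goodE inc E s D e then 1 else 0) := by split_ifs <;> norm_num
            linarith
        · rw [if_pos h3]
          have h5 : (0:ℝ) ≤ (if ¬ goodE inc E s D e' then 1 else 0) := by split_ifs <;> norm_num
          linarith
    have h2 := Finset.sum_le_sum (fun e he => Finset.sum_le_sum (fun e' he' => h1 e he e' he'))
    refine h2.trans ?_
    have h3 : ∑ e ∈ T, ∑ e' ∈ T, (q ^ 2 * Real.exp (5 * (k : ℝ) ^ 2 * s)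
          + (if e = e' then (1:ℝ) else 0)
          + (if ¬ goodE inc E s D e then (1:ℝ) else 0) + (if ¬ goodE inc E s D e' then (1:ℝ) else 0))
        = d ^ 2 * (q ^ 2 * Real.exp (5 * (k : ℝ) ^ 2 * s)) + d
          + 2 * ((T.filter (fun e => ¬ goodE inc E s D e)).card : ℝ) * d := by
      have h4 : ∑ e' ∈ T, (if ¬ goodE inc E s D e' then (1:ℝ) else 0)
          = ((T.filter (fun e => ¬ goodE inc E s D e)).card : ℝ) := by
        rw [Finset.card_filter]; push_cast; rfl
      have h5 : ∀ e ∈ T, ∑ e' ∈ T, (q ^ 2 * Real.exp (5 * (k : ℝ) ^ 2 * s)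
          + (if e = e' then (1:ℝ) else 0)
          + (if ¬ goodE inc E s D e then (1:ℝ) else 0) + (if ¬ goodE inc E s D e' then (1:ℝ) else 0))
          = d * (q ^ 2 * Real.exp (5 * (k : ℝ) ^ 2 * s)) + 1
            + d * (if ¬ goodE inc E s D e then (1:ℝ) else 0)
            + ((T.filter (fun e => ¬ goodE inc E s D e)).card : ℝ) := by
        intro e he
        rw [Finset.sum_add_distrib, Finset.sum_add_distrib, Finset.sum_add_distrib, h4,
          Finset.sum_ite_eq, if_pos he]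
        simp [hd]
      have h6 : ∑ e ∈ T, d * (if ¬ goodE inc E s D e then (1:ℝ) else 0)
          = d * ((T.filter (fun e => ¬ goodE inc E s D e)).card : ℝ) := by
        rw [← Finset.mul_sum, h4]
      rw [Finset.sum_congr rfl h5, Finset.sum_add_distrib, Finset.sum_add_distrib,
        Finset.sum_add_distrib, h6]
      simp only [Finset.sum_const, nsmul_eq_mul]
      rw [← hd]
      ring
    rw [h3]
    have h6 : 0 ≤ d := by rw [hd]; positivity
    nlinarith
  -- combine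
  have hexp : Ex E (fun _ => θ / D) (fun S => (((T.filter
        (fun e => Disjoint (nb inc E x e) S)).card : ℝ) - q * D) ^ 2)
      = (∑ e ∈ T, ∑ e' ∈ T, (1 - θ / D) ^ (nb inc E x e ∪ nb inc E x e').card)
        - 2 * (q * D) * (∑ e ∈ T, (1 - θ / D) ^ (nb inc E x e).card) + (q * D) ^ 2 := by
    have h1 : ∀ S, S ⊆ E → (((T.filter
        (fun e => Disjoint (nb inc E x e) S)).card : ℝ) - q * D) ^ 2
        = (((T.filter (fun e => Disjoint (nb inc E x e) S)).card : ℝ) ^ 2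
          - (2 * (q * D)) * ((T.filter (fun e => Disjoint (nb inc E x e) S)).card : ℝ))
          + (q * D) ^ 2 := by
      intro S _; ring
    rw [Ex_congr h1, Ex_add, Ex_sub, Ex_mul_left, Ex_const,
      Ex_second E T (fun e => nb inc E x e) (fun e _ => nb_subset inc E x e),
      Ex_first E T (fun e => nb inc E x e) (fun e _ => nb_subset inc E x e)]
  rw [hexp]
  have hd2 : d ^ 2 ≤ ((1 + s) * D) ^ 2 := by
    apply pow_le_pow_left₀ _ hd_hi
    rw [hd]; positivity
  have h1 : ∑ e ∈ T, ∑ e' ∈ T, (1 - θ / D) ^ (nb inc E x e ∪ nb inc E x e').card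
      ≤ D ^ 2 * ((1 + s) ^ 2 * (q ^ 2 * Real.exp (5 * (k : ℝ) ^ 2 * s))
        + (1 + s) * s + 2 * s * (1 + s)) := by
    refine hsecond.trans ?_
    have h2 : d ^ 2 * (q ^ 2 * Real.exp (5 * (k : ℝ) ^ 2 * s))
        ≤ ((1 + s) * D) ^ 2 * (q ^ 2 * Real.exp (5 * (k : ℝ) ^ 2 * s)) :=
      mul_le_mul_of_nonneg_right hd2 (by positivity)
    have h3 : d ≤ (1 + s) * s * D ^ 2 := by
      have : (1 + s) * D * 1 ≤ (1 + s) * D * (s * D) :=
        mul_le_mul_of_nonneg_left hD1 (by positivity)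
      nlinarith
    have h4 : 2 * (s * D) * d ≤ 2 * (s * D) * ((1 + s) * D) :=
      mul_le_mul_of_nonneg_left hd_hi (by positivity)
    nlinarith
  have h2 : 2 * (q * D) * ((1 - 2 * s) * D * (q * Real.exp (-(5 * (k : ℝ) ^ 2 * s))))
      ≤ 2 * (q * D) * (∑ e ∈ T, (1 - θ / D) ^ (nb inc E x e).card) :=
    mul_le_mul_of_nonneg_left hfirst (by positivity)
  unfold errG
  rw [← hq]
  nlinarith

end Pool.Agent.Helper42
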