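import Pool.Agent.Helper42.Nibble2

/-!
One bite of the nibble and the near-perfect matching theorem.
-/

set_option autoImplicit false
set_option linter.unusedSectionVars false
set_option linter.unusedVariables false

namespace Pool.Agent.Helper42

variable {ι κ : Type*} [DecidableEq ι] [DecidableEq κ]

/-- the number of edges at `x` all of whose other vertices survive -/
def zc (inc : κ → Finset ι) (E : Finset κ) (x : ι) (S : Finset κ) : ℕ :=
  ((star inc E x).filter (fun e => Disjoint (nb inc E x e) S)).card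

theorem crude_bound (inc : κ → Finset ι) {k : ℕ} (hk1 : 1 ≤ k)
    {E : Finset κ} {θ D : ℝ} (hθ0 : 0 < θ) (hD : 0 < D) (hp1 : θ / D ≤ 1) (x : ι) :
    Ex E (fun _ => θ / D) (fun S => ((zc inc E x S : ℝ) - Real.exp (-(((k : ℝ) - 1) * θ)) * D) ^ 2)
      ≤ ((star inc E x).card : ℝ) ^ 2 + D ^ 2 := by
  have hkr : (1 : ℝ) ≤ k := by exact_mod_cast hk1
  have hq1 : Real.exp (-(((k : ℝ) - 1) * θ)) ≤ 1 := by
    rw [Real.exp_le_one_iff]
    have : 0 ≤ ((k : ℝ) - 1) * θ := mul_nonneg (by linarith) hθ0.le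
    linarith
  have hq0 := Real.exp_pos (-(((k : ℝ) - 1) * θ))
  rw [← Ex_const E (fun _ => θ / D) (((star inc E x).card : ℝ) ^ 2 + D ^ 2)]
  apply Ex_mono
  · intro _ _; positivity
  · intro _ _; exact hp1
  · intro S _
    have h1 : (zc inc E x S : ℝ) ≤ (star inc E x).card := by
      exact_mod_cast Finset.card_le_card (Finset.filter_subset _ _)
    have h2 : (0:ℝ) ≤ zc inc E x S := Nat.cast_nonneg _
    have h3 : (zc inc E x S : ℝ) ^ 2 ≤ ((star inc E x).card : ℝ) ^ 2 := pow_le_pow_left₀ h2 h1 2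
    have h4 : (Real.exp (-(((k : ℝ) - 1) * θ)) * D) ^ 2 ≤ D ^ 2 := by
      apply pow_le_pow_left₀ (by positivity)
      calc Real.exp (-(((k : ℝ) - 1) * θ)) * D ≤ 1 * D := mul_le_mul_of_nonneg_right hq1 hD.le
        _ = D := one_mul D
    have h5 : 0 ≤ (zc inc E x S : ℝ) * (Real.exp (-(((k : ℝ) - 1) * θ)) * D) := by positivity
    nlinarith

open Classical in
theorem total_bound (inc : κ → Finset ι) {k : ℕ} (hk : ∀ e, (inc e).card = k) (hk1 : 1 ≤ k)
    (hlin : ∀ e f, e ≠ f → (inc e ∩ inc f).card ≤ 1)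
    {X : Finset ι} {E : Finset κ} (hX : ∀ e ∈ E, inc e ⊆ X)
    {θ s D : ℝ} (hθ0 : 0 < θ) (hθ1 : θ ≤ 1) (hs0 : 0 < s)
    (hs1 : s ≤ 1 / 2) (hD : 1 / s ≤ D)
    (hL2 : ∑ x ∈ X, (((star inc E x).card : ℝ) - D) ^ 2 ≤ s ^ 5 * D ^ 2 * X.card) :
    ∑ x ∈ X, Ex E (fun _ => θ / D)
        (fun S => ((zc inc E x S : ℝ) - Real.exp (-(((k : ℝ) - 1) * θ)) * D) ^ 2)
      ≤ X.card * D ^ 2 * (|errG k θ s| + 2 * s ^ 5 + 9 * k * s ^ 2) := by
  have hDpos : 0 < D := lt_of_lt_of_le (by positivity) hD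
  have hD1 : 1 ≤ s * D := by
    rw [div_le_iff₀ hs0] at hD; linarith
  have hp0 : 0 ≤ θ / D := by positivity
  have hps : θ / D ≤ s := by
    rw [div_le_iff₀ hDpos]; linarith
  have hkr : (1 : ℝ) ≤ k := by exact_mod_cast hk1
  set dg : ι → ℝ := fun x => ((star inc E x).card : ℝ) with hdg
  have hL2' : ∑ x ∈ X, (dg x - D) ^ 2 ≤ s ^ 5 * D ^ 2 * X.card := hL2
  set T0 := X.filter (fun x => ¬ (|dg x - D| ≤ s * D)) with hT0
  set BE := E.filter (fun e => ¬ goodE inc E s D e) with hBE
  set B1 := X.filter (fun x => ¬ (((star inc BE x).card : ℝ) ≤ s * D)) with hB1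
  have hXnn : (0:ℝ) ≤ X.card := Nat.cast_nonneg _
  -- size of T0
  have hT0card : (T0.card : ℝ) ≤ s ^ 3 * X.card := by
    have h1 : ∑ x ∈ T0, (s * D) ^ 2 ≤ ∑ x ∈ X, (dg x - D) ^ 2 := by
      calc ∑ x ∈ T0, (s * D) ^ 2 ≤ ∑ x ∈ T0, (dg x - D) ^ 2 := by
            apply Finset.sum_le_sum
            intro x hx
            rw [hT0, Finset.mem_filter] at hx
            have h2 : s * D ≤ |dg x - D| := le_of_lt (not_le.mp hx.2)
            rw [← sq_abs (dg x - D)]
            exact pow_le_pow_left₀ (by positivity) h2 2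
        _ ≤ ∑ x ∈ X, (dg x - D) ^ 2 := by
            apply Finset.sum_le_sum_of_subset_of_nonneg (Finset.filter_subset _ _)
            intro x _ _
            positivity
    rw [Finset.sum_const, nsmul_eq_mul] at h1
    have h2 : (T0.card : ℝ) * (s * D) ^ 2 ≤ s ^ 3 * X.card * (s * D) ^ 2 := by
      calc (T0.card : ℝ) * (s * D) ^ 2 ≤ s ^ 5 * D ^ 2 * X.card := h1.trans hL2'
        _ = s ^ 3 * X.card * (s * D) ^ 2 := by ring
    exact le_of_mul_le_mul_right h2 (by positivity)
  -- number of bad edges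
  have hBEcard : (BE.card : ℝ) ≤ 2 * s ^ 3 * D * X.card := by
    have h1 : BE ⊆ T0.biUnion (fun u => star inc E u) := by
      intro e he
      rw [hBE, Finset.mem_filter] at he
      obtain ⟨he, hg⟩ := he
      unfold goodE at hg
      push Not at hg
      obtain ⟨u, hu, hu2⟩ := hg
      rw [Finset.mem_biUnion]
      refine ⟨u, ?_, mem_star.mpr ⟨he, hu⟩⟩
      rw [hT0, Finset.mem_filter]
      exact ⟨hX e he hu, not_le.mpr hu2⟩
    have h2 := (Finset.card_le_card h1).trans Finset.card_biUnion_le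
    have h3 : (BE.card : ℝ) ≤ ∑ u ∈ T0, dg u := by
      have : (BE.card : ℝ) ≤ ((∑ u ∈ T0, (star inc E u).card : ℕ) : ℝ) := by exact_mod_cast h2
      refine this.trans (le_of_eq ?_)
      push_cast
      rfl
    have h4 : ∑ u ∈ T0, dg u ≤ ∑ u ∈ T0, (D + (dg u - D) ^ 2 / (s * D)) := by
      apply Finset.sum_le_sum
      intro u hu
      rw [hT0, Finset.mem_filter] at hu
      have h5 : s * D ≤ |dg u - D| := le_of_lt (not_le.mp hu.2)
      have h6 : |dg u - D| ≤ (dg u - D) ^ 2 / (s * D) := by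
        rw [le_div_iff₀ (by positivity), ← sq_abs (dg u - D), sq]
        exact mul_le_mul_of_nonneg_left h5 (abs_nonneg _)
      linarith [le_abs_self (dg u - D)]
    have h5 : ∑ u ∈ T0, (dg u - D) ^ 2 ≤ s ^ 5 * D ^ 2 * X.card := by
      refine le_trans ?_ hL2'
      apply Finset.sum_le_sum_of_subset_of_nonneg (Finset.filter_subset _ _)
      intro x _ _
      positivity
    rw [Finset.sum_add_distrib, Finset.sum_const, nsmul_eq_mul, ← Finset.sum_div] at h4
    have h6 : (∑ u ∈ T0, (dg u - D) ^ 2) / (s * D) ≤ s ^ 4 * D * X.card := by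
      rw [div_le_iff₀ (by positivity)]
      calc ∑ u ∈ T0, (dg u - D) ^ 2 ≤ s ^ 5 * D ^ 2 * X.card := h5
        _ = s ^ 4 * D * X.card * (s * D) := by ring
    have h7 : (T0.card : ℝ) * D ≤ s ^ 3 * X.card * D := mul_le_mul_of_nonneg_right hT0card hDpos.le
    have h8 : s ^ 4 * D * X.card ≤ s ^ 3 * D * X.card := by
      have : s ^ 4 ≤ s ^ 3 := by
        calc s ^ 4 = s ^ 3 * s := by ring
          _ ≤ s ^ 3 * 1 := mul_le_mul_of_nonneg_left (by linarith) (by positivity)
          _ = s ^ 3 := mul_one _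
      exact mul_le_mul_of_nonneg_right (mul_le_mul_of_nonneg_right this hDpos.le) hXnn
    linarith
  -- number of vertices with many bad edges
  have hB1card : (B1.card : ℝ) ≤ 2 * k * s ^ 2 * X.card := by
    have h1 : ∑ x ∈ X, ((star inc BE x).card : ℝ) = k * BE.card :=
      sum_star inc hk (fun e he => hX e (Finset.mem_filter.mp he).1)
    have h2 : ∑ x ∈ B1, (s * D) ≤ ∑ x ∈ X, ((star inc BE x).card : ℝ) := by
      calc ∑ x ∈ B1, (s * D) ≤ ∑ x ∈ B1, ((star inc BE x).card : ℝ) := by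
            apply Finset.sum_le_sum
            intro x hx
            rw [hB1, Finset.mem_filter] at hx
            exact le_of_lt (not_le.mp hx.2)
        _ ≤ _ := by
            apply Finset.sum_le_sum_of_subset_of_nonneg (Finset.filter_subset _ _)
            intro x _ _
            positivity
    rw [Finset.sum_const, nsmul_eq_mul, h1] at h2
    have h3 : (B1.card : ℝ) * (s * D) ≤ 2 * k * s ^ 2 * X.card * (s * D) := by
      calc (B1.card : ℝ) * (s * D) ≤ k * BE.card := h2
        _ ≤ k * (2 * s ^ 3 * D * X.card) := mul_le_mul_of_nonneg_left hBEcard (by positivity)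
        _ = 2 * k * s ^ 2 * X.card * (s * D) := by ring
    exact le_of_mul_le_mul_right h3 (by positivity)
  -- pointwise bound
  have hpt : ∀ x ∈ X, Ex E (fun _ => θ / D)
        (fun S => ((zc inc E x S : ℝ) - Real.exp (-(((k : ℝ) - 1) * θ)) * D) ^ 2)
      ≤ D ^ 2 * |errG k θ s| + (if x ∈ T0 ∪ B1 then dg x ^ 2 + D ^ 2 else 0) := by
    intro x hx
    by_cases hb : x ∈ T0 ∪ B1
    · rw [if_pos hb]
      have h1 := crude_bound inc hk1 (E := E) hθ0 hDpos (by linarith : θ / D ≤ 1) x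
      have h2 : 0 ≤ D ^ 2 * |errG k θ s| := by positivity
      have h3 : ((star inc E x).card : ℝ) ^ 2 = dg x ^ 2 := rfl
      rw [h3] at h1
      linarith
    · rw [if_neg hb, add_zero]
      rw [Finset.mem_union, not_or, hT0, hB1, Finset.mem_filter, Finset.mem_filter] at hb
      push Not at hb
      have h1 := hb.1 hx
      have h2 := hb.2 hx
      have h3 : star inc BE x = (star inc E x).filter (fun e => ¬ goodE inc E s D e) := by
        ext e
        rw [mem_star, hBE, Finset.mem_filter, Finset.mem_filter, mem_star]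
        tauto
      rw [h3] at h2
      have h4 := nice_bound inc hk hk1 hlin hθ0 hθ1 hs0 hs1 hD h1 h2
      refine le_trans h4 ?_
      exact mul_le_mul_of_nonneg_left (le_abs_self _) (by positivity)
  refine (Finset.sum_le_sum hpt).trans ?_
  rw [Finset.sum_add_distrib, Finset.sum_const, nsmul_eq_mul, ← Finset.sum_filter]
  have h1 : ∑ x ∈ X.filter (fun x => x ∈ T0 ∪ B1), (dg x ^ 2 + D ^ 2)
      ≤ 2 * (s ^ 5 * D ^ 2 * X.card) + 3 * D ^ 2 * (X.filter (fun x => x ∈ T0 ∪ B1)).card := by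
    calc ∑ x ∈ X.filter (fun x => x ∈ T0 ∪ B1), (dg x ^ 2 + D ^ 2)
        ≤ ∑ x ∈ X.filter (fun x => x ∈ T0 ∪ B1), (2 * (dg x - D) ^ 2 + 3 * D ^ 2) := by
          apply Finset.sum_le_sum
          intro x _
          nlinarith [sq_nonneg (dg x - 2 * D)]
      _ = 2 * (∑ x ∈ X.filter (fun x => x ∈ T0 ∪ B1), (dg x - D) ^ 2)
          + 3 * D ^ 2 * (X.filter (fun x => x ∈ T0 ∪ B1)).card := by
          rw [Finset.sum_add_distrib, ← Finset.mul_sum, Finset.sum_const, nsmul_eq_mul]
          ring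
      _ ≤ _ := by
          have : ∑ x ∈ X.filter (fun x => x ∈ T0 ∪ B1), (dg x - D) ^ 2
              ≤ s ^ 5 * D ^ 2 * X.card := by
            refine le_trans ?_ hL2'
            apply Finset.sum_le_sum_of_subset_of_nonneg (Finset.filter_subset _ _)
            intro x _ _
            positivity
          linarith
  have h2 : ((X.filter (fun x => x ∈ T0 ∪ B1)).card : ℝ) ≤ 3 * k * s ^ 2 * X.card := by
    have h3 : (X.filter (fun x => x ∈ T0 ∪ B1)) ⊆ T0 ∪ B1 := by
      intro x hx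
      exact (Finset.mem_filter.mp hx).2
    have h4 : ((X.filter (fun x => x ∈ T0 ∪ B1)).card : ℝ) ≤ T0.card + B1.card := by
      exact_mod_cast (Finset.card_le_card h3).trans (Finset.card_union_le _ _)
    have h5 : s ^ 3 * X.card ≤ k * s ^ 2 * X.card := by
      apply mul_le_mul_of_nonneg_right _ hXnn
      calc s ^ 3 = s * s ^ 2 := by ring
        _ ≤ k * s ^ 2 := mul_le_mul_of_nonneg_right (by linarith) (by positivity)
    linarith
  have h3 : 3 * D ^ 2 * ((X.filter (fun x => x ∈ T0 ∪ B1)).card : ℝ)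
      ≤ 3 * D ^ 2 * (3 * k * s ^ 2 * X.card) := mul_le_mul_of_nonneg_left h2 (by positivity)
  nlinarith

/-- one bite -/
theorem bite (inc : κ → Finset ι) {k : ℕ} (hk : ∀ e, (inc e).card = k) (hk1 : 1 ≤ k)
    (hlin : ∀ e f, e ≠ f → (inc e ∩ inc f).card ≤ 1)
    {X : Finset ι} {E : Finset κ} (hX : ∀ e ∈ E, inc e ⊆ X)
    {θ s D c L : ℝ} (hθ0 : 0 < θ) (hθ1 : θ ≤ 1) (hs0 : 0 < s)
    (hs1 : s ≤ 1 / 2) (hD : 1 / s ≤ D) (hc0 : 0 ≤ c) (hc1 : c ≤ 1) (hL : 0 ≤ L)
    (hL2 : ∑ x ∈ X, (((star inc E x).card : ℝ) - D) ^ 2 ≤ s ^ 5 * D ^ 2 * X.card) :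
    ∃ S, S ⊆ E ∧ ((X.card : ℝ) - k * (isol inc S).card - (1 - c) * (surv inc X E S).card)
      + L / D ^ 2 * (∑ x ∈ surv inc X E S, (((star inc (esurv inc X E S) x).card : ℝ)
          - Real.exp (-(((k : ℝ) - 1) * θ)) * D) ^ 2)
      ≤ X.card * (c - c * θ + 3 * k * θ ^ 2 + s * θ
          + L * (|errG k θ s| + 2 * s ^ 5 + 9 * k * s ^ 2)) := by
  have hDpos : 0 < D := lt_of_lt_of_le (by positivity) hD
  have hD1 : 1 ≤ s * D := by
    rw [div_le_iff₀ hs0] at hD; linarith
  have hp0 : 0 ≤ θ / D := by positivity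
  have hps : θ / D ≤ s := by
    rw [div_le_iff₀ hDpos]; linarith
  have hp1 : θ / D ≤ 1 := by linarith
  have hpD : θ / D * D = θ := by field_simp
  have hkr : (1 : ℝ) ≤ k := by exact_mod_cast hk1
  have hXnn : (0:ℝ) ≤ X.card := Nat.cast_nonneg _
  obtain ⟨S, hS, hle⟩ := exists_le_Ex (U := E) (p := fun _ => θ / D) (fun _ _ => hp0) (fun _ _ => hp1)
    (fun S => ((X.card : ℝ) - k * (isol inc S).card - (1 - c) * (surv inc X E S).card)
      + L / D ^ 2 * (∑ x ∈ X, ((zc inc E x S : ℝ)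
          - Real.exp (-(((k : ℝ) - 1) * θ)) * D) ^ 2))
  refine ⟨S, hS, ?_⟩
  have hsum : ∑ x ∈ surv inc X E S, (((star inc (esurv inc X E S) x).card : ℝ)
          - Real.exp (-(((k : ℝ) - 1) * θ)) * D) ^ 2
      ≤ ∑ x ∈ X, ((zc inc E x S : ℝ) - Real.exp (-(((k : ℝ) - 1) * θ)) * D) ^ 2 := by
    calc ∑ x ∈ surv inc X E S, (((star inc (esurv inc X E S) x).card : ℝ)
          - Real.exp (-(((k : ℝ) - 1) * θ)) * D) ^ 2
        = ∑ x ∈ surv inc X E S, ((zc inc E x S : ℝ) - Real.exp (-(((k : ℝ) - 1) * θ)) * D) ^ 2 := by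
          apply Finset.sum_congr rfl
          intro x hx
          rw [star_esurv inc hX hS hx]
          rfl
      _ ≤ _ := by
          apply Finset.sum_le_sum_of_subset_of_nonneg (Finset.filter_subset _ _)
          intro x _ _
          positivity
  have hLD : 0 ≤ L / D ^ 2 := by positivity
  have hstep1 := mul_le_mul_of_nonneg_left hsum hLD
  refine le_trans ?_ (hle.trans ?_)
  · linarith
  · -- expectation
    rw [Ex_add, Ex_sub, Ex_sub, Ex_const, Ex_mul_left, Ex_mul_left, Ex_mul_left, Ex_sum]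
    have h1 := total_bound inc hk hk1 hlin hX hθ0 hθ1 hs0 hs1 hD hL2
    have h2 := mul_le_mul_of_nonneg_left h1 hLD
    have h3 : L / D ^ 2 * (X.card * D ^ 2 * (|errG k θ s| + 2 * s ^ 5 + 9 * k * s ^ 2))
        = X.card * (L * (|errG k θ s| + 2 * s ^ 5 + 9 * k * s ^ 2)) := by
      field_simp
    rw [h3] at h2
    have h4 := Ex_isol inc E hp0 hp1
    have h5 := Ex_surv inc hk hX hp0 hp1
    have h6 := card_ipairs_le inc hX
    have h7 := sum_star inc hk hX
    -- sum of squares
    have h8 : ∑ x ∈ X, ((star inc E x).card : ℝ) ^ 2 ≤ 3 * D ^ 2 * X.card := by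
      calc ∑ x ∈ X, ((star inc E x).card : ℝ) ^ 2
          ≤ ∑ x ∈ X, (2 * (((star inc E x).card : ℝ) - D) ^ 2 + 2 * D ^ 2) := by
            apply Finset.sum_le_sum
            intro x _
            nlinarith [sq_nonneg (((star inc E x).card : ℝ) - 2 * D)]
        _ = 2 * (∑ x ∈ X, (((star inc E x).card : ℝ) - D) ^ 2) + 2 * D ^ 2 * X.card := by
            rw [Finset.sum_add_distrib, ← Finset.mul_sum, Finset.sum_const, nsmul_eq_mul]
            ring
        _ ≤ 2 * (s ^ 5 * D ^ 2 * X.card) + 2 * D ^ 2 * X.card := by linarith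
        _ ≤ 3 * D ^ 2 * X.card := by
            have h9 : s ^ 5 ≤ 1 / 2 := by
              calc s ^ 5 = s * s ^ 4 := by ring
                _ ≤ 1 / 2 * 1 := mul_le_mul hs1 (pow_le_one₀ hs0.le (by linarith))
                    (by positivity) (by norm_num)
                _ = 1 / 2 := by ring
            have h10 : 0 ≤ D ^ 2 * X.card := by positivity
            nlinarith
    have h9 : (θ / D) ^ 2 * (ipairs inc E).card ≤ 3 * θ ^ 2 * X.card := by
      calc (θ / D) ^ 2 * (ipairs inc E).card ≤ (θ / D) ^ 2 * (3 * D ^ 2 * X.card) :=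
            mul_le_mul_of_nonneg_left (h6.trans h8) (by positivity)
        _ = 3 * (θ / D * D) ^ 2 * X.card := by ring
        _ = 3 * θ ^ 2 * X.card := by rw [hpD]
    -- sum of degrees
    have h10 : (1 - s) * D * X.card ≤ k * E.card := by
      rw [← h7]
      have h11 : ∑ x ∈ X, (D - (s / 2 * D + (((star inc E x).card : ℝ) - D) ^ 2 / (2 * (s * D))))
          ≤ ∑ x ∈ X, ((star inc E x).card : ℝ) := by
        apply Finset.sum_le_sum
        intro x _
        have h12 : -(s / 2 * D + (((star inc E x).card : ℝ) - D) ^ 2 / (2 * (s * D)))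
            ≤ ((star inc E x).card : ℝ) - D := by
          have h13 : 0 < 2 * (s * D) := by positivity
          have h14 : s / 2 * D + (((star inc E x).card : ℝ) - D) ^ 2 / (2 * (s * D))
              + (((star inc E x).card : ℝ) - D)
              = ((((star inc E x).card : ℝ) - D) + s * D) ^ 2 / (2 * (s * D)) := by
            field_simp
            ring
          have h15 : 0 ≤ ((((star inc E x).card : ℝ) - D) + s * D) ^ 2 / (2 * (s * D)) := by
            positivity
          linarith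
        linarith
      refine le_trans ?_ h11
      rw [Finset.sum_sub_distrib, Finset.sum_add_distrib, Finset.sum_const, Finset.sum_const,
        nsmul_eq_mul, nsmul_eq_mul, ← Finset.sum_div]
      have h12 : (∑ x ∈ X, (((star inc E x).card : ℝ) - D) ^ 2) / (2 * (s * D))
          ≤ s ^ 4 / 2 * D * X.card := by
        rw [div_le_iff₀ (by positivity)]
        calc ∑ x ∈ X, (((star inc E x).card : ℝ) - D) ^ 2 ≤ s ^ 5 * D ^ 2 * X.card := hL2
          _ = s ^ 4 / 2 * D * X.card * (2 * (s * D)) := by ring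
      have h13 : s ^ 4 / 2 * D * X.card ≤ s / 2 * D * X.card := by
        have : s ^ 4 ≤ s := by
          calc s ^ 4 = s * s ^ 3 := by ring
            _ ≤ s * 1 := mul_le_mul_of_nonneg_left (pow_le_one₀ hs0.le (by linarith)) hs0.le
            _ = s := mul_one s
        have h14 : s ^ 4 * (D * X.card) ≤ s * (D * X.card) :=
          mul_le_mul_of_nonneg_right this (by positivity)
        linarith
      linarith
    have h11 : θ * (1 - s) * X.card ≤ θ / D * (k * E.card) := by
      calc θ * (1 - s) * X.card = θ / D * D * (1 - s) * X.card := by rw [hpD]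
        _ = θ / D * ((1 - s) * D * X.card) := by ring
        _ ≤ θ / D * (k * E.card) := mul_le_mul_of_nonneg_left h10 hp0
    have h12 : (k : ℝ) * Ex E (fun _ => θ / D) (fun S => ((isol inc S).card : ℝ))
        ≥ k * (θ / D * E.card - (θ / D) ^ 2 * (ipairs inc E).card) :=
      mul_le_mul_of_nonneg_left h4 (by positivity)
    have h13 : (1 - c) * Ex E (fun _ => θ / D) (fun S => ((surv inc X E S).card : ℝ))
        ≥ (1 - c) * (X.card - θ / D * (k * E.card)) :=
      mul_le_mul_of_nonneg_left h5 (by linarith)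
    have h14 : c * (θ * (1 - s) * X.card) ≤ c * (θ / D * (k * E.card)) :=
      mul_le_mul_of_nonneg_left h11 hc0
    have h15 : k * ((θ / D) ^ 2 * (ipairs inc E).card) ≤ k * (3 * θ ^ 2 * X.card) :=
      mul_le_mul_of_nonneg_left h9 (by positivity)
    have h16 : c * (θ * s * X.card) ≤ 1 * (θ * s * X.card) :=
      mul_le_mul_of_nonneg_right hc1 (by positivity)
    have h17 : L / D ^ 2 * ∑ b ∈ X, Ex E (fun _ => θ / D)
        (fun S => ((zc inc E b S : ℝ) - Real.exp (-(((k : ℝ) - 1) * θ)) * D) ^ 2)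
        ≤ X.card * (L * (|errG k θ s| + 2 * s ^ 5 + 9 * k * s ^ 2)) := h2
    have h18 : (X.card : ℝ) * (c - c * θ + 3 * k * θ ^ 2 + s * θ
          + L * (|errG k θ s| + 2 * s ^ 5 + 9 * k * s ^ 2))
        = c * X.card - c * (θ * (1 - s) * X.card) + k * (3 * θ ^ 2 * X.card)
          + (1 * (θ * s * X.card) - c * (θ * s * X.card))
          + X.card * (L * (|errG k θ s| + 2 * s ^ 5 + 9 * k * s ^ 2)) := by ring
    rw [h18]
    linarith

end Pool.Agent.Helper42
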