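import Mathlib

set_option autoImplicit false

namespace Pool.Agent.Helper42.PositiveChar

open MvPolynomial

/-- A finite hypergraph with vertex set `Fin n`.  The edges are indexed by `Fin m`, so repeated
edges are allowed; every edge has at least two vertices. -/
structure Hypergraph (n : ℕ) where
  /-- number of edges (counted with multiplicity) -/
  m : ℕ
  /-- the vertex set of each edge -/
  edge : Fin m → Finset (Fin n)
  /-- every edge has size at least two -/
  two_le_card : ∀ e, 2 ≤ (edge e).card

/-- The number (with multiplicity) of edges of `H` contained in `X`. -/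
def Hypergraph.numInside {n : ℕ} (H : Hypergraph n) (X : Finset (Fin n)) : ℕ :=
  (Finset.univ.filter (fun e : Fin H.m => H.edge e ⊆ X)).card

/-- The edge density: the maximum of `|E(X)| / |X|` over nonempty vertex sets `X`. -/
noncomputable def Hypergraph.ed {n : ℕ} (H : Hypergraph n) : ℝ :=
  ⨆ X : {X : Finset (Fin n) // X.Nonempty}, (H.numInside X.1 : ℝ) / (X.1.card : ℝ)

/-- The polynomial `∏ₑ ∑_{i ∈ e} a(e,i) xᵢ`. -/
noncomputable def Hypergraph.poly {n : ℕ} (H : Hypergraph n) {F : Type} [Field F]
    (a : Fin H.m → Fin n → F) : MvPolynomial (Fin n) F :=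
  ∏ e : Fin H.m, ∑ i ∈ H.edge e, C (a e i) * X i

/-- All the coefficients of the linear factors are nonzero, so `H.poly a` is a hypergraph
polynomial of `H`. -/
def Hypergraph.NonzeroCoeffs {n : ℕ} (H : Hypergraph n) {F : Type} [Field F]
    (a : Fin H.m → Fin n → F) : Prop :=
  ∀ e, ∀ i ∈ H.edge e, a e i ≠ 0

/-- Every linear factor has two different coefficients: the hypergraph polynomial is fully
unbalanced. -/
def Hypergraph.FullyUnbalanced {n : ℕ} (H : Hypergraph n) {F : Type} [Field F]
    (a : Fin H.m → Fin n → F) : Prop :=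
  ∀ e, ∃ i ∈ H.edge e, ∃ j ∈ H.edge e, a e i ≠ a e j

/-- The Alon-Tarsi number: the minimum of `1 + max αᵢ` over the monomials `α` of top total degree
with nonzero coefficient. -/
noncomputable def AT {n : ℕ} {F : Type} [Field F] (p : MvPolynomial (Fin n) F) : ℕ :=
  sInf {k : ℕ | ∃ α ∈ p.support, (∑ i, α i) = p.totalDegree ∧ k = (Finset.univ.sup fun i => α i) + 1}

/-- Over every field of positive characteristic with more than two elements the Alon-Tarsi number
of fully unbalanced hypergraph polynomials is unbounded, already for hypergraphs of edge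
density `1`. -/
theorem result (F : Type) [Field F] (q : ℕ) [Fact q.Prime] [CharP F q]
    (hF : ∃ a : F, a ≠ 0 ∧ a ≠ 1) (N : ℕ) :
    ∃ (n : ℕ) (H : Hypergraph n) (a : Fin H.m → Fin n → F),
      H.NonzeroCoeffs a ∧ H.FullyUnbalanced a ∧ H.ed = 1 ∧ N < AT (H.poly a) := by
  obtain ⟨t, ht0, ht1⟩ := hF
  have hq : 2 ≤ q := (Fact.out : q.Prime).two_le
  -- the number of vertices
  obtain ⟨k, hk⟩ : ∃ k : ℕ, N < q ^ (k + 1) := by
    refine ⟨N, ?_⟩
    calc N < 2 ^ N := Nat.lt_two_pow_self
      _ ≤ q ^ N := Nat.pow_le_pow_left hq N
      _ ≤ q ^ (N + 1) := Nat.pow_le_pow_right (by omega) (by omega)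
  set n := q ^ (k + 1) with hn
  have hn2 : 2 ≤ n := by
    calc 2 ≤ q := hq
      _ = q ^ 1 := (pow_one q).symm
      _ ≤ q ^ (k + 1) := Nat.pow_le_pow_right (by omega) (by omega)
  have hnpos : 0 < n := by omega
  let c : Fin n → F := fun i => if i = ⟨0, hnpos⟩ then t else 1
  have hc0 : ∀ i, c i ≠ 0 := by
    intro i
    simp only [c]
    split_ifs
    · exact ht0
    · exact one_ne_zero
  let H : Hypergraph n :=
    { m := n
      edge := fun _ => Finset.univ
      two_le_card := fun _ => by simpa using hn2 }
  refine ⟨n, H, fun _ i => c i, ?_, ?_, ?_, ?_⟩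
  · intro e i _
    exact hc0 i
  · intro e
    refine ⟨⟨0, hnpos⟩, Finset.mem_univ _, ⟨1, by omega⟩, Finset.mem_univ _, ?_⟩
    have h0 : c ⟨0, hnpos⟩ = t := if_pos rfl
    have h1 : c ⟨1, by omega⟩ = 1 := by
      apply if_neg
      intro h
      have := congrArg Fin.val h
      simp at this
    simp only [h0, h1]
    exact ht1
  · -- edge density
    have hin : ∀ X : Finset (Fin n), H.numInside X = if X = Finset.univ then n else 0 := by
      intro X
      unfold Hypergraph.numInside
      by_cases hX : X = Finset.univ
      · simp [H, hX]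
      · rw [if_neg hX]
        rw [Finset.card_eq_zero, Finset.filter_eq_empty_iff]
        intro e _ he
        exact hX (Finset.eq_univ_iff_forall.mpr (fun i => he (Finset.mem_univ i)))
    have huniv : (Finset.univ : Finset (Fin n)).Nonempty := ⟨⟨0, hnpos⟩, Finset.mem_univ _⟩
    have : Nonempty {X : Finset (Fin n) // X.Nonempty} := ⟨⟨Finset.univ, huniv⟩⟩
    unfold Hypergraph.ed
    apply le_antisymm
    · apply ciSup_le
      rintro ⟨X, hX⟩
      simp only [hin]
      split_ifs with h
      · subst h
        simp only [Finset.card_univ, Fintype.card_fin]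
        exact le_of_eq (div_self (by positivity))
      · simp
    · have hb : BddAbove (Set.range fun X : {X : Finset (Fin n) // X.Nonempty} =>
          (H.numInside X.1 : ℝ) / (X.1.card : ℝ)) := Set.Finite.bddAbove (Set.finite_range _)
      have := le_ciSup hb ⟨Finset.univ, huniv⟩
      refine le_trans ?_ this
      simp only [hin, if_true, Finset.card_univ, Fintype.card_fin]
      exact le_of_eq (div_self (by positivity)).symm
  · -- the Alon-Tarsi number
    have hpoly : H.poly (fun _ i => c i) = ∑ i : Fin n, monomial (Finsupp.single i n) (c i ^ n) := by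
      unfold Hypergraph.poly
      have h1 : (∏ e : Fin H.m, ∑ i ∈ H.edge e, C (c i) * X i : MvPolynomial (Fin n) F)
          = (∑ i : Fin n, C (c i) * X i) ^ n := by
        simp [H]
      have h2 : ∀ x : Fin n → MvPolynomial (Fin n) F, (∑ i, x i) ^ n = ∑ i, x i ^ n := by
        intro x
        exact sum_pow_char_pow q (k + 1) Finset.univ x
      rw [h1, h2]
      refine Finset.sum_congr rfl (fun i _ => ?_)
      rw [mul_pow, ← C_pow, X_pow_eq_monomial, C_mul_monomial, mul_one]
    have hcoeff : ∀ α : Fin n →₀ ℕ, coeff α (H.poly (fun _ i => c i)) ≠ 0 →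
        ∃ i, α = Finsupp.single i n := by
      intro α hα
      rw [hpoly, coeff_sum] at hα
      obtain ⟨i, _, hi⟩ := Finset.exists_ne_zero_of_sum_ne_zero hα
      rw [coeff_monomial] at hi
      by_contra hcon
      push Not at hcon
      rw [if_neg (fun h => hcon i h.symm)] at hi
      exact hi rfl
    have hcoeff0 : coeff (Finsupp.single ⟨0, hnpos⟩ n) (H.poly (fun _ i => c i)) ≠ 0 := by
      rw [hpoly, coeff_sum, Finset.sum_eq_single (⟨0, hnpos⟩ : Fin n)]
      · rw [coeff_monomial, if_pos rfl]
        exact pow_ne_zero _ (hc0 _)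
      · intro b _ hb
        rw [coeff_monomial, if_neg]
        intro h
        rw [Finsupp.single_left_inj (by omega)] at h
        exact hb h
      · intro h
        exact absurd (Finset.mem_univ _) h
    have hsup : ∀ i : Fin n, (Finset.univ.sup fun j => (Finsupp.single i n : Fin n →₀ ℕ) j) = n := by
      intro i
      apply le_antisymm
      · apply Finset.sup_le
        intro j _
        rw [Finsupp.single_apply]
        split_ifs <;> omega
      · refine le_trans ?_ (Finset.le_sup (f := fun j => (Finsupp.single i n : Fin n →₀ ℕ) j)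
          (Finset.mem_univ i))
        simp
    have hsum : ∀ i : Fin n, (∑ j, (Finsupp.single i n : Fin n →₀ ℕ) j) = n := by
      intro i
      rw [Finset.sum_eq_single i]
      · simp
      · intro b _ hb
        rw [Finsupp.single_apply, if_neg (fun h => hb h.symm)]
      · intro h
        exact absurd (Finset.mem_univ _) h
    have hdeg : (H.poly (fun _ i => c i)).totalDegree = n := by
      apply le_antisymm
      · unfold totalDegree
        apply Finset.sup_le
        intro α hα
        rw [mem_support_iff] at hα
        obtain ⟨i, rfl⟩ := hcoeff α hα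
        rw [Finsupp.sum_single_index rfl]
      · have h3 := le_totalDegree (mem_support_iff.mpr hcoeff0)
        rw [Finsupp.sum_single_index rfl] at h3
        exact h3
    unfold AT
    have hset : {k : ℕ | ∃ α ∈ (H.poly (fun _ i => c i)).support,
        (∑ i, α i) = (H.poly (fun _ i => c i)).totalDegree ∧
        k = (Finset.univ.sup fun i => α i) + 1} = {n + 1} := by
      ext m
      simp only [Set.mem_ofPred_eq, Set.mem_singleton_iff]
      constructor
      · rintro ⟨α, hα, -, rfl⟩
        rw [mem_support_iff] at hα
        obtain ⟨i, rfl⟩ := hcoeff α hα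
        rw [hsup]
      · rintro rfl
        refine ⟨Finsupp.single ⟨0, hnpos⟩ n, mem_support_iff.mpr hcoeff0, ?_, ?_⟩
        · rw [hdeg, hsum]
        · rw [hsup]
    rw [hset, csInf_singleton]
    omega

end Pool.Agent.Helper42.PositiveChar
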