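import Mathlib

/-!
Expectation over a random subset `S` of a finite set `U`, where each element `e ∈ U` is chosen
independently with probability `p e`.
-/

set_option autoImplicit false

namespace Pool.Agent.Helper42

variable {κ : Type*} [DecidableEq κ]

/-- weight of the subset `S` of `U` -/
noncomputable def wt (U : Finset κ) (p : κ → ℝ) (S : Finset κ) : ℝ :=
  (∏ e ∈ S, p e) * ∏ e ∈ U \ S, (1 - p e)

/-- expectation of `f` over a random subset of `U` -/
noncomputable def Ex (U : Finset κ) (p : κ → ℝ) (f : Finset κ → ℝ) : ℝ :=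
  ∑ S ∈ U.powerset, wt U p S * f S

theorem sum_wt (U : Finset κ) (p : κ → ℝ) : ∑ S ∈ U.powerset, wt U p S = 1 := by
  unfold wt
  rw [← Finset.prod_add]
  simp

theorem wt_nonneg {U : Finset κ} {p : κ → ℝ} (hp0 : ∀ e ∈ U, 0 ≤ p e) (hp1 : ∀ e ∈ U, p e ≤ 1)
    {S : Finset κ} (hS : S ⊆ U) : 0 ≤ wt U p S := by
  unfold wt
  apply mul_nonneg
  · exact Finset.prod_nonneg (fun e he => hp0 e (hS he))
  · exact Finset.prod_nonneg (fun e he => by
      have := hp1 e (Finset.mem_sdiff.mp he).1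
      linarith)

theorem Ex_const (U : Finset κ) (p : κ → ℝ) (c : ℝ) : Ex U p (fun _ => c) = c := by
  unfold Ex
  rw [← Finset.sum_mul, sum_wt, one_mul]

theorem Ex_add (U : Finset κ) (p : κ → ℝ) (f g : Finset κ → ℝ) :
    Ex U p (fun S => f S + g S) = Ex U p f + Ex U p g := by
  unfold Ex
  rw [← Finset.sum_add_distrib]
  exact Finset.sum_congr rfl (fun S _ => by ring)

theorem Ex_sub (U : Finset κ) (p : κ → ℝ) (f g : Finset κ → ℝ) :
    Ex U p (fun S => f S - g S) = Ex U p f - Ex U p g := by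
  unfold Ex
  rw [← Finset.sum_sub_distrib]
  exact Finset.sum_congr rfl (fun S _ => by ring)

theorem Ex_mul_left (U : Finset κ) (p : κ → ℝ) (c : ℝ) (f : Finset κ → ℝ) :
    Ex U p (fun S => c * f S) = c * Ex U p f := by
  unfold Ex
  rw [Finset.mul_sum]
  exact Finset.sum_congr rfl (fun S _ => by ring)

theorem Ex_sum {β : Type*} (U : Finset κ) (p : κ → ℝ) (B : Finset β) (f : β → Finset κ → ℝ) :
    Ex U p (fun S => ∑ b ∈ B, f b S) = ∑ b ∈ B, Ex U p (f b) := by
  unfold Ex
  rw [Finset.sum_comm]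
  exact Finset.sum_congr rfl (fun S _ => by rw [Finset.mul_sum])

theorem Ex_mono {U : Finset κ} {p : κ → ℝ} (hp0 : ∀ e ∈ U, 0 ≤ p e) (hp1 : ∀ e ∈ U, p e ≤ 1)
    {f g : Finset κ → ℝ} (h : ∀ S, S ⊆ U → f S ≤ g S) : Ex U p f ≤ Ex U p g := by
  unfold Ex
  apply Finset.sum_le_sum
  intro S hS
  rw [Finset.mem_powerset] at hS
  exact mul_le_mul_of_nonneg_left (h S hS) (wt_nonneg hp0 hp1 hS)

theorem Ex_congr {U : Finset κ} {p : κ → ℝ}
    {f g : Finset κ → ℝ} (h : ∀ S, S ⊆ U → f S = g S) : Ex U p f = Ex U p g := by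
  unfold Ex
  apply Finset.sum_congr rfl
  intro S hS
  rw [Finset.mem_powerset] at hS
  rw [h S hS]

/-- some subset does at most as badly as the average -/
theorem exists_le_Ex {U : Finset κ} {p : κ → ℝ} (hp0 : ∀ e ∈ U, 0 ≤ p e) (hp1 : ∀ e ∈ U, p e ≤ 1)
    (f : Finset κ → ℝ) : ∃ S, S ⊆ U ∧ f S ≤ Ex U p f := by
  by_contra hcon
  push Not at hcon
  have h1 : ∑ S ∈ U.powerset, wt U p S * (f S - Ex U p f) = 0 := by
    have : ∑ S ∈ U.powerset, wt U p S * (f S - Ex U p f)
        = Ex U p (fun S => f S - (fun _ => Ex U p f) S) := rfl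
    rw [this, Ex_sub, Ex_const]
    ring
  have h2 : ∀ S ∈ U.powerset, 0 ≤ wt U p S * (f S - Ex U p f) := by
    intro S hS
    rw [Finset.mem_powerset] at hS
    exact mul_nonneg (wt_nonneg hp0 hp1 hS) (by have := hcon S hS; linarith)
  have h3 := (Finset.sum_eq_zero_iff_of_nonneg h2).mp h1
  have h4 : ∑ S ∈ U.powerset, wt U p S = 0 := by
    apply Finset.sum_eq_zero
    intro S hS
    have h5 := h3 S hS
    have h6 := hcon S (Finset.mem_powerset.mp hS)
    rcases mul_eq_zero.mp h5 with h7 | h7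
    · exact h7
    · linarith
  rw [sum_wt] at h4
  exact one_ne_zero h4

/-- the probability that `S` contains `A` and avoids `N` -/
theorem Ex_indicator {U : Finset κ} (p : κ → ℝ) {A N : Finset κ} (hA : A ⊆ U) (hN : N ⊆ U)
    (hAN : Disjoint A N) :
    Ex U p (fun S => if A ⊆ S ∧ Disjoint N S then 1 else 0)
      = (∏ e ∈ A, p e) * ∏ e ∈ N, (1 - p e) := by
  have h1 : ∀ S ∈ U.powerset, wt U p S * (if A ⊆ S ∧ Disjoint N S then (1:ℝ) else 0)
      = (∏ e ∈ S, (if e ∈ N then 0 else p e)) * ∏ e ∈ U \ S, (if e ∈ A then 0 else 1 - p e) := by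
    intro S hS
    rw [Finset.mem_powerset] at hS
    by_cases hc : A ⊆ S ∧ Disjoint N S
    · rw [if_pos hc, mul_one]
      unfold wt
      congr 1
      · apply Finset.prod_congr rfl
        intro e he
        rw [if_neg (fun h => Finset.disjoint_left.mp hc.2 h he)]
      · apply Finset.prod_congr rfl
        intro e he
        rw [if_neg (fun h => (Finset.mem_sdiff.mp he).2 (hc.1 h))]
    · rw [if_neg hc, mul_zero]
      rw [not_and_or] at hc
      rcases hc with hc | hc
      · rw [Finset.not_subset] at hc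
        obtain ⟨e, heA, heS⟩ := hc
        have : ∏ e ∈ U \ S, (if e ∈ A then (0:ℝ) else 1 - p e) = 0 :=
          Finset.prod_eq_zero (Finset.mem_sdiff.mpr ⟨hA heA, heS⟩) (if_pos heA)
        rw [this, mul_zero]
      · rw [Finset.not_disjoint_iff] at hc
        obtain ⟨e, heN, heS⟩ := hc
        have : ∏ e ∈ S, (if e ∈ N then (0:ℝ) else p e) = 0 :=
          Finset.prod_eq_zero heS (if_pos heN)
        rw [this, zero_mul]
  unfold Ex
  rw [Finset.sum_congr rfl h1, ← Finset.prod_add]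
  have h2 : ∀ e ∈ U, ((if e ∈ N then (0:ℝ) else p e) + (if e ∈ A then 0 else 1 - p e))
      = (if e ∈ A then p e else 1) * (if e ∈ N then 1 - p e else 1) := by
    intro e _
    by_cases h3 : e ∈ A
    · have h4 : e ∉ N := fun h => Finset.disjoint_left.mp hAN h3 h
      simp [h3, h4]
    · by_cases h4 : e ∈ N
      · simp [h3, h4]
      · simp [h3, h4]
  rw [Finset.prod_congr rfl h2, Finset.prod_mul_distrib]
  congr 1
  · rw [← Finset.prod_filter, Finset.filter_mem_eq_inter, Finset.inter_eq_right.mpr hA]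
  · rw [← Finset.prod_filter, Finset.filter_mem_eq_inter, Finset.inter_eq_right.mpr hN]

theorem Ex_avoid {U : Finset κ} (p : κ → ℝ) {N : Finset κ} (hN : N ⊆ U) :
    Ex U p (fun S => if Disjoint N S then 1 else 0) = ∏ e ∈ N, (1 - p e) := by
  have := Ex_indicator (U := U) p (Finset.empty_subset U) hN (Finset.disjoint_empty_left N)
  simpa using this

theorem Ex_contain {U : Finset κ} (p : κ → ℝ) {A : Finset κ} (hA : A ⊆ U) :
    Ex U p (fun S => if A ⊆ S then 1 else 0) = ∏ e ∈ A, p e := by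
  have := Ex_indicator (U := U) p hA (Finset.empty_subset U) (Finset.disjoint_empty_right A)
  simpa using this

end Pool.Agent.Helper42
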